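import Pool.Agent.Lib.HS.Ct.Spec

/-!
# PROJECT H*, part Ct, module Ass: associated determinant forms of the same index are equal
-/

set_option autoImplicit false

namespace Pool.Agent.HS.Ct

open MvPolynomial

namespace Ass_aux

/-- values of the form -/
theorem eval_qfP (h : Fin 4 → Matrix (Fin 2) (Fin 2) ℤ) (n : Fin 4 → ℤ) :
    eval (fun l => (n l : ℚ)) (qfP h) = (qf h n : ℚ) := by
  have hc : ∀ i j : Fin 2, ∑ l, (h l i j : ℚ) * (n l : ℚ) = ∑ l, (n l : ℚ) * (h l i j : ℚ) :=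
    fun i j => Finset.sum_congr rfl fun l _ => mul_comm _ _
  unfold qfP qf
  rw [Matrix.det_fin_two]
  simp only [map_sub, map_mul, map_sum, eval_C, eval_X, Matrix.sum_apply, Matrix.smul_apply,
    smul_eq_mul, hc]
  push_cast
  rfl

/-- the coefficient matrix -/
def mM (h : Fin 4 → Matrix (Fin 2) (Fin 2) ℤ) : Matrix (Fin 4) (Fin 4) ℚ :=
  Matrix.of fun i => ![(h i 0 0 : ℚ), (h i 0 1 : ℚ), (h i 1 0 : ℚ), (h i 1 1 : ℚ)]

theorem det_mM (h : Fin 4 → Matrix (Fin 2) (Fin 2) ℤ) : (mM h).det = (ix h : ℚ) := by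
  have h1 : (ix h : ℚ) = ((Int.castRingHom ℚ).mapMatrix
      (Matrix.of ![![h 0 0 0, h 0 0 1, h 0 1 0, h 0 1 1], ![h 1 0 0, h 1 0 1, h 1 1 0, h 1 1 1],
        ![h 2 0 0, h 2 0 1, h 2 1 0, h 2 1 1],
        ![h 3 0 0, h 3 0 1, h 3 1 0, h 3 1 1]])).det := by
    rw [← RingHom.map_det]
    rfl
  rw [h1]
  congr 1
  ext i j
  fin_cases i <;> fin_cases j <;> rfl

/-- the polar form of `det` -/
def mJ : Matrix (Fin 4) (Fin 4) ℚ := !![0, 0, 0, 1; 0, 0, -1, 0; 0, -1, 0, 0; 1, 0, 0, 0]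

theorem det_mJ : mJ.det = 1 := by
  unfold mJ
  simp [Matrix.det_succ_row_zero, Fin.sum_univ_succ, Fin.succAbove]
  norm_num

/-- the Gram matrix -/
def mG (h : Fin 4 → Matrix (Fin 2) (Fin 2) ℤ) : Matrix (Fin 4) (Fin 4) ℚ :=
  Matrix.of fun i j => (qf h (Pi.single i 1 + Pi.single j 1) : ℚ) - (qf h (Pi.single i 1) : ℚ) -
    (qf h (Pi.single j 1) : ℚ)

theorem sum_single (h : Fin 4 → Matrix (Fin 2) (Fin 2) ℤ) (i : Fin 4) :
    ∑ l, (Pi.single i 1 : Fin 4 → ℤ) l • h l = h i := by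
  rw [Finset.sum_eq_single i]
  · rw [Pi.single_eq_same, one_smul]
  · intro l _ hl
    rw [Pi.single_eq_of_ne hl, zero_smul]
  · intro hi
    exact absurd (Finset.mem_univ i) hi

theorem qf_single (h : Fin 4 → Matrix (Fin 2) (Fin 2) ℤ) (i : Fin 4) :
    qf h (Pi.single i 1) = (h i).det := by
  unfold qf
  rw [sum_single]

theorem qf_pair (h : Fin 4 → Matrix (Fin 2) (Fin 2) ℤ) (i j : Fin 4) :
    qf h (Pi.single i 1 + Pi.single j 1) = (h i + h j).det := by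
  unfold qf
  simp only [Pi.add_apply, add_smul, Finset.sum_add_distrib, sum_single]

theorem mG_eq (h : Fin 4 → Matrix (Fin 2) (Fin 2) ℤ) : mG h = mM h * mJ * (mM h).transpose := by
  ext i j
  have h1 : mG h i j = (h i 0 0 : ℚ) * h j 1 1 + h i 1 1 * h j 0 0 - h i 0 1 * h j 1 0 -
      h i 1 0 * h j 0 1 := by
    change (qf h (Pi.single i 1 + Pi.single j 1) : ℚ) - (qf h (Pi.single i 1) : ℚ) -
      (qf h (Pi.single j 1) : ℚ) = _
    rw [qf_pair, qf_single, qf_single, Matrix.det_fin_two, Matrix.det_fin_two, Matrix.det_fin_two]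
    simp only [Matrix.add_apply]
    push_cast
    ring
  rw [h1]
  simp only [mM, mJ, Matrix.mul_apply, Matrix.transpose_apply, Fin.sum_univ_four, Matrix.of_apply,
    Matrix.cons_val, Matrix.cons_val_zero, Matrix.cons_val_one]
  ring

theorem det_mG (h : Fin 4 → Matrix (Fin 2) (Fin 2) ℤ) : (mG h).det = (ix h : ℚ) ^ 2 := by
  rw [mG_eq, Matrix.det_mul, Matrix.det_mul, Matrix.det_transpose, det_mM, det_mJ]
  ring

end Ass_aux

open Ass_aux in
theorem tAss : AssStmt := by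
  intro h h' hix hix' hass hpos n
  obtain ⟨u, hu⟩ := hass
  obtain ⟨c, -, hc⟩ := MvPolynomial.isUnit_iff_eq_C_of_isReduced.1 u.isUnit
  rw [hc] at hu
  have hv : ∀ n, (qf h' n : ℚ) = c * (qf h n : ℚ) := by
    intro n
    rw [← eval_qfP, ← eval_qfP, ← hu, map_mul, eval_C, mul_comm]
  have hcpos : 0 < c := by
    obtain ⟨n0, h1, h2⟩ := hpos
    have h3 := hv n0
    have h4 : (0 : ℚ) < (qf h n0 : ℚ) := by exact_mod_cast h1
    have h5 : (0 : ℚ) < (qf h' n0 : ℚ) := by exact_mod_cast h2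
    rw [h3] at h5
    exact (mul_pos_iff_of_pos_right h4).1 h5
  have hG : mG h' = c • mG h := by
    ext i j
    change (qf h' (Pi.single i 1 + Pi.single j 1) : ℚ) - (qf h' (Pi.single i 1) : ℚ) -
      (qf h' (Pi.single j 1) : ℚ) = c * ((qf h (Pi.single i 1 + Pi.single j 1) : ℚ) -
      (qf h (Pi.single i 1) : ℚ) - (qf h (Pi.single j 1) : ℚ))
    rw [hv, hv, hv]
    ring
  have h1 : (ix h' : ℚ) ^ 2 = c ^ 4 * (ix h : ℚ) ^ 2 := by
    rw [← det_mG, ← det_mG, hG, Matrix.det_smul, Fintype.card_fin]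
  have h2 : (ix h' : ℚ) ^ 2 = (ix h : ℚ) ^ 2 := by exact_mod_cast hix'
  have h3 : (ix h : ℚ) ^ 2 ≠ 0 := pow_ne_zero 2 (Int.cast_ne_zero.2 hix)
  have h4 : c ^ 4 = 1 := by
    have h5 : (c ^ 4 - 1) * (ix h : ℚ) ^ 2 = 0 := by
      rw [sub_mul, one_mul, ← h1, h2, sub_self]
    exact sub_eq_zero.1 ((mul_eq_zero.1 h5).resolve_right h3)
  have h6 : c = 1 := (pow_eq_one_iff_of_nonneg hcpos.le (by norm_num)).1 h4
  have h7 := hv n
  rw [h6, one_mul] at h7
  exact_mod_cast h7.symm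

end Pool.Agent.HS.Ct
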