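import Pool.Agent.Lib.HS.Ct.Spec

/-!
# PROJECT H*, part Ct, module Cel: the number of forms in one cell
-/

set_option autoImplicit false

namespace Pool.Agent.HS.Ct

open MvPolynomial

namespace Cel_aux

variable {ι : Type}

lemma sum_bd (S : Finset ι) (h : ℕ) (hS : S.card = h) (H : ℝ) (f : ι → ℝ)
    (hf : ∀ i ∈ S, |f i| ≤ H) : |∑ i ∈ S, f i| ≤ h * H := by
  refine (Finset.abs_sum_le_sum_abs _ _).trans ?_
  refine (Finset.sum_le_card_nsmul S _ H hf).trans ?_
  rw [hS, nsmul_eq_mul]

lemma sum_diff (S S' : Finset ι) (h : ℕ) (hS : S.card = h) (hS' : S'.card = h) (f : ι → ℝ) (z : ℝ) :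
    ∑ i ∈ S, (f i - z) - ∑ i ∈ S', (f i - z) = ∑ i ∈ S, f i - ∑ i ∈ S', f i := by
  rw [Finset.sum_sub_distrib, Finset.sum_sub_distrib, Finset.sum_const, Finset.sum_const, hS, hS']
  ring

end Cel_aux

open Cel_aux in
theorem tCel : CelStmt := by
  intro hEq hDis hNrm hFlo h K L H T n1 c hh hK hL hH hT hn1 hc hGP hb1 hb2 ι B Q m a a' b b' hA hg
    hass ha ha'
  rcases B.eq_empty_or_nonempty with hB | ⟨i0, hi0⟩
  · subst hB
    rw [Finset.card_empty, Nat.choose_eq_zero_of_lt (by omega), Nat.cast_zero]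
    positivity
  have hη : (0 : ℝ) < 1 / (128 * L ^ 4) := by positivity
  have key := hFlo (4 + 3) (Finset ι) (B.powersetCard h)
    (fun S => Fin.append (fun l : Fin 4 => ∑ i ∈ S, (a i l - a i0 l))
      (fun k : Fin 3 => ∑ i ∈ S, (a' i (c.succAbove k) - a' i0 (c.succAbove k))))
    (h * H) (1 / (128 * L ^ 4)) 1 (by positivity) hη zero_le_one ?_ ?_
  · rw [Finset.card_powersetCard, mul_one] at key
    refine key.trans (le_of_eq ?_)
    have e1 : 2 * ((h : ℝ) * H) / (1 / (128 * L ^ 4)) + 2 = 256 * h * L ^ 4 * H + 2 := by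
      rw [div_div_eq_mul_div, div_one]
      ring
    rw [e1]
  · intro S hS j
    obtain ⟨hSB, hSc⟩ := Finset.mem_powersetCard.1 hS
    refine Fin.addCases (fun l => ?_) (fun k => ?_) j
    · simp only [Fin.append_left]
      exact sum_bd S h hSc H _ fun i hi => ha i (hSB hi) i0 hi0 l
    · simp only [Fin.append_right]
      exact sum_bd S h hSc H _ fun i hi => ha' i (hSB hi) i0 hi0 k
  · intro t ht htt
    have h1 : t.card ≤ 1 := by
      refine Finset.card_le_one.2 fun S hS S' hS' => ?_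
      obtain ⟨hSB, hSc⟩ := Finset.mem_powersetCard.1 (ht hS)
      obtain ⟨hSB', hSc'⟩ := Finset.mem_powersetCard.1 (ht hS')
      refine hDis hNrm h T hGP ι B Q m (fun i hi => (hA i hi).hom) (fun i hi => (hA i hi).irr) hass
        (fun i hi => (hA i hi).sq) S hSB S' hSB' hSc hSc' ?_
      refine hEq h K L H T n1 c hh hK hL hH hT hn1 hc hb1 hb2 ι B Q m a a' b b' hA hg ha ha' S hSB S'
        hSB' hSc hSc' (fun l => ?_) fun k => ?_
      · have h2 := htt S hS S' hS' (Fin.castAdd 3 l)
        simp only [Fin.append_left] at h2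
        rw [sum_diff S S' h hSc hSc'] at h2
        exact h2
      · have h2 := htt S hS S' hS' (Fin.natAdd 4 k)
        simp only [Fin.append_right] at h2
        rw [sum_diff S S' h hSc hSc'] at h2
        exact h2
    exact_mod_cast h1

end Pool.Agent.HS.Ct
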