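import Pool.Agent.Lib.HS.Ct.Spec

/-!
# PROJECT H*, part Ct: from a binomial coefficient to the number
-/

set_option autoImplicit false

namespace Pool.Agent.HS.Ct

/-- **Chs**: from a binomial coefficient to the number. -/
theorem tChs : ChsStmt := by
  intro h N X h1 hX hc
  have hh : (1 : ℝ) ≤ (h : ℝ) := by exact_mod_cast h1
  have hr : (0 : ℝ) ≤ X ^ ((1 : ℝ) / h) := Real.rpow_nonneg hX _
  have h0 : (0 : ℝ) ≤ (h : ℝ) := by linarith
  rcases le_total N h with hN | hN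
  · have e1 : (N : ℝ) ≤ h := by exact_mod_cast hN
    nlinarith [mul_nonneg h0 hr]
  · have e1 := Nat.pow_le_choose (α := ℝ) h N
    have hf : (0 : ℝ) < (h.factorial : ℝ) := by exact_mod_cast h.factorial_pos
    rw [div_le_iff₀ hf] at e1
    have hf2 : (h.factorial : ℝ) ≤ (h : ℝ) ^ h := by exact_mod_cast Nat.factorial_le_pow h
    have hc0 : (0 : ℝ) ≤ (N.choose h : ℝ) := Nat.cast_nonneg _
    have e2 : ((N + 1 - h : ℕ) : ℝ) ^ h ≤ (h : ℝ) ^ h * X := by
      calc ((N + 1 - h : ℕ) : ℝ) ^ h ≤ (N.choose h : ℝ) * (h.factorial : ℝ) := e1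
        _ ≤ X * (h : ℝ) ^ h := mul_le_mul hc hf2 hf.le hX
        _ = (h : ℝ) ^ h * X := mul_comm _ _
    have hn : h ≠ 0 := by omega
    have e3 : X = (X ^ ((1 : ℝ) / h)) ^ h := by
      rw [one_div, Real.rpow_inv_natCast_pow hX hn]
    rw [e3, ← mul_pow] at e2
    have e4 : ((N + 1 - h : ℕ) : ℝ) ≤ (h : ℝ) * X ^ ((1 : ℝ) / h) :=
      le_of_pow_le_pow_left₀ hn (mul_nonneg h0 hr) e2
    have e5 : (N : ℝ) ≤ ((N + 1 - h : ℕ) : ℝ) + h := by
      have : N ≤ (N + 1 - h) + h := by omega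
      exact_mod_cast this
    nlinarith

end Pool.Agent.HS.Ct
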