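import Pool.Agent.Lib.HS.Ct.Spec

/-!
# PROJECT H* (MP_a54f13_nt), part Ct: assembly of `CtStmt` (gauge, cells, numbers)
-/

set_option autoImplicit false

namespace Pool.Agent.HS.Ct

open MvPolynomial

namespace Cnt_aux

/-- the numbers -/
theorem arith (h : ℕ) (hh : 1 ≤ h) (K L H : ℝ) (hL : 1 ≤ L) (hK : 1 ≤ K) (hH : 0 < H)
    (hHK : 2 ^ 14 * (h : ℝ) * (2 * L ^ 3) ^ 11 * H ^ 2 = K) :
    (2 * (K * (2 * L ^ 3)) / H + 2) ^ (4 + 3) *
      ((h : ℝ) * (((256 * (h : ℝ) * (2 * L ^ 3) ^ 4 * H + 2) ^ 7) ^ ((1 : ℝ) / h) + 1)) ≤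
    ((258 * (h : ℝ)) ^ 7 * 2 ^ 49 * h * (4 * h) ^ 8) * L ^ 147 * K ^ ((7 : ℝ) / 2 + 7 / (2 * h)) := by
  have hh' : (1 : ℝ) ≤ h := by exact_mod_cast hh
  have hh0 : (0 : ℝ) < h := by linarith
  have hL3 : (1 : ℝ) ≤ L ^ 3 := one_le_pow₀ hL
  obtain ⟨M, hM⟩ : ∃ M, M = 2 * L ^ 3 := ⟨_, rfl⟩
  have hM49 : M ^ 49 = 2 ^ 49 * L ^ 147 := by
    rw [hM]
    ring
  rw [← hM] at hHK ⊢
  have hM1 : 1 ≤ M := by linarith
  have hM0 : 0 < M := by linarith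
  have hK0 : 0 < K := by linarith
  obtain ⟨s, hs⟩ : ∃ s, s = √K := ⟨_, rfl⟩
  have hs1 : 1 ≤ s := by
    rw [hs]
    exact Real.one_le_sqrt.2 hK
  have hs0 : 0 < s := by linarith
  have hss : s * s = K := by
    rw [hs]
    exact Real.mul_self_sqrt hK0.le
  have hsr : s = K ^ ((1 : ℝ) / 2) := by rw [hs, Real.sqrt_eq_rpow]
  -- part 1
  have hA : s ≤ 128 * h * M ^ 6 * H := by
    rw [hs]
    refine Real.sqrt_le_iff.2 ⟨by positivity, ?_⟩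
    have e : (128 * (h : ℝ) * M ^ 6 * H) ^ 2 = (h * M) * K := by
      rw [← hHK]
      ring
    rw [e]
    have h1 : 1 ≤ (h : ℝ) * M := one_le_mul_of_one_le_of_one_le hh' hM1
    nlinarith
  have h1 : 2 * (K * M) / H ≤ 256 * h * M ^ 7 * s := by
    rw [div_le_iff₀ hH]
    calc 2 * (K * M) = 2 * M * s * s := by
          rw [← hss]
          ring
      _ ≤ 2 * M * s * (128 * h * M ^ 6 * H) := mul_le_mul_of_nonneg_left hA (by positivity)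
      _ = 256 * h * M ^ 7 * s * H := by ring
  have hM7 : 1 ≤ (h : ℝ) * M ^ 7 * s :=
    one_le_mul_of_one_le_of_one_le (one_le_mul_of_one_le_of_one_le hh' (one_le_pow₀ hM1)) hs1
  have p1 : 2 * (K * M) / H + 2 ≤ 258 * h * M ^ 7 * s := by nlinarith
  -- part 2
  have h2 : 256 * (h : ℝ) * M ^ 4 * H ≤ 2 * h * s := by
    refine (sq_le_sq₀ (by positivity) (by positivity)).1 ?_
    have e : M ^ 3 * (256 * (h : ℝ) * M ^ 4 * H) ^ 2 = 4 * h * K := by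
      rw [← hHK]
      ring
    have e1 : (2 * (h : ℝ) * s) ^ 2 = 4 * h * K * h := by
      rw [← hss]
      ring
    rw [e1]
    have e2 : (1 : ℝ) ≤ M ^ 3 := one_le_pow₀ hM1
    have e3 : 0 ≤ (256 * (h : ℝ) * M ^ 4 * H) ^ 2 := sq_nonneg _
    have e4 : 0 ≤ 4 * (h : ℝ) * K := by positivity
    calc (256 * (h : ℝ) * M ^ 4 * H) ^ 2 ≤ M ^ 3 * (256 * (h : ℝ) * M ^ 4 * H) ^ 2 :=
          le_mul_of_one_le_left e3 e2
      _ = 4 * h * K := e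
      _ ≤ 4 * h * K * h := le_mul_of_one_le_right e4 hh'
  have hhs : 1 ≤ (h : ℝ) * s := one_le_mul_of_one_le_of_one_le hh' hs1
  have p2 : 256 * (h : ℝ) * M ^ 4 * H + 2 ≤ 4 * h * s := by nlinarith
  -- part 3
  have hq : (0 : ℝ) ≤ 1 / h := by positivity
  have hq1 : 7 * ((1 : ℝ) / h) ≤ 7 := by
    have : (1 : ℝ) / h ≤ 1 := by
      rw [div_le_one hh0]
      exact hh'
    linarith
  have hKr : 1 ≤ K ^ ((7 : ℝ) / (2 * h)) := Real.one_le_rpow hK (by positivity)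
  have p3 : ((256 * (h : ℝ) * M ^ 4 * H + 2) ^ 7) ^ ((1 : ℝ) / h) ≤
      (4 * h) ^ 7 * K ^ ((7 : ℝ) / (2 * h)) := by
    calc ((256 * (h : ℝ) * M ^ 4 * H + 2) ^ 7) ^ ((1 : ℝ) / h)
        ≤ ((4 * h * s) ^ 7) ^ ((1 : ℝ) / h) :=
          Real.rpow_le_rpow (by positivity) (pow_le_pow_left₀ (by positivity) p2 7) hq
      _ = (4 * h * s) ^ (7 * ((1 : ℝ) / h)) := by
          rw [← Real.rpow_natCast, ← Real.rpow_mul (by positivity)]
          norm_num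
      _ = (4 * h) ^ (7 * ((1 : ℝ) / h)) * s ^ (7 * ((1 : ℝ) / h)) :=
          Real.mul_rpow (by positivity) hs0.le
      _ ≤ (4 * h) ^ (7 : ℝ) * s ^ (7 * ((1 : ℝ) / h)) := by
          refine mul_le_mul_of_nonneg_right ?_ (Real.rpow_nonneg hs0.le _)
          exact Real.rpow_le_rpow_of_exponent_le (by linarith) hq1
      _ = (4 * h) ^ 7 * K ^ ((7 : ℝ) / (2 * h)) := by
          have e1 : (4 * (h : ℝ)) ^ (7 : ℝ) = (4 * h) ^ 7 := by
            rw [← Real.rpow_natCast]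
            norm_num
          have e2 : s ^ (7 * ((1 : ℝ) / h)) = K ^ ((7 : ℝ) / (2 * h)) := by
            rw [hsr, ← Real.rpow_mul hK0.le]
            congr 1
            field_simp
          rw [e1, e2]
  have p4 : (h : ℝ) * (((256 * (h : ℝ) * M ^ 4 * H + 2) ^ 7) ^ ((1 : ℝ) / h) + 1) ≤
      h * ((4 * h) ^ 8 * K ^ ((7 : ℝ) / (2 * h))) := by
    refine mul_le_mul_of_nonneg_left ?_ hh0.le
    have e1 : (4 * (h : ℝ)) ^ 8 = (4 * h) ^ 7 * (4 * h) := by ring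
    have e2 : (1 : ℝ) ≤ (4 * h) ^ 7 := one_le_pow₀ (by linarith)
    have e3 : 1 ≤ (4 * (h : ℝ)) ^ 7 * K ^ ((7 : ℝ) / (2 * h)) :=
      one_le_mul_of_one_le_of_one_le e2 hKr
    rw [e1]
    calc ((256 * (h : ℝ) * M ^ 4 * H + 2) ^ 7) ^ ((1 : ℝ) / h) + 1
        ≤ (4 * h) ^ 7 * K ^ ((7 : ℝ) / (2 * h)) + (4 * h) ^ 7 * K ^ ((7 : ℝ) / (2 * h)) :=
          add_le_add p3 e3
      _ = 2 * ((4 * h) ^ 7 * K ^ ((7 : ℝ) / (2 * h))) := by ring
      _ ≤ (4 * h) * ((4 * h) ^ 7 * K ^ ((7 : ℝ) / (2 * h))) :=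
          mul_le_mul_of_nonneg_right (by linarith) (by linarith)
      _ = (4 * h) ^ 7 * (4 * h) * K ^ ((7 : ℝ) / (2 * h)) := by ring
  have hs7 : s ^ 7 = K ^ ((7 : ℝ) / 2) := by
    rw [hsr, ← Real.rpow_natCast, ← Real.rpow_mul hK0.le]
    norm_num
  calc (2 * (K * M) / H + 2) ^ (4 + 3) *
      ((h : ℝ) * (((256 * (h : ℝ) * M ^ 4 * H + 2) ^ 7) ^ ((1 : ℝ) / h) + 1))
      ≤ (258 * h * M ^ 7 * s) ^ 7 * (h * ((4 * h) ^ 8 * K ^ ((7 : ℝ) / (2 * h)))) := by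
        refine mul_le_mul (pow_le_pow_left₀ (by positivity) p1 7) p4 ?_ (by positivity)
        refine mul_nonneg hh0.le (add_nonneg (Real.rpow_nonneg (by positivity) _) zero_le_one)
    _ = (258 * h) ^ 7 * M ^ 49 * s ^ 7 * (h * ((4 * h) ^ 8 * K ^ ((7 : ℝ) / (2 * h)))) := by ring
    _ = ((258 * (h : ℝ)) ^ 7 * 2 ^ 49 * h * (4 * h) ^ 8) * L ^ 147 *
        (K ^ ((7 : ℝ) / 2) * K ^ ((7 : ℝ) / (2 * h))) := by
        rw [hM49, hs7]
        ring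
    _ = _ := by rw [← Real.rpow_add hK0]

end Cnt_aux

theorem tCnt : CntStmt := by
  intro hGau hCel hEq hDis hNrm hFlo hChs h hh
  refine ⟨(258 * h) ^ 7 * 2 ^ 49 * h * (4 * h) ^ 8, 147, ?_⟩
  intro K L T hL hK hT hGP ι B Q m a a' b b' hadm hass
  have hh' : (1 : ℝ) ≤ h := by exact_mod_cast hh
  have hC : (((258 * h) ^ 7 * 2 ^ 49 * h * (4 * h) ^ 8 : ℕ) : ℝ) =
      (258 * (h : ℝ)) ^ 7 * 2 ^ 49 * h * (4 * h) ^ 8 := by
    push_cast
    ring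
  rw [hC] at hK ⊢
  -- `K ≥ 4096 h L ^ 15`
  have hK2 : 4096 * (h : ℝ) * L ^ 15 ≤ K := by
    refine le_trans ?_ hK
    have e1 : L ^ 15 ≤ L ^ 147 := pow_le_pow_right₀ hL (by norm_num)
    have e2 : (1 : ℝ) ≤ (258 * h) ^ 7 := one_le_pow₀ (by linarith)
    have e3 : (1 : ℝ) ≤ (4 * h) ^ 8 := one_le_pow₀ (by linarith)
    have e4 : 4096 * (h : ℝ) ≤ (258 * (h : ℝ)) ^ 7 * 2 ^ 49 * h * (4 * h) ^ 8 := by
      calc 4096 * (h : ℝ) ≤ 1 * 2 ^ 49 * h * 1 := by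
            have : (0 : ℝ) ≤ h := by linarith
            nlinarith
        _ ≤ (258 * (h : ℝ)) ^ 7 * 2 ^ 49 * h * (4 * h) ^ 8 := by gcongr
    exact mul_le_mul e4 e1 (by positivity) (by positivity)
  have hK1 : 1 ≤ K := by
    refine le_trans ?_ hK2
    have e1 : (1 : ℝ) ≤ L ^ 15 := one_le_pow₀ hL
    have e2 : (1 : ℝ) ≤ 4096 * h := by linarith
    exact one_le_mul_of_one_le_of_one_le e2 e1
  have hK0 : 0 < K := by linarith
  have hL0 : 0 < L := by linarith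
  obtain ⟨n1, hn1, -⟩ := hGP 0 (Nat.zero_le _) 1 (isHomogeneous_one _ _) one_ne_zero
  rcases B.eq_empty_or_nonempty with rfl | ⟨i0, hi0⟩
  · rw [Finset.card_empty, Nat.cast_zero]
    positivity
  obtain ⟨c, hc⟩ : ∃ c, n1 c ≠ 0 := by
    by_contra hcon
    push Not at hcon
    have h1 := (hadm i0 hi0).lba n1 hn1
    have h2 : dt (a i0) n1 = 0 := by
      unfold dt
      refine Finset.sum_eq_zero fun l _ => ?_
      rw [hcon l, Int.cast_zero, mul_zero]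
    rw [h2] at h1
    have h3 : 0 < K / L := div_pos hK0 hL0
    linarith
  -- the gauge
  have hex : ∀ i, ∃ a1 a1' : Fin 4 → ℝ, i ∈ B → Adm K (2 * L ^ 3) T (Q i) (m i) a1 a1' (b i) (b' i) ∧
      dt a1 n1 = dt a1' n1 := by
    intro i
    by_cases hi : i ∈ B
    · obtain ⟨a1, a1', h1⟩ := hGau K L T (Q i) (m i) (a i) (a' i) (b i) (b' i) n1 hK1 hL hT hn1
        (hadm i hi)
      exact ⟨a1, a1', fun _ => h1⟩
    · exact ⟨0, 0, fun h1 => absurd h1 hi⟩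
  choose a1 a1' hg using hex
  have hL3 : L ≤ L ^ 3 := le_self_pow₀ hL (by norm_num)
  have hM1 : 1 ≤ 2 * L ^ 3 := by linarith
  have hM0 : 0 < 2 * L ^ 3 := by linarith
  have hTM : ∀ n ∈ T, ∀ l, |(n l : ℝ)| ≤ 2 * L ^ 3 := fun n hn l => (hT n hn l).trans (by linarith)
  obtain ⟨H, hHd⟩ : ∃ H, H = √(K / (2 ^ 14 * h * (2 * L ^ 3) ^ 11)) := ⟨_, rfl⟩
  have hden : (0 : ℝ) < 2 ^ 14 * h * (2 * L ^ 3) ^ 11 := by positivity
  have hH0 : 0 < H := by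
    rw [hHd]
    exact Real.sqrt_pos.2 (div_pos hK0 hden)
  have hHK : 2 ^ 14 * (h : ℝ) * (2 * L ^ 3) ^ 11 * H ^ 2 = K := by
    rw [hHd, Real.sq_sqrt (div_pos hK0 hden).le]
    exact mul_div_cancel₀ _ hden.ne'
  have hK3 : 128 * (h : ℝ) * (2 * L ^ 3) ^ 5 ≤ K ^ 3 := by
    have e1 : 128 * (h : ℝ) * (2 * L ^ 3) ^ 5 = 4096 * h * L ^ 15 := by ring
    rw [e1]
    exact hK2.trans (le_self_pow₀ hK1 (by norm_num))
  obtain ⟨X, hX⟩ : ∃ X : ℝ, X = (256 * (h : ℝ) * (2 * L ^ 3) ^ 4 * H + 2) ^ 7 := ⟨_, rfl⟩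
  have hX0 : 0 ≤ X := by
    rw [hX]
    positivity
  have hN0 : 0 ≤ (h : ℝ) * (X ^ ((1 : ℝ) / h) + 1) :=
    mul_nonneg (by linarith) (add_nonneg (Real.rpow_nonneg hX0 _) zero_le_one)
  have hmain := hFlo (4 + 3) ι B
    (fun i => Fin.append (a1 i) (fun k : Fin 3 => a1' i (c.succAbove k)))
    (K * (2 * L ^ 3)) H ((h : ℝ) * (X ^ ((1 : ℝ) / h) + 1)) (by positivity) hH0 hN0 ?_ ?_
  · refine hmain.trans ?_
    rw [hX]
    exact Cnt_aux.arith h hh K L H hL hK1 hH0 hHK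
  · intro i hi j
    refine Fin.addCases (fun l => ?_) (fun k => ?_) j
    · rw [Fin.append_left]
      exact (hg i hi).1.bda l
    · rw [Fin.append_right]
      exact (hg i hi).1.bda' _
  · intro t ht hcell
    refine hChs h t.card X hh hX0 ?_
    rw [hX]
    refine hCel hEq hDis hNrm hFlo h K (2 * L ^ 3) H T n1 c hh hK1 hM1 hH0.le hTM hn1 hc hGP
      hHK.le hK3 ι t Q m a1 a1' b b' (fun i hi => (hg i (ht hi)).1) (fun i hi => (hg i (ht hi)).2)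
      (fun i hi j hj hij => hass i (ht hi) j (ht hj) hij) ?_ ?_
    · intro i hi j hj l
      have h1 := hcell i hi j hj (Fin.castAdd 3 l)
      simp only [Fin.append_left] at h1
      exact h1
    · intro i hi j hj k
      have h1 := hcell i hi j hj (Fin.natAdd 4 k)
      simp only [Fin.append_right] at h1
      exact h1

end Pool.Agent.HS.Ct
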