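import Pool.Agent.Lib.HS.Ct.Spec

/-!
# PROJECT H*, part Ct: Flo

Pigeonhole in `ℝ ^ k` by cubes of side `η`.
-/

set_option autoImplicit false

namespace Pool.Agent.HS.Ct

namespace Flo_aux

/-- the number of cubes in one direction -/
theorem card_Icc_le {R η : ℝ} (hR : 0 ≤ R) (hη : 0 < η) :
    ((Finset.Icc ⌊-R / η⌋ ⌊R / η⌋).card : ℝ) ≤ 2 * R / η + 2 := by
  rw [Int.card_Icc]
  have h0 : 0 ≤ R / η := div_nonneg hR hη.le
  have h1 : (⌊R / η⌋ : ℝ) ≤ R / η := Int.floor_le _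
  have h2 : -R / η < (⌊-R / η⌋ : ℝ) + 1 := Int.lt_floor_add_one _
  have h3 : -R / η = -(R / η) := neg_div η R
  have h4 : 2 * R / η = 2 * (R / η) := by ring
  rw [h4]
  rcases le_or_gt 0 (⌊R / η⌋ + 1 - ⌊-R / η⌋) with h | h
  · have h5 : (((⌊R / η⌋ + 1 - ⌊-R / η⌋).toNat : ℕ) : ℝ) = ((⌊R / η⌋ + 1 - ⌊-R / η⌋ : ℤ) : ℝ) := by
      have h6 : (((⌊R / η⌋ + 1 - ⌊-R / η⌋).toNat : ℕ) : ℤ) = ⌊R / η⌋ + 1 - ⌊-R / η⌋ := Int.toNat_of_nonneg h
      exact_mod_cast h6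
    rw [h5]
    push_cast
    rw [h3] at h2 ⊢
    linarith
  · rw [Int.toNat_of_nonpos h.le]
    push_cast
    linarith

/-- two reals in the same cube -/
theorem abs_sub_le_of_floor {a b η : ℝ} (hη : 0 < η) (h : ⌊a / η⌋ = ⌊b / η⌋) : |a - b| ≤ η := by
  have h1 := Int.abs_sub_lt_one_of_floor_eq_floor h
  rw [← sub_div, abs_div, abs_of_pos hη, div_lt_one hη] at h1
  exact h1.le

end Flo_aux

/-- **Flo** (pigeonhole in `ℝ ^ k` by cubes of side `η`). -/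
theorem tFlo : FloStmt := by
  classical
  intro k α s f R η N hR hη hN hf ht
  have hmaps : ∀ x ∈ s, (fun j => ⌊f x j / η⌋ : Fin k → ℤ) ∈
      Fintype.piFinset (fun _ : Fin k => Finset.Icc ⌊-R / η⌋ ⌊R / η⌋) := by
    intro x hx
    rw [Fintype.mem_piFinset]
    intro j
    have h1 := abs_le.1 (hf x hx j)
    rw [Finset.mem_Icc]
    exact ⟨Int.floor_le_floor (div_le_div_of_nonneg_right h1.1 hη.le),
      Int.floor_le_floor (div_le_div_of_nonneg_right h1.2 hη.le)⟩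
  have hsum : s.card = ∑ b ∈ Fintype.piFinset (fun _ : Fin k => Finset.Icc ⌊-R / η⌋ ⌊R / η⌋),
      (s.filter (fun x => (fun j => ⌊f x j / η⌋ : Fin k → ℤ) = b)).card :=
    Finset.card_eq_sum_card_fiberwise hmaps
  have hfib : ∀ b : Fin k → ℤ, ((s.filter (fun x => (fun j => ⌊f x j / η⌋ : Fin k → ℤ) = b)).card : ℝ) ≤ N := by
    intro b
    refine ht _ (Finset.filter_subset _ _) ?_
    intro x hx y hy j
    have h1 := (Finset.mem_filter.1 hx).2
    have h2 := (Finset.mem_filter.1 hy).2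
    exact Flo_aux.abs_sub_le_of_floor hη ((congrFun h1 j).trans (congrFun h2 j).symm)
  have hcard : ((Fintype.piFinset (fun _ : Fin k => Finset.Icc ⌊-R / η⌋ ⌊R / η⌋)).card : ℝ) ≤ (2 * R / η + 2) ^ k := by
    rw [Fintype.card_piFinset, Finset.prod_const, Finset.card_univ, Fintype.card_fin]
    push_cast
    exact pow_le_pow_left₀ (Nat.cast_nonneg _) (Flo_aux.card_Icc_le hR hη) k
  rw [hsum]
  push_cast
  calc ∑ b ∈ Fintype.piFinset (fun _ : Fin k => Finset.Icc ⌊-R / η⌋ ⌊R / η⌋),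
        ((s.filter (fun x => (fun j => ⌊f x j / η⌋ : Fin k → ℤ) = b)).card : ℝ)
      ≤ ∑ _b ∈ Fintype.piFinset (fun _ : Fin k => Finset.Icc ⌊-R / η⌋ ⌊R / η⌋), N :=
        Finset.sum_le_sum fun b _ => hfib b
    _ = ((Fintype.piFinset (fun _ : Fin k => Finset.Icc ⌊-R / η⌋ ⌊R / η⌋)).card : ℝ) * N := by
        rw [Finset.sum_const, nsmul_eq_mul]
    _ ≤ (2 * R / η + 2) ^ k * N := mul_le_mul_of_nonneg_right hcard hN

end Pool.Agent.HS.Ct
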