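import Mathlib

/-!
# PROJECT H* (MP_a54f13_nt), HS/Ct, module 2: the norm polynomial

`normG`: for `Q, c : Fin m → R` there is `G ∈ R[Z]` with `φ G = ∏_ε (Z + ∑ ε_i φ(c_i) β_i)` for every ring
homomorphism `φ : R → S` and all `β_i ∈ S` with `β_i ^ 2 = φ(Q_i)`.

`normP`: for forms `Q_i` of degree `2` over `ℚ` and `c_i ∈ ℚ` there is a form `Ψ` of degree `2 ^ m` with
`φ Ψ = ∏_ε ∑ ε_i φ(c_i) β_i`.
-/

set_option autoImplicit false

namespace Pool.Agent.HS.Ct

open Polynomial

universe u

/-- the sign attached to a Boolean -/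
def sg (S : Type*) [Ring S] (b : Bool) : S := if b then 1 else -1

theorem sg_sq (S : Type*) [CommRing S] (b : Bool) : sg S b * sg S b = 1 := by
  cases b <;> simp [sg]

/-- even and odd part of a polynomial -/
theorem even_odd {R : Type*} [CommRing R] (P : R[X]) :
    ∃ A B : R[X], P = A.comp (X ^ 2) + X * B.comp (X ^ 2) := by
  induction P using Polynomial.induction_on' with
  | add p q hp hq =>
    obtain ⟨A, B, h⟩ := hp
    obtain ⟨A', B', h'⟩ := hq
    refine ⟨A + A', B + B', ?_⟩
    rw [h, h', add_comp, add_comp]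
    ring
  | monomial n a =>
    rcases Nat.even_or_odd' n with ⟨k, rfl | rfl⟩
    · refine ⟨C a * X ^ k, 0, ?_⟩
      simp only [mul_comp, C_comp, pow_comp, X_comp, zero_comp, mul_zero, add_zero]
      rw [← pow_mul, C_mul_X_pow_eq_monomial]
    · refine ⟨0, C a * X ^ k, ?_⟩
      simp only [mul_comp, C_comp, pow_comp, X_comp, zero_comp, zero_add]
      rw [← C_mul_X_pow_eq_monomial]
      ring

/-- **The norm polynomial with a variable.** -/
theorem normG (m : ℕ) : ∀ {R : Type u} [CommRing R] (Q c : Fin m → R), ∃ G : R[X],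
    ∀ {S : Type u} [CommRing S] (φ : R →+* S) (β : Fin m → S), (∀ i, β i ^ 2 = φ (Q i)) →
      G.map φ = ∏ ε : Fin m → Bool, (X + C (∑ i, sg S (ε i) * (φ (c i) * β i))) := by
  induction m with
  | zero =>
    intro R _ Q c
    refine ⟨X, ?_⟩
    intro S _ φ β _
    simp
  | succ m ih =>
    intro R _ Q c
    obtain ⟨G, hG⟩ := ih (fun i => Q i.succ) (fun i => c i.succ)
    obtain ⟨A, B, hAB⟩ := even_odd (G.eval₂ ((C : R[X] →+* R[X][X]).comp (C : R →+* R[X])) (C X + X))
    set q : R := c 0 ^ 2 * Q 0 with hq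
    refine ⟨(A.eval (C q)) ^ 2 - C q * (B.eval (C q)) ^ 2, ?_⟩
    intro S _ φ β hβ
    have key : ∀ b : S, b ^ 2 = φ q → (G.map φ).comp (X + C b) =
        (A.eval (C q)).map φ + C b * (B.eval (C q)).map φ := by
      intro b hb
      have h1 := congrArg (Polynomial.eval₂RingHom (Polynomial.mapRingHom φ) (C b)) hAB
      have e1 : (Polynomial.eval₂RingHom (Polynomial.mapRingHom φ) (C b))
          (G.eval₂ ((C : R[X] →+* R[X][X]).comp (C : R →+* R[X])) (C X + X)) =
          (G.map φ).comp (X + C b) := by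
        rw [Polynomial.hom_eval₂, Polynomial.comp, Polynomial.eval₂_map]
        congr 1
        · ext r
          simp
        · simp
      have e2 : ∀ D : R[X][X], (Polynomial.eval₂RingHom (Polynomial.mapRingHom φ) (C b))
          (D.comp (X ^ 2)) = (D.eval (C q)).map φ := by
        intro D
        have e3 : (D.eval (C q)).map φ = (Polynomial.mapRingHom φ) (D.eval (C q)) := rfl
        rw [e3, ← Polynomial.eval₂_id, Polynomial.hom_eval₂, Polynomial.comp, Polynomial.hom_eval₂]
        congr 1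
        · ext r <;> simp
        · simp [← map_pow, hb]
      rw [e1, map_add, map_mul, e2, e2] at h1
      rw [h1]
      simp
    set b : S := φ (c 0) * β 0 with hb
    have hb2 : b ^ 2 = φ q := by
      rw [hb, mul_pow, hβ 0, hq, map_mul, map_pow]
    have h1 := key b hb2
    have h2 := key (-b) (by rw [neg_sq]; exact hb2)
    have h3 : ∀ d : S, (G.map φ).comp (X + C d) =
        ∏ ε : Fin m → Bool, (X + C (d + ∑ i, sg S (ε i) * (φ (c i.succ) * β i.succ))) := by
      intro d
      rw [hG φ (fun i => β i.succ) (fun i => hβ i.succ), Polynomial.prod_comp]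
      refine Finset.prod_congr rfl fun ε _ => ?_
      rw [add_comp, X_comp, C_comp, C_add, add_assoc]
    have h4 : ∏ ε : Fin (m + 1) → Bool, (X + C (∑ i, sg S (ε i) * (φ (c i) * β i))) =
        (G.map φ).comp (X + C b) * (G.map φ).comp (X + C (-b)) := by
      rw [h3, h3, ← (Fin.consEquiv fun _ => Bool).prod_comp, Fintype.prod_prod_type]
      rw [Fintype.prod_bool]
      congr 1
      · refine Finset.prod_congr rfl fun ε _ => ?_
        rw [Fin.sum_univ_succ]
        simp [Fin.consEquiv, sg, hb]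
      · refine Finset.prod_congr rfl fun ε _ => ?_
        rw [Fin.sum_univ_succ]
        simp [Fin.consEquiv, sg, hb]
    rw [h4, h1, h2]
    have h5 : (C (φ q) : S[X]) = C b ^ 2 := by rw [← C_pow, hb2]
    simp only [Polynomial.map_sub, Polynomial.map_mul, Polynomial.map_pow, Polynomial.map_C, C_neg]
    rw [h5]
    ring

/-- the norm -/
theorem normN {m : ℕ} {R : Type u} [CommRing R] (Q c : Fin m → R) : ∃ Ψ : R,
    ∀ {S : Type u} [CommRing S] (φ : R →+* S) (β : Fin m → S), (∀ i, β i ^ 2 = φ (Q i)) →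
      φ Ψ = ∏ ε : Fin m → Bool, ∑ i, sg S (ε i) * (φ (c i) * β i) := by
  obtain ⟨G, hG⟩ := normG m Q c
  refine ⟨G.eval 0, ?_⟩
  intro S _ φ β hβ
  have h := congrArg (Polynomial.eval 0) (hG φ β hβ)
  rw [Polynomial.eval_prod] at h
  simp only [eval_add, eval_X, eval_C, zero_add] at h
  rw [← h, Polynomial.eval_map, ← Polynomial.coeff_zero_eq_eval_zero, Polynomial.eval₂_at_zero]

end Pool.Agent.HS.Ct
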