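import Pool.Agent.Lib.HS.Ct.Lin
import Pool.Agent.Lib.HS.Ct.Norm

/-!
# PROJECT H* (MP_a54f13_nt), HS/Ct, module 3: the norm form

`normP`: irreducible pairwise non-associated quadratic forms `Q_i` over `ℚ`, `c_i ∈ ℚ` not all zero: there is a nonzero
form `Ψ` of degree `2 ^ m` which vanishes at all points `n` with `Q_i(n) = μ_i ^ 2`, `∑ c_i μ_i = 0`.
-/

set_option autoImplicit false

namespace Pool.Agent.HS.Ct

open MvPolynomial

theorem wt1 {σ : Type*} (d : σ →₀ ℕ) : Finsupp.weight (1 : σ → ℕ) d = d.degree := by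
  rw [Finsupp.weight_apply, Finsupp.degree_apply, Finsupp.sum]
  simp

theorem coeff_dil {σ : Type*} (t : ℚ) (p : MvPolynomial σ ℚ) (d : σ →₀ ℕ) :
    coeff d (aeval (fun i => (C t * X i : MvPolynomial σ ℚ)) p) = t ^ d.degree * coeff d p := by
  classical
  induction p using MvPolynomial.induction_on' with
  | monomial u a =>
    have h : aeval (fun i => (C t * X i : MvPolynomial σ ℚ)) (monomial u a) =
        monomial u (t ^ u.degree * a) := by
      rw [aeval_monomial, Finsupp.prod, Finsupp.degree_apply]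
      simp only [mul_pow, Finset.prod_mul_distrib]
      rw [Finset.prod_pow_eq_pow_sum, ← C_pow, algebraMap_eq, ← mul_assoc, ← C_mul,
        ← Finsupp.prod.eq_1 u fun i n => (X i : MvPolynomial σ ℚ) ^ n, ← monomial_eq, mul_comm]
    rw [h, coeff_monomial, coeff_monomial]
    split_ifs with h1
    · rw [h1]
    · simp
  | add p q hp hq => rw [map_add, coeff_add, coeff_add, hp, hq]; ring

theorem hom_of_dil {σ : Type*} {p : MvPolynomial σ ℚ} {e : ℕ}
    (h : aeval (fun i => (C 2 * X i : MvPolynomial σ ℚ)) p = C (2 ^ e) * p) : p.IsHomogeneous e := by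
  intro d hd
  have h1 := congrArg (coeff d) h
  rw [coeff_dil, coeff_C_mul] at h1
  have h2 : (2 : ℚ) ^ d.degree = 2 ^ e := mul_right_cancel₀ hd h1
  have h3 : d.degree = e := by
    have h4 : ((2 ^ d.degree : ℕ) : ℚ) = ((2 ^ e : ℕ) : ℚ) := by push_cast; exact h2
    exact Nat.pow_right_injective (le_refl 2) (by exact_mod_cast h4)
  rw [← h3]
  exact wt1 d

theorem not_sq {R : Type*} [CommRing R] [IsDomain R] [UniqueFactorizationMonoid R] {K : Type*} [Field K]
    [Algebra R K] [IsFractionRing R K] {Q Q' : R} (hQ : Irreducible Q) (hQ' : Irreducible Q')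
    (h : ¬ Associated Q Q') : ¬ IsSquare (algebraMap R K Q * algebraMap R K Q') := by
  rintro ⟨f, hf⟩
  have h1 : f ^ 2 = algebraMap R K (Q * Q') := by rw [map_mul, hf, sq]
  obtain ⟨g, hg⟩ := IsIntegrallyClosed.exists_algebraMap_eq_of_isIntegral_pow (R := R) (K := K)
    (x := f) two_pos (by rw [h1]; exact isIntegral_algebraMap)
  have h2 : g * g = Q * Q' := by
    apply IsFractionRing.injective R K
    rw [← h1, map_mul, hg, sq]
  have hp : Prime Q := hQ.prime
  have h3 : Q ∣ g := by
    have h4 : Q ∣ g * g := h2 ▸ dvd_mul_right Q Q'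
    rcases hp.dvd_or_dvd h4 with h | h <;> exact h
  obtain ⟨k, rfl⟩ := h3
  have h5 : Q * (Q * (k * k)) = Q * Q' := by rw [← h2]; ring
  have h6 : Q * (k * k) = Q' := mul_left_cancel₀ hQ.ne_zero h5
  exact h (hQ.associated_of_dvd hQ' ⟨k * k, h6.symm⟩)

/-- **The norm form.** -/
theorem normP {ν m : ℕ} (Q : Fin m → MvPolynomial (Fin ν) ℚ) (hQ : ∀ i, (Q i).IsHomogeneous 2)
    (hirr : ∀ i, Irreducible (Q i)) (hna : ∀ i j, i ≠ j → ¬ Associated (Q i) (Q j)) (c : Fin m → ℚ)
    (hc : ∃ i, c i ≠ 0) : ∃ Ψ : MvPolynomial (Fin ν) ℚ, Ψ.IsHomogeneous (2 ^ m) ∧ Ψ ≠ 0 ∧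
      ∀ (n : Fin ν → ℚ) (μ : Fin m → ℚ), (∀ i, eval n (Q i) = μ i ^ 2) → ∑ i, c i * μ i = 0 →
        eval n Ψ = 0 := by
  classical
  obtain ⟨Ψ, hΨ⟩ := normN Q (fun i => (C (c i) : MvPolynomial (Fin ν) ℚ))
  let R := MvPolynomial (Fin ν) ℚ
  let K := FractionRing R
  let L := AlgebraicClosure K
  have hL : ∀ i, ∃ a : L, a ^ 2 = algebraMap K L (algebraMap R K (Q i)) := fun i =>
    IsAlgClosed.exists_pow_nat_eq _ two_pos
  choose α hα using hL
  let φ : R →+* L := (algebraMap K L).comp (algebraMap R K)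
  have hφ : Function.Injective φ := (algebraMap K L).injective.comp (IsFractionRing.injective R K)
  have e1 := hΨ φ α hα
  have h0 : φ Ψ ≠ 0 := by
    intro h
    rw [e1, Finset.prod_eq_zero_iff] at h
    obtain ⟨ε, -, hε⟩ := h
    obtain ⟨i0, hi0⟩ := hc
    have hch : (2 : K) ≠ 0 := two_ne_zero
    have h2 := sqrt_indep (K := K) (L := L) hch α (fun i => algebraMap R K (Q i)) Finset.univ
      (fun i _ => hα i) (fun i _ => by
        rw [Ne, IsFractionRing.to_map_eq_zero_iff]; exact (hirr i).ne_zero)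
      (fun i _ j _ hij => not_sq (hirr i) (hirr j) (hna i j hij))
      (fun i => sg K (ε i) * algebraMap R K (C (c i))) (by
        rw [← hε]
        refine Finset.sum_congr rfl fun i _ => ?_
        rw [map_mul, mul_assoc]
        congr 1
        cases ε i <;> simp [sg]) i0 (Finset.mem_univ _)
    rcases mul_eq_zero.mp h2 with h3 | h3
    · have := sg_sq K (ε i0)
      rw [h3, mul_zero] at this
      exact zero_ne_one this
    · rw [IsFractionRing.to_map_eq_zero_iff] at h3
      exact hi0 (by simpa using h3)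
  refine ⟨Ψ, ?_, ?_, ?_⟩
  · apply hom_of_dil
    apply hφ
    let δ : R →+* R := (aeval (fun i => (C 2 * X i : R)) : R →ₐ[ℚ] R).toRingHom
    have hδ : ∀ i, δ (Q i) = C 4 * Q i := by
      intro i
      ext d
      show coeff d (aeval (fun i => (C 2 * X i : R)) (Q i)) = _
      rw [coeff_dil, coeff_C_mul]
      by_cases hd : coeff d (Q i) = 0
      · rw [hd, mul_zero, mul_zero]
      · have h3 := hQ i hd
        have h4 : d.degree = 2 := by rw [← wt1]; exact h3
        rw [h4]; norm_num
    have e2 := hΨ (φ.comp δ) (fun i => 2 * α i) (fun i => by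
      rw [RingHom.comp_apply, hδ, map_mul, mul_pow, hα]
      have : φ (C 4) = 2 ^ 2 := by
        rw [show (C 4 : R) = 4 by simp [map_ofNat]]
        rw [map_ofNat]; norm_num
      rw [this]
      rfl)
    have e3 : φ (δ Ψ) = 2 ^ (2 ^ m) * φ Ψ := by
      rw [← RingHom.comp_apply, e2, e1]
      have e4 : ∀ ε : Fin m → Bool, ∑ i, sg L (ε i) * ((φ.comp δ) (C (c i)) * (2 * α i)) =
          2 * ∑ i, sg L (ε i) * (φ (C (c i)) * α i) := by
        intro ε
        rw [Finset.mul_sum]
        refine Finset.sum_congr rfl fun i _ => ?_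
        have e5 : (φ.comp δ) (C (c i)) = φ (C (c i)) := by
          rw [RingHom.comp_apply]
          congr 1
          show aeval (fun i => (C 2 * X i : R)) (C (c i)) = _
          rw [aeval_C, algebraMap_eq]
        rw [e5]; ring
      simp only [e4]
      rw [Finset.prod_mul_distrib]
      simp
    show φ (δ Ψ) = _
    rw [e3, map_mul]
    congr 1
    rw [C_pow, map_pow]
    congr 1
    rw [show (C 2 : R) = 2 by simp [map_ofNat]]
    rw [map_ofNat]
  · intro h
    exact h0 (by rw [h, map_zero])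
  · intro n μ hμ hs
    have e2 := hΨ (eval n) μ (fun i => (hμ i).symm)
    rw [e2, Finset.prod_eq_zero_iff]
    refine ⟨fun _ => true, Finset.mem_univ _, ?_⟩
    simpa [sg] using hs

end Pool.Agent.HS.Ct
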