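import Pool.Agent.Lib.HS.Ct.Pat

/-!
# PROJECT H* (MP_a54f13_nt), HS/Ct, module 5: the patch lemma

`patch`: `Dn ν s` quadratic forms in `ν` variables whose coefficients are close to each other (relative distance `η`,
`η ^ (s + 1) ≤ 1 / (C N ^ 4 K ^ 2)`) and whose values at the points `n` are the squares `m_i(n) ^ 2 ≥ K ^ 2 / N`:
there are integers `c_i`, not all `0`, with `∑ c_i m_i(n) = 0` for all `n`.
-/

set_option autoImplicit false

namespace Pool.Agent.HS.Ct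

open Finset

/-- the value of the quadratic form with the coefficients `a i j` -/
def qz {ν : ℕ} (a : Fin ν → Fin ν → ℤ) (n : Fin ν → ℤ) : ℤ := ∑ i, ∑ j, a i j * (n i * n j)

/-- the index set of the Taylor monomials -/
abbrev Jx (ν s : ℕ) : Type := Σ t : Fin (s + 1), (Fin (t : ℕ) → (Fin ν × Fin ν))

/-- the number of forms in a patch -/
def Dn (ν s : ℕ) : ℕ := 2 * Fintype.card (Jx ν s) + 1

theorem card_Jx_pos (ν s : ℕ) : 0 < Fintype.card (Jx ν s) :=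
  Fintype.card_pos_iff.mpr ⟨⟨0, fun k => k.elim0⟩⟩

theorem tay_sum {ν s : ℕ} (b : ℕ → ℝ) (u v : Fin ν × Fin ν → ℝ) :
    ∑ t ∈ range (s + 1), b t * (∑ α, u α * v α) ^ t =
      ∑ j : Jx ν s, b j.1 * ((∏ k, u (j.2 k)) * (∏ k, v (j.2 k))) := by
  rw [Fintype.sum_sigma, ← Fin.sum_univ_eq_sum_range (fun t => b t * (∑ α, u α * v α) ^ t)]
  refine sum_congr rfl fun t _ => ?_
  rw [Fintype.sum_pow, mul_sum]
  refine sum_congr rfl fun f _ => ?_
  rw [prod_mul_distrib]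

theorem abs_prod_le {t : ℕ} (f : Fin t → ℝ) (h : ∀ k, |f k| ≤ 1) : |∏ k, f k| ≤ 1 := by
  rw [abs_prod]
  exact prod_le_one (fun _ _ => abs_nonneg _) fun k _ => h k

theorem abs_qz_le {ν : ℕ} {a : Fin ν → Fin ν → ℤ} {A N : ℝ} (hA : ∀ i j, |(a i j : ℝ)| ≤ A) {n : Fin ν → ℤ}
    (hn : ∀ i, |(n i : ℝ)| ≤ N) : |(qz a n : ℝ)| ≤ (ν : ℝ) ^ 2 * A * N ^ 2 := by
  unfold qz
  push_cast
  refine (abs_sum_le_sum_abs _ _).trans ?_
  calc ∑ i, |∑ j, (a i j : ℝ) * (n i * n j)| ≤ ∑ _i : Fin ν, ∑ _j : Fin ν, A * N ^ 2 := by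
        refine sum_le_sum fun i _ => (abs_sum_le_sum_abs _ _).trans (sum_le_sum fun j _ => ?_)
        rw [abs_mul, abs_mul, sq]
        have h0 : 0 ≤ A := (abs_nonneg _).trans (hA i j)
        have h1 : 0 ≤ N := (abs_nonneg _).trans (hn i)
        exact mul_le_mul (hA i j) (mul_le_mul (hn i) (hn j) (abs_nonneg _) h1) (by positivity) h0
    _ = (ν : ℝ) ^ 2 * A * N ^ 2 := by
        simp only [sum_const, card_univ, Fintype.card_fin, nsmul_eq_mul]
        ring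

/-- **THE PATCH LEMMA.** -/
theorem patch (ν s : ℕ) : ∃ (C d0 : ℝ), 1 ≤ C ∧ 0 < d0 ∧ d0 ≤ 1 ∧ ∀ (K N H η : ℝ), 1 ≤ K → 1 ≤ N → 0 < H →
    (((ν : ℝ) + 1) ^ 2 * N ^ 3 * H ≤ η * K ^ 2) → η ≤ d0 → C * N ^ 4 * K ^ 2 * η ^ (s + 1) ≤ 1 →
    ∀ (N0 : Finset (Fin ν → ℤ)), (∀ n ∈ N0, ∀ i, |(n i : ℝ)| ≤ N) →
    ∀ (a : Fin (Dn ν s) → Fin ν → Fin ν → ℤ) (i0 : Fin (Dn ν s)),
    (∀ i j, |(a i0 i j : ℝ)| ≤ K ^ 2 * N) → (∀ i p q, |(a i p q : ℝ) - a i0 p q| ≤ H) →
    ∀ m : Fin (Dn ν s) → (Fin ν → ℤ) → ℤ, (∀ i, ∀ n ∈ N0, 0 ≤ m i n ∧ m i n ^ 2 = qz (a i) n) →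
    (∀ n ∈ N0, K ^ 2 / N ≤ (qz (a i0) n : ℝ)) →
    ∃ c : Fin (Dn ν s) → ℤ, (∃ i, c i ≠ 0) ∧ ∀ n ∈ N0, ∑ i, c i * m i n = 0 := by
  classical
  obtain ⟨b, B, d0, hB, hd0, hd1, hbB, htay⟩ := sqrtTaylor s
  set D : ℕ := Dn ν s with hD
  set V : ℝ := (ν : ℝ) + 1 with hV
  set j0 : ℝ := (Fintype.card (Jx ν s) : ℝ) with hj0
  have hj1 : 1 ≤ j0 := by rw [hj0]; exact_mod_cast card_Jx_pos ν s
  have hD1 : (1 : ℝ) ≤ D := by
    have : 1 ≤ D := by rw [hD, Dn]; omega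
    exact_mod_cast this
  have hV1 : 1 ≤ V := by rw [hV]; linarith [(Nat.cast_nonneg ν : (0 : ℝ) ≤ ν)]
  refine ⟨72 * V ^ 2 * j0 * B ^ 2 * D ^ 2, d0, ?_, hd0, by linarith, ?_⟩
  · have h1 : 1 ≤ V ^ 2 := one_le_pow₀ hV1
    have h2 : 1 ≤ B ^ 2 := one_le_pow₀ hB
    have h3 : (1 : ℝ) ≤ (D : ℝ) ^ 2 := one_le_pow₀ hD1
    have h4 : 1 ≤ V ^ 2 * j0 * B ^ 2 * D ^ 2 :=
      one_le_mul_of_one_le_of_one_le (one_le_mul_of_one_le_of_one_le
        (one_le_mul_of_one_le_of_one_le h1 hj1) h2) h3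
    linarith
  intro K N H η hK hN hH hη hηd hηs N0 hN0 a i0 hA hdiff m hm hlow
  have hK0 : 0 < K := by linarith
  have hN00 : 0 < N := by linarith
  have hη0 : 0 < η := by
    have h1 : 0 < V ^ 2 * N ^ 3 * H := by positivity
    have h2 : 0 < η * K ^ 2 := lt_of_lt_of_le h1 hη
    exact pos_of_mul_pos_left h2 (by positivity)
  set U : ℝ := V * N ^ 2 * K with hU
  have hU1 : 1 ≤ U := one_le_mul_of_one_le_of_one_le
    (one_le_mul_of_one_le_of_one_le hV1 (one_le_pow₀ hN)) hK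
  set X : ℝ := 16 * U * j0 * B * D with hX
  have hX2 : 2 ≤ X := by
    have h4 : 1 ≤ U * j0 * B * D :=
      one_le_mul_of_one_le_of_one_le (one_le_mul_of_one_le_of_one_le
        (one_le_mul_of_one_le_of_one_le hU1 hj1) hB) hD1
    rw [hX]; linarith
  set T : ℕ := ⌈X⌉₊ with hT
  have hTX : X ≤ T := Nat.le_ceil X
  have hT1 : 1 ≤ T := by
    have : (1 : ℝ) ≤ T := by linarith
    exact_mod_cast this
  have hTX2 : (T : ℝ) ≤ 18 * U * j0 * B * D := by
    have h1 : (T : ℝ) < X + 1 := Nat.ceil_lt_add_one (by linarith)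
    have h4 : 1 ≤ U * j0 * B * D :=
      one_le_mul_of_one_le_of_one_le (one_le_mul_of_one_le_of_one_le
        (one_le_mul_of_one_le_of_one_le hU1 hj1) hB) hD1
    rw [hX] at h1
    linarith
  have hT0 : (0 : ℝ) < T := by linarith
  -- normalised differences
  let u : Fin D → Fin ν × Fin ν → ℝ := fun i α => ((a i α.1 α.2 : ℝ) - a i0 α.1 α.2) / H
  have hu : ∀ i α, |u i α| ≤ 1 := by
    intro i α
    show |((a i α.1 α.2 : ℝ) - a i0 α.1 α.2) / H| ≤ 1
    rw [abs_div, abs_of_pos hH, div_le_one hH]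
    exact hdiff i α.1 α.2
  obtain ⟨c, hc0, hcT, hc⟩ := siegelR D hD T hT1 (fun (j : Jx ν s) i => ∏ k, u i (j.2 k))
    (fun j i => abs_prod_le _ fun k => hu i _)
  refine ⟨c, hc0, ?_⟩
  intro n hn
  have hnN := hN0 n hn
  set Q0 : ℝ := (qz (a i0) n : ℝ) with hQ0
  have hQl : K ^ 2 / N ≤ Q0 := hlow n hn
  have hQpos : 0 < Q0 := lt_of_lt_of_le (by positivity) hQl
  have hQu : Q0 ≤ U ^ 2 := by
    have h1 := abs_qz_le hA hnN
    have h2 : Q0 ≤ (ν : ℝ) ^ 2 * (K ^ 2 * N) * N ^ 2 := (le_abs_self _).trans h1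
    have h3 : (ν : ℝ) ^ 2 ≤ V ^ 2 := by
      apply pow_le_pow_left₀ (Nat.cast_nonneg _)
      rw [hV]; linarith
    have h4 : N ^ 3 ≤ N ^ 4 := pow_le_pow_right₀ hN (by norm_num)
    calc Q0 ≤ (ν : ℝ) ^ 2 * (K ^ 2 * N ^ 3) := by linarith [h2]
      _ ≤ V ^ 2 * (K ^ 2 * N ^ 4) := by
          apply mul_le_mul h3 _ (by positivity) (by positivity)
          exact mul_le_mul_of_nonneg_left h4 (by positivity)
      _ = U ^ 2 := by rw [hU]; ring
  have hsU : √Q0 ≤ U := by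
    apply Real.sqrt_le_iff.mpr
    exact ⟨by linarith, hQu⟩
  let v : Fin ν × Fin ν → ℝ := fun α => H * (n α.1 * n α.2) / Q0
  have hηQ : V ^ 2 * N ^ 2 * H ≤ η * Q0 := by
    have h1 : η * (K ^ 2 / N) ≤ η * Q0 := mul_le_mul_of_nonneg_left hQl hη0.le
    refine le_trans ?_ h1
    rw [← mul_div_assoc, le_div_iff₀ hN00]
    calc V ^ 2 * N ^ 2 * H * N = V ^ 2 * N ^ 3 * H := by ring
      _ ≤ _ := hη
  have hv1 : ∀ α, |v α| ≤ η / V ^ 2 := by
    intro α
    show |H * ((n α.1 : ℝ) * n α.2) / Q0| ≤ η / V ^ 2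
    rw [abs_div, abs_of_pos hQpos, div_le_div_iff₀ hQpos (by positivity), abs_mul, abs_of_pos hH, abs_mul]
    have h1 : |(n α.1 : ℝ)| * |(n α.2 : ℝ)| ≤ N ^ 2 := by
      rw [sq]
      exact mul_le_mul (hnN _) (hnN _) (abs_nonneg _) hN00.le
    calc H * (|(n α.1 : ℝ)| * |(n α.2 : ℝ)|) * V ^ 2 ≤ H * N ^ 2 * V ^ 2 := by
          apply mul_le_mul_of_nonneg_right _ (by positivity)
          exact mul_le_mul_of_nonneg_left h1 hH.le
      _ ≤ η * Q0 := by linarith [hηQ]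
  have hη1 : η ≤ 1 := by linarith
  have hv : ∀ α, |v α| ≤ 1 := by
    intro α
    refine (hv1 α).trans ?_
    rw [div_le_one (by positivity)]
    exact hη1.trans (one_le_pow₀ hV1)
  let δ : Fin D → ℝ := fun i => ∑ α, u i α * v α
  have hδ : ∀ i, (qz (a i) n : ℝ) = Q0 * (1 + δ i) := by
    intro i
    have h1 : Q0 * δ i = ∑ α : Fin ν × Fin ν, ((a i α.1 α.2 : ℝ) - a i0 α.1 α.2) * (n α.1 * n α.2) := by
      show Q0 * ∑ α, u i α * v α = _
      rw [mul_sum]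
      refine sum_congr rfl fun α _ => ?_
      show Q0 * ((((a i α.1 α.2 : ℝ) - a i0 α.1 α.2) / H) * (H * ((n α.1 : ℝ) * n α.2) / Q0)) = _
      field_simp
    rw [mul_add, mul_one, h1, Fintype.sum_prod_type, hQ0, qz, qz]
    push_cast
    rw [← sum_add_distrib]
    refine sum_congr rfl fun p _ => ?_
    rw [← sum_add_distrib]
    refine sum_congr rfl fun q _ => ?_
    ring
  have hδη : ∀ i, |δ i| ≤ η := by
    intro i
    refine (abs_sum_le_sum_abs _ _).trans ?_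
    calc ∑ α, |u i α * v α| ≤ ∑ _α : Fin ν × Fin ν, η / V ^ 2 := by
          refine sum_le_sum fun α _ => ?_
          rw [abs_mul]
          calc |u i α| * |v α| ≤ 1 * (η / V ^ 2) := mul_le_mul (hu i α) (hv1 α) (abs_nonneg _) zero_le_one
            _ = _ := one_mul _
      _ = (ν : ℝ) ^ 2 * (η / V ^ 2) := by
          simp only [sum_const, card_univ, Fintype.card_prod, Fintype.card_fin, nsmul_eq_mul]
          push_cast; ring
      _ ≤ V ^ 2 * (η / V ^ 2) := by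
          apply mul_le_mul_of_nonneg_right _ (by positivity)
          apply pow_le_pow_left₀ (Nat.cast_nonneg _)
          rw [hV]; linarith
      _ = η := by field_simp
  -- the values
  let R : Fin D → ℝ := fun i => √(1 + δ i) - ∑ t ∈ range (s + 1), b t * δ i ^ t
  have hR : ∀ i, |R i| ≤ B * η ^ (s + 1) := by
    intro i
    refine (htay (δ i) ((hδη i).trans hηd)).trans ?_
    apply mul_le_mul_of_nonneg_left _ (by linarith)
    exact pow_le_pow_left₀ (abs_nonneg _) (hδη i) _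
  have hmv : ∀ i, (m i n : ℝ) = √Q0 * (∑ j : Jx ν s, b j.1 * ((∏ k, u i (j.2 k)) * (∏ k, v (j.2 k))) + R i) := by
    intro i
    obtain ⟨h1, h2⟩ := hm i n hn
    have h3 : (m i n : ℝ) = √(qz (a i) n : ℝ) := by
      have h4 : ((m i n : ℝ)) ^ 2 = (qz (a i) n : ℝ) := by exact_mod_cast h2
      rw [← h4, Real.sqrt_sq (by exact_mod_cast h1)]
    rw [h3, hδ i, Real.sqrt_mul hQpos.le, ← tay_sum]
    congr 1
    show √(1 + δ i) = (∑ t ∈ range (s + 1), b t * δ i ^ t) + (√(1 + δ i) - ∑ t ∈ range (s + 1), b t * δ i ^ t)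
    ring
  have hsum : ((∑ i, c i * m i n : ℤ) : ℝ) = √Q0 * (∑ j : Jx ν s, b j.1 * (∏ k, v (j.2 k)) *
      (∑ i, (c i : ℝ) * ∏ k, u i (j.2 k)) + ∑ i, (c i : ℝ) * R i) := by
    push_cast
    calc ∑ i, (c i : ℝ) * (m i n : ℝ) = ∑ i, √Q0 * (∑ j : Jx ν s, b j.1 * (∏ k, v (j.2 k)) *
          ((c i : ℝ) * ∏ k, u i (j.2 k)) + (c i : ℝ) * R i) := by
          refine sum_congr rfl fun i _ => ?_
          rw [hmv i, mul_left_comm, mul_add, mul_sum]
          congr 2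
          refine sum_congr rfl fun j _ => ?_
          ring
      _ = _ := by
          rw [← mul_sum, sum_add_distrib, sum_comm]
          simp only [mul_sum]
  have hlt : |((∑ i, c i * m i n : ℤ) : ℝ)| < 1 := by
    rw [hsum, abs_mul, abs_of_nonneg (Real.sqrt_nonneg _)]
    have e1 : |∑ j : Jx ν s, b j.1 * (∏ k, v (j.2 k)) * (∑ i, (c i : ℝ) * ∏ k, u i (j.2 k))| ≤
        j0 * (B * (4 * D / T)) := by
      refine (abs_sum_le_sum_abs _ _).trans ?_
      calc ∑ j : Jx ν s, |b j.1 * (∏ k, v (j.2 k)) * (∑ i, (c i : ℝ) * ∏ k, u i (j.2 k))|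
          ≤ ∑ _j : Jx ν s, B * (4 * D / T) := by
            refine sum_le_sum fun j _ => ?_
            rw [abs_mul, abs_mul]
            have h1 : |b j.1| * |∏ k, v (j.2 k)| ≤ B := by
              calc |b j.1| * |∏ k, v (j.2 k)| ≤ B * 1 :=
                    mul_le_mul (hbB _ j.1.2) (abs_prod_le _ fun k => hv _) (abs_nonneg _) (by linarith)
                _ = B := mul_one _
            exact mul_le_mul h1 (hc j) (abs_nonneg _) (by linarith)
        _ = j0 * (B * (4 * D / T)) := by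
            rw [sum_const, card_univ, nsmul_eq_mul]
    have e2 : |∑ i, (c i : ℝ) * R i| ≤ D * (T * (B * η ^ (s + 1))) := by
      refine (abs_sum_le_sum_abs _ _).trans ?_
      calc ∑ i, |(c i : ℝ) * R i| ≤ ∑ _i : Fin D, (T : ℝ) * (B * η ^ (s + 1)) := by
            refine sum_le_sum fun i _ => ?_
            rw [abs_mul]
            have h1 : |(c i : ℝ)| ≤ T := by exact_mod_cast hcT i
            exact mul_le_mul h1 (hR i) (abs_nonneg _) hT0.le
        _ = _ := by simp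
    have e3 : U * (j0 * (B * (4 * D / T))) ≤ 1 / 4 := by
      have h1 : U * (j0 * (B * (4 * D / T))) = (X / T) / 4 := by
        rw [hX]; ring
      rw [h1]
      have h2 : X / T ≤ 1 := (div_le_one hT0).mpr hTX
      linarith
    have e4 : U * (D * (T * (B * η ^ (s + 1)))) ≤ 1 / 4 := by
      have h1 : U * (D * (T * (B * η ^ (s + 1)))) ≤ U * (D * ((18 * U * j0 * B * D) * (B * η ^ (s + 1)))) := by
        apply mul_le_mul_of_nonneg_left _ (by linarith)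
        apply mul_le_mul_of_nonneg_left _ (by linarith)
        exact mul_le_mul_of_nonneg_right hTX2 (by positivity)
      refine h1.trans ?_
      have h2 : U * (D * ((18 * U * j0 * B * D) * (B * η ^ (s + 1)))) =
          (72 * V ^ 2 * j0 * B ^ 2 * D ^ 2 * N ^ 4 * K ^ 2 * η ^ (s + 1)) / 4 := by
        rw [hU]; ring
      rw [h2]
      linarith
    calc √Q0 * |∑ j : Jx ν s, b j.1 * (∏ k, v (j.2 k)) * (∑ i, (c i : ℝ) * ∏ k, u i (j.2 k)) +
          ∑ i, (c i : ℝ) * R i| ≤ U * (j0 * (B * (4 * D / T)) + D * (T * (B * η ^ (s + 1)))) := by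
          apply mul_le_mul hsU _ (abs_nonneg _) (by linarith)
          exact (abs_add_le _ _).trans (add_le_add e1 e2)
      _ < 1 := by rw [mul_add]; linarith
  have h1 : |∑ i, c i * m i n| < 1 := by exact_mod_cast hlt
  exact Int.abs_lt_one_iff.mp h1

end Pool.Agent.HS.Ct
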