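import Pool.Agent.Lib.HS.Ct.SpecB
import Pool.Agent.Lib.HS.Ct.NormP
import Pool.Agent.Lib.HS.Ct.Patch
import Pool.Agent.Lib.HS.Ct.Flo

/-!
# PROJECT H* (MP_a54f13_nt), HS/Ct: the count

`tCount : CountStmt`: at most `C N ^ C K ^ (32 / s)` quaternary quadratic forms with square values at the points of a set in
general position.  `tNrm : NrmStmt`.
-/

set_option autoImplicit false

namespace Pool.Agent.HS.Ct

open MvPolynomial Finset

theorem qz_eq (a : Fin 4 → Fin 4 → ℤ) (n : Fin 4 → ℤ) : qz a n = qv a n := by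
  unfold qz qv
  refine sum_congr rfl fun i _ => sum_congr rfl fun j _ => ?_
  rw [mul_assoc]

theorem qa_hom (a : Fin 4 → Fin 4 → ℤ) : (qa a).IsHomogeneous 2 := by
  unfold qa
  refine IsHomogeneous.sum _ _ _ fun i _ => IsHomogeneous.sum _ _ _ fun j _ => ?_
  have h := ((isHomogeneous_C (Fin 4) (a i j : ℚ)).mul (isHomogeneous_X ℚ i)).mul (isHomogeneous_X ℚ j)
  simpa using h

theorem eval_qa (a : Fin 4 → Fin 4 → ℤ) (n : Fin 4 → ℤ) :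
    eval (fun l => (n l : ℚ)) (qa a) = (qv a n : ℚ) := by
  unfold qa qv
  simp [map_sum]

/-- one cell -/
theorem cell (s : ℕ) : ∃ (C d0 : ℝ), 1 ≤ C ∧ 0 < d0 ∧ d0 ≤ 1 ∧ ∀ (K N H η : ℝ) (N0 : Finset (Fin 4 → ℤ)),
    1 ≤ K → 1 ≤ N → 0 < H → 25 * N ^ 3 * H ≤ η * K ^ 2 → η ≤ d0 → C * N ^ 4 * K ^ 2 * η ^ (s + 1) ≤ 1 →
    (∀ n ∈ N0, ∀ i, |(n i : ℝ)| ≤ N) →
    (∀ f : MvPolynomial (Fin 4) ℚ, f.IsHomogeneous (2 ^ Dn 4 s) → f ≠ 0 →
      ∃ n ∈ N0, eval (fun l => (n l : ℚ)) f ≠ 0) →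
    ∀ A : Finset (Fin 4 → Fin 4 → ℤ), (∀ a ∈ A, ∀ i j, |(a i j : ℝ)| ≤ K ^ 2 * N) →
      (∀ a ∈ A, ∀ n ∈ N0, IsSquare (qv a n) ∧ K ^ 2 / N ≤ (qv a n : ℝ)) →
      (∀ a ∈ A, Irreducible (qa a)) → (∀ a ∈ A, ∀ b ∈ A, a ≠ b → ¬ Associated (qa a) (qa b)) →
      (∀ a ∈ A, ∀ b ∈ A, ∀ i j, |(a i j : ℝ) - b i j| ≤ H) → A.card < Dn 4 s := by
  classical
  obtain ⟨C, d0, hC, hd0, hd1, hP⟩ := patch 4 s
  refine ⟨C, d0, hC, hd0, hd1, ?_⟩
  intro K N H η N0 hK hN hH hη hηd hηs hN0 hGP A hA hsq hirr hna hcl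
  by_contra hlt
  push Not at hlt
  obtain ⟨t, htA, htc⟩ := exists_subset_card_eq hlt
  let e : Fin (Dn 4 s) ≃ t := (finCongr htc.symm).trans t.equivFin.symm
  let a : Fin (Dn 4 s) → Fin 4 → Fin 4 → ℤ := fun i => (e i : Fin 4 → Fin 4 → ℤ)
  have ha : ∀ i, a i ∈ A := fun i => htA (e i).2
  have hinj : ∀ i j, i ≠ j → a i ≠ a j := fun i j hij h => hij (e.injective (Subtype.ext h))
  let m : Fin (Dn 4 s) → (Fin 4 → ℤ) → ℤ := fun i n => Int.sqrt (qv (a i) n)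
  have hm : ∀ i, ∀ n ∈ N0, 0 ≤ m i n ∧ m i n ^ 2 = qz (a i) n := by
    intro i n hn
    obtain ⟨⟨r, hr⟩, -⟩ := hsq (a i) (ha i) n hn
    refine ⟨Int.sqrt_nonneg _, ?_⟩
    show Int.sqrt (qv (a i) n) ^ 2 = _
    rw [qz_eq, hr, Int.sqrt_eq, Int.natCast_natAbs, sq_abs, sq]
  have hD : 0 < Dn 4 s := by unfold Dn; omega
  obtain ⟨c, ⟨i1, hi1⟩, hc⟩ := hP K N H η hK hN hH (by norm_num; linarith) hηd hηs N0 hN0 a ⟨0, hD⟩
    (hA _ (ha _)) (fun i p q => hcl _ (ha i) _ (ha _) p q) m hm (fun n hn => by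
      rw [qz_eq]; exact (hsq _ (ha _) n hn).2)
  obtain ⟨Ψ, hΨ1, hΨ2, hΨ3⟩ := normP (fun i => qa (a i)) (fun i => qa_hom _) (fun i => hirr _ (ha i))
    (fun i j hij => hna _ (ha i) _ (ha j) (hinj i j hij)) (fun i => (c i : ℚ)) ⟨i1, by exact_mod_cast hi1⟩
  obtain ⟨n, hn, hne⟩ := hGP Ψ hΨ1 hΨ2
  apply hne
  refine hΨ3 (fun l => (n l : ℚ)) (fun i => (m i n : ℚ)) (fun i => ?_) ?_
  · rw [eval_qa, ← qz_eq, ← (hm i n hn).2]
    push_cast; rfl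
  · have := hc n hn
    exact_mod_cast this

/-- **THE COUNT.** -/
theorem tCount : CountStmt := by
  classical
  intro s hs
  obtain ⟨s, rfl⟩ : ∃ k, s = k + 1 := ⟨s - 1, by omega⟩
  obtain ⟨C, d0, hC, hd0, hd1, hcell⟩ := cell s
  set D : ℝ := (Dn 4 s : ℝ) with hD
  set c0 : ℝ := d0 / C with hc0
  have hC0 : 0 < C := by linarith
  have hc0p : 0 < c0 := by positivity
  have hc0d : c0 ≤ d0 := div_le_self hd0.le hC
  have hc01 : c0 ≤ 1 := hc0d.trans hd1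
  have hCc : C * c0 ≤ 1 := by rw [hc0, mul_div_cancel₀ _ hC0.ne']; exact hd1
  set W : ℕ := max 128 ⌈(52 / c0) ^ 16 * D⌉₊ with hW
  refine ⟨2 ^ Dn 4 s, W, ?_⟩
  intro K N N0 hK hN hN0 hGP A hA hsq hirr hna
  have hK0 : 0 < K := by linarith
  have hN00 : 0 < N := by linarith
  set k : ℝ := K ^ ((2 : ℝ) / ((s : ℝ) + 1)) with hk
  have hs0 : (0 : ℝ) < (s : ℝ) + 1 := by positivity
  have hk1 : 1 ≤ k := Real.one_le_rpow hK (by positivity)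
  have hk0 : 0 < k := by linarith
  have hks : k ^ (s + 1) = K ^ 2 := by
    rw [hk, ← Real.rpow_natCast, ← Real.rpow_mul hK0.le]
    push_cast
    rw [div_mul_cancel₀ _ hs0.ne', Real.rpow_two]
  set η : ℝ := c0 / (N ^ 4 * k) with hη
  have hη0 : 0 < η := by positivity
  have hηc : η ≤ c0 := div_le_self hc0p.le (one_le_mul_of_one_le_of_one_le (one_le_pow₀ hN) hk1)
  have hηs : C * N ^ 4 * K ^ 2 * η ^ (s + 1) ≤ 1 := by
    have e1 : η ^ (s + 1) * K ^ 2 * N ^ 4 ≤ c0 := by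
      rw [hη, div_pow, mul_pow, hks, pow_succ c0]
      have h1 : c0 ^ s * c0 / ((N ^ 4) ^ (s + 1) * K ^ 2) * K ^ 2 * N ^ 4 =
          c0 * (c0 ^ s * (N ^ 4 / (N ^ 4) ^ (s + 1))) := by field_simp
      rw [h1]
      have h2 : c0 ^ s ≤ 1 := pow_le_one₀ hc0p.le hc01
      have h3 : N ^ 4 / (N ^ 4) ^ (s + 1) ≤ 1 := by
        rw [div_le_one (by positivity)]
        exact le_self_pow₀ (one_le_pow₀ hN) (by omega)
      calc c0 * (c0 ^ s * (N ^ 4 / (N ^ 4) ^ (s + 1))) ≤ c0 * (1 * 1) := by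
            apply mul_le_mul_of_nonneg_left _ hc0p.le
            exact mul_le_mul h2 h3 (by positivity) zero_le_one
        _ = c0 := by ring
    calc C * N ^ 4 * K ^ 2 * η ^ (s + 1) = C * (η ^ (s + 1) * K ^ 2 * N ^ 4) := by ring
      _ ≤ C * c0 := mul_le_mul_of_nonneg_left e1 hC0.le
      _ ≤ 1 := hCc
  set H : ℝ := η * K ^ 2 / (25 * N ^ 3) with hH
  have hH0 : 0 < H := by positivity
  have hHη : 25 * N ^ 3 * H ≤ η * K ^ 2 := by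
    rw [hH]; field_simp; exact le_refl _
  let f : (Fin 4 → Fin 4 → ℤ) → Fin (4 * 4) → ℝ := fun a k =>
    (a (finProdFinEquiv.symm k).1 (finProdFinEquiv.symm k).2 : ℝ)
  have hflo := tFlo (4 * 4) (Fin 4 → Fin 4 → ℤ) A f (K ^ 2 * N) H D (by positivity) hH0 (Nat.cast_nonneg _)
    (fun a ha j => hA a ha _ _) (fun t ht htc => by
      have h1 : t.card < Dn 4 s := by
        refine hcell K N H η N0 hK hN hH0 hHη (hηc.trans hc0d) hηs hN0 hGP t (fun a ha => hA a (ht ha))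
          (fun a ha => hsq a (ht ha)) (fun a ha => hirr a (ht ha))
          (fun a ha b hb => hna a (ht ha) b (ht hb)) (fun a ha b hb i j => ?_)
        have h := htc a ha b hb (finProdFinEquiv (i, j))
        simpa [f] using h
      rw [hD]
      exact_mod_cast h1.le)
  refine hflo.trans ?_
  have e1 : 2 * (K ^ 2 * N) / H + 2 ≤ 52 / c0 * N ^ 8 * k := by
    have h1 : 2 * (K ^ 2 * N) / H = 50 / c0 * (N ^ 8 * k) := by
      rw [hH, hη]; field_simp; ring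
    have h2 : 1 ≤ N ^ 8 * k := one_le_mul_of_one_le_of_one_le (one_le_pow₀ hN) hk1
    have h3 : (2 : ℝ) ≤ 2 / c0 * (N ^ 8 * k) := by
      have h4 : 2 ≤ 2 / c0 := by rw [le_div_iff₀ hc0p]; linarith
      calc (2 : ℝ) = 2 * 1 := by ring
        _ ≤ 2 / c0 * (N ^ 8 * k) := mul_le_mul h4 h2 zero_le_one (by positivity)
    rw [h1]
    calc 50 / c0 * (N ^ 8 * k) + 2 ≤ 50 / c0 * (N ^ 8 * k) + 2 / c0 * (N ^ 8 * k) := by linarith
      _ = 52 / c0 * N ^ 8 * k := by ring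
  have e2 : (2 * (K ^ 2 * N) / H + 2) ^ (4 * 4) ≤ (52 / c0 * N ^ 8 * k) ^ (4 * 4) :=
    pow_le_pow_left₀ (by positivity) e1 _
  have e3 : (52 / c0 * N ^ 8 * k) ^ (4 * 4) = (52 / c0) ^ 16 * N ^ 128 * K ^ ((32 : ℝ) / ((s + 1 : ℕ) : ℝ)) := by
    rw [mul_pow, mul_pow, ← pow_mul]
    congr 1
    rw [hk, ← Real.rpow_natCast, ← Real.rpow_mul hK0.le]
    congr 1
    push_cast
    ring
  have hKr : 0 < K ^ ((32 : ℝ) / ((s + 1 : ℕ) : ℝ)) := Real.rpow_pos_of_pos hK0 _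
  have hD0 : 0 ≤ D := Nat.cast_nonneg _
  have e4 : (52 / c0) ^ 16 * D ≤ W := (Nat.le_ceil _).trans (by exact_mod_cast le_max_right _ _)
  have e5 : N ^ 128 ≤ N ^ W := pow_le_pow_right₀ hN (le_max_left _ _)
  calc (2 * (K ^ 2 * N) / H + 2) ^ (4 * 4) * D
      ≤ ((52 / c0) ^ 16 * N ^ 128 * K ^ ((32 : ℝ) / ((s + 1 : ℕ) : ℝ))) * D := by
        rw [← e3]
        exact mul_le_mul_of_nonneg_right e2 hD0
    _ = ((52 / c0) ^ 16 * D) * N ^ 128 * K ^ ((32 : ℝ) / ((s + 1 : ℕ) : ℝ)) := by ring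
    _ ≤ W * N ^ W * K ^ ((32 : ℝ) / ((s + 1 : ℕ) : ℝ)) := by
        apply mul_le_mul_of_nonneg_right _ hKr.le
        exact mul_le_mul e4 e5 (by positivity) (Nat.cast_nonneg _)

/-- **NrmStmt.** -/
theorem tNrm : NrmStmt := by
  classical
  intro ι E Q ε hE hQ hirr hna hε
  let e : Fin E.card ≃ E := E.equivFin.symm
  obtain ⟨i0, hi0⟩ := hE
  obtain ⟨Ψ, h1, h2, h3⟩ := normP (fun i : Fin E.card => Q (e i)) (fun i => hQ _ (e i).2)
    (fun i => hirr _ (e i).2)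
    (fun i j hij => hna _ (e i).2 _ (e j).2 fun h => hij (e.injective (Subtype.ext h)))
    (fun i => ε (e i)) ⟨e.symm ⟨i0, hi0⟩, by
      rcases hε _ (e (e.symm ⟨i0, hi0⟩)).2 with h | h <;> rw [h] <;> norm_num⟩
  refine ⟨Ψ, h2, h1, ?_⟩
  intro x m hm hs
  refine h3 x (fun i => m (e i)) (fun i => (hm _ (e i).2).symm) ?_
  rw [← hs, ← sum_coe_sort E, ← e.sum_comp]

end Pool.Agent.HS.Ct
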