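import Pool.Agent.Lib.HS.Ct.Spec

/-!
# PROJECT H*, part Ct, module Dis (helper14): equal sums of square roots, equal sets
-/

set_option autoImplicit false

namespace Pool.Agent.HS.Ct

open MvPolynomial

theorem tDis : DisStmt := by
  classical
  intro hN h T hT ι B Q m hom irr nas sq S hS S' hS' cS cS' hsum
  by_contra hne
  set E : Finset ι := (S \ S') ∪ (S' \ S) with hE
  have hd : Disjoint (S \ S') (S' \ S) := by
    rw [Finset.disjoint_left]
    intro i h1 h2
    exact (Finset.mem_sdiff.1 h1).2 (Finset.mem_sdiff.1 h2).1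
  have hEB : ∀ i ∈ E, i ∈ B := by
    intro i hi
    rcases Finset.mem_union.1 hi with h1 | h1
    · exact hS (Finset.mem_sdiff.1 h1).1
    · exact hS' (Finset.mem_sdiff.1 h1).1
  have hEne : E.Nonempty := by
    by_contra h1
    rw [Finset.not_nonempty_iff_eq_empty, hE, Finset.union_eq_empty, Finset.sdiff_eq_empty_iff_subset,
      Finset.sdiff_eq_empty_iff_subset] at h1
    exact hne (Finset.Subset.antisymm h1.1 h1.2)
  have hEc : E.card ≤ 2 * h := by
    refine (Finset.card_union_le _ _).trans ?_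
    have h1 := Finset.card_le_card (Finset.sdiff_subset (s := S) (t := S'))
    have h2 := Finset.card_le_card (Finset.sdiff_subset (s := S') (t := S))
    omega
  let ε : ι → ℚ := fun i => if i ∈ S then 1 else -1
  obtain ⟨Ψ, h1, h2, h3⟩ := hN ι E Q ε hEne (fun i hi => hom i (hEB i hi))
    (fun i hi => irr i (hEB i hi)) (fun i hi j hj hij => nas i (hEB i hi) j (hEB j hj) hij)
    (fun i _ => by
      by_cases hi : i ∈ S
      · exact Or.inl (if_pos hi)
      · exact Or.inr (if_neg hi))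
  have hdeg : 2 ^ E.card ≤ 4 ^ h := by
    have h4 : (4 : ℕ) ^ h = 2 ^ (2 * h) := by rw [pow_mul]; norm_num
    rw [h4]
    exact Nat.pow_le_pow_right (by norm_num) hEc
  obtain ⟨n, hn, h4⟩ := hT _ hdeg Ψ h2 h1
  refine h4 (h3 _ (fun i => (m i n : ℚ)) (fun i hi => (sq i (hEB i hi) n hn).symm) ?_)
  have e1 : ∑ i ∈ S \ S', ε i * (m i n : ℚ) = ∑ i ∈ S \ S', (m i n : ℚ) := by
    refine Finset.sum_congr rfl fun i hi => ?_
    have h5 : ε i = 1 := if_pos (Finset.mem_sdiff.1 hi).1
    rw [h5, one_mul]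
  have e2 : ∑ i ∈ S' \ S, ε i * (m i n : ℚ) = -∑ i ∈ S' \ S, (m i n : ℚ) := by
    rw [← Finset.sum_neg_distrib]
    refine Finset.sum_congr rfl fun i hi => ?_
    have h5 : ε i = -1 := if_neg (Finset.mem_sdiff.1 hi).2
    rw [h5, neg_one_mul]
  have e3 := Finset.sum_inter_add_sum_sdiff S S' fun i => (m i n : ℚ)
  have e4 := Finset.sum_inter_add_sum_sdiff S' S fun i => (m i n : ℚ)
  have e5 : ∑ i ∈ S, (m i n : ℚ) = ∑ i ∈ S', (m i n : ℚ) := by
    have h5 := hsum n hn
    exact_mod_cast h5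
  rw [Finset.inter_comm S' S] at e4
  rw [hE, Finset.sum_union hd, e1, e2]
  linarith

end Pool.Agent.HS.Ct
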