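import Pool.Agent.Lib.HS.Ct.Spec

/-!
# PROJECT H* (MP_a54f13_nt), part Ct: gauge control, the eighth coordinate (`GcStmt`)
-/

set_option autoImplicit false

namespace Pool.Agent.HS.Ct

namespace Gc_aux

/-- a linear form with small coefficients is small at a bounded point -/
theorem dt_bd (a : Fin 4 → ℝ) (n : Fin 4 → ℤ) (B L : ℝ) (hB : 0 ≤ B) (ha : ∀ l, |a l| ≤ B)
    (hn : ∀ l, |(n l : ℝ)| ≤ L) : |dt a n| ≤ 4 * L * B := by
  have h1 : |dt a n| ≤ ∑ l, |a l * (n l : ℝ)| := Finset.abs_sum_le_sum_abs _ _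
  have h2 : ∑ l, |a l * (n l : ℝ)| ≤ ∑ _l : Fin 4, B * L := by
    refine Finset.sum_le_sum fun l _ => ?_
    rw [abs_mul]
    exact mul_le_mul (ha l) (hn l) (abs_nonneg _) hB
  have h3 : ∑ _l : Fin 4, B * L = 4 * L * B := by
    rw [Finset.sum_const, Finset.card_univ, Fintype.card_fin, nsmul_eq_mul]
    push_cast
    ring
  linarith

end Gc_aux

open Gc_aux in
theorem tGc : GcStmt := by
  intro L η α α' n1 c hL hη hn1 hc hg hα hα' n hn
  have hLη : η ≤ L * η := by nlinarith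
  have hd1 : |dt α n1| ≤ 4 * L * η := dt_bd α n1 η L hη hα hn1
  have hdt : dt α' n1 = α' c * (n1 c : ℝ) + ∑ k : Fin 3, α' (c.succAbove k) * (n1 (c.succAbove k) : ℝ) := by
    unfold dt
    rw [Fin.sum_univ_succAbove _ c]
  have hs : |∑ k : Fin 3, α' (c.succAbove k) * (n1 (c.succAbove k) : ℝ)| ≤ 3 * L * η := by
    refine (Finset.abs_sum_le_sum_abs _ _).trans ?_
    have h2 : ∑ k : Fin 3, |α' (c.succAbove k) * (n1 (c.succAbove k) : ℝ)| ≤ ∑ _k : Fin 3, η * L := by
      refine Finset.sum_le_sum fun k _ => ?_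
      rw [abs_mul]
      exact mul_le_mul (hα' k) (hn1 _) (abs_nonneg _) hη
    have h3 : ∑ _k : Fin 3, η * L = 3 * L * η := by
      rw [Finset.sum_const, Finset.card_univ, Fintype.card_fin, nsmul_eq_mul]
      push_cast
      ring
    linarith
  have hone : (1 : ℝ) ≤ |(n1 c : ℝ)| := by
    have : (1 : ℤ) ≤ |n1 c| := Int.one_le_abs hc
    have h4 : ((1 : ℤ) : ℝ) ≤ ((|n1 c| : ℤ) : ℝ) := by exact_mod_cast this
    simpa using h4
  have hprod : |α' c * (n1 c : ℝ)| ≤ 7 * L * η := by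
    have h5 : α' c * (n1 c : ℝ) =
        dt α n1 - ∑ k : Fin 3, α' (c.succAbove k) * (n1 (c.succAbove k) : ℝ) := by
      rw [hg, hdt]
      ring
    rw [h5]
    refine (abs_sub _ _).trans ?_
    linarith
  have hαc : |α' c| ≤ 7 * L * η := by
    rw [abs_mul] at hprod
    have h6 : |α' c| * 1 ≤ |α' c| * |(n1 c : ℝ)| := mul_le_mul_of_nonneg_left hone (abs_nonneg _)
    linarith
  have hall : ∀ l, |α' l| ≤ 7 * L * η := by
    intro l
    rcases Fin.eq_self_or_eq_succAbove c l with h | ⟨k, h⟩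
    · rw [h]; exact hαc
    · rw [h]
      refine (hα' k).trans ?_
      nlinarith
  refine ⟨dt_bd α n η L hη hα hn, ?_⟩
  have h7 := dt_bd α' n (7 * L * η) L (by positivity) hall hn
  have h8 : 4 * L * (7 * L * η) = 28 * L ^ 2 * η := by ring
  linarith

end Pool.Agent.HS.Ct
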