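import Pool.Agent.Lib.HS.Ct.Spec

/-!
# PROJECT H*, `Lnr`: exact linearisation of the geometric mean

Author: helper78.
-/

set_option autoImplicit false

namespace Pool.Agent.HS.Ct

namespace Lnr_aux

theorem sq_bd {K L a b : ℝ} (hK : 1 ≤ K) (hL : 1 ≤ L) (ha : K / L ≤ a)
    (hb : b ≤ 4 * K * L ^ 2) : √(b / a) ≤ 2 * L ^ 2 := by
  have hL0 : 0 < L := by linarith
  have hK0 : 0 < K := by linarith
  have ha0 : 0 < a := lt_of_lt_of_le (div_pos hK0 hL0) ha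
  rw [Real.sqrt_le_iff]
  refine ⟨by positivity, ?_⟩
  rw [div_le_iff₀ ha0]
  have h1 : K ≤ a * L := (div_le_iff₀ hL0).mp ha
  have h2 : 4 * L ^ 3 * K ≤ 4 * L ^ 3 * (a * L) := mul_le_mul_of_nonneg_left h1 (by positivity)
  have h3 : 4 * K * L ^ 2 * 1 ≤ 4 * K * L ^ 2 * L := mul_le_mul_of_nonneg_left hL (by positivity)
  calc b ≤ 4 * K * L ^ 2 := hb
    _ = 4 * K * L ^ 2 * 1 := by ring
    _ ≤ 4 * K * L ^ 2 * L := h3
    _ = 4 * L ^ 3 * K := by ring
    _ ≤ 4 * L ^ 3 * (a * L) := h2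
    _ = (2 * L ^ 2) ^ 2 * a := by ring

/-- a factor is bounded by the product divided by a lower bound of the other factor -/
theorem fac_bd {p q r E : ℝ} (hq : 0 < q) (hqr : q ≤ r) (h : |p * r| ≤ E) : |p| ≤ E / q := by
  rw [le_div_iff₀ hq]
  calc |p| * q ≤ |p| * r := mul_le_mul_of_nonneg_left hqr (abs_nonneg p)
    _ = |p * r| := by rw [abs_mul, abs_of_pos (lt_of_lt_of_le hq hqr)]
    _ ≤ E := h

theorem core {K L H u v u0 v0 w m s t : ℝ} (hK : 1 ≤ K) (hL : 1 ≤ L) (hH : 0 ≤ H)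
    (hu : K / L ≤ u) (hv : K / L ≤ v) (hdu : |u - u0| ≤ 4 * L * H)
    (hdv : |v - v0| ≤ 28 * L ^ 2 * H) (hw : |w| ≤ 16 * L ^ 4 / K ^ 2) (hm : 0 ≤ m)
    (hm2 : m ^ 2 = u * v - w) (hs0 : 0 < s) (ht0 : 0 < t) (hst : s * t = 1)
    (hs : s ≤ 2 * L ^ 2) (ht : t ≤ 2 * L ^ 2) (h0 : u0 * s = v0 * t) :
    |m - (u * s + v * t) / 2| ≤ 2048 * L ^ 11 * H ^ 2 / K + 16 * L ^ 5 / K ^ 3 := by
  have hL0 : 0 < L := by linarith
  have hK0 : 0 < K := by linarith
  have hq : 0 < K / L := div_pos hK0 hL0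
  have hu0 : 0 < u := lt_of_lt_of_le hq hu
  have hv0 : 0 < v := lt_of_lt_of_le hq hv
  have huv : (K / L) ^ 2 ≤ u * v := by
    rw [pow_two]
    exact mul_le_mul hu hv hq.le hu0.le
  have hz : K / L ≤ √(u * v) := Real.le_sqrt_of_sq_le huv
  have hz2 : √(u * v) ^ 2 = u * v := Real.sq_sqrt (mul_pos hu0 hv0).le
  -- the difference
  have hxy : |u * s - v * t| ≤ 64 * L ^ 4 * H := by
    have h1 : u * s - v * t = (u - u0) * s - (v - v0) * t := by linear_combination h0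
    rw [h1]
    have h2 : |(u - u0) * s| ≤ 4 * L * H * (2 * L ^ 2) := by
      rw [abs_mul, abs_of_pos hs0]
      exact mul_le_mul hdu hs hs0.le (by positivity)
    have h3 : |(v - v0) * t| ≤ 28 * L ^ 2 * H * (2 * L ^ 2) := by
      rw [abs_mul, abs_of_pos ht0]
      exact mul_le_mul hdv ht ht0.le (by positivity)
    have h4 : L ^ 3 * H * 1 ≤ L ^ 3 * H * L := mul_le_mul_of_nonneg_left hL (by positivity)
    have h5 := abs_sub ((u - u0) * s) ((v - v0) * t)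
    calc |(u - u0) * s - (v - v0) * t| ≤ |(u - u0) * s| + |(v - v0) * t| := h5
      _ ≤ 4 * L * H * (2 * L ^ 2) + 28 * L ^ 2 * H * (2 * L ^ 2) := add_le_add h2 h3
      _ = 8 * (L ^ 3 * H * 1) + 56 * L ^ 4 * H := by ring
      _ ≤ 8 * (L ^ 3 * H * L) + 56 * L ^ 4 * H := by linarith
      _ = 64 * L ^ 4 * H := by ring
  -- the arithmetic mean against the geometric mean
  have hA : |√(u * v) - (u * s + v * t) / 2| ≤ 2048 * L ^ 11 * H ^ 2 / K := by
    have h1 : |(√(u * v) - (u * s + v * t) / 2) * (√(u * v) + (u * s + v * t) / 2)| ≤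
        (64 * L ^ 4 * H) ^ 2 / 4 := by
      have h2 : (√(u * v) - (u * s + v * t) / 2) * (√(u * v) + (u * s + v * t) / 2) =
          -((u * s - v * t) ^ 2 / 4) := by
        linear_combination hz2 - u * v * hst
      rw [h2, abs_neg, abs_of_nonneg (by positivity)]
      have h3 : (u * s - v * t) ^ 2 ≤ (64 * L ^ 4 * H) ^ 2 := by
        rw [← sq_abs (u * s - v * t)]
        exact pow_le_pow_left₀ (abs_nonneg _) hxy 2
      linarith
    have h2 : K / L ≤ √(u * v) + (u * s + v * t) / 2 := by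
      have : 0 < u * s := mul_pos hu0 hs0
      have : 0 < v * t := mul_pos hv0 ht0
      linarith
    refine (fac_bd hq h2 h1).trans ?_
    have h3 : (64 * L ^ 4 * H) ^ 2 / 4 / (K / L) = 1024 * H ^ 2 * L ^ 9 / K := by
      field_simp
      ring
    rw [h3]
    apply div_le_div_of_nonneg_right _ hK0.le
    have h4 : L ^ 9 ≤ L ^ 11 := pow_le_pow_right₀ hL (by norm_num)
    have h5 : 1024 * H ^ 2 * L ^ 9 ≤ 1024 * H ^ 2 * L ^ 11 :=
      mul_le_mul_of_nonneg_left h4 (by positivity)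
    have h6 : 0 ≤ 1024 * H ^ 2 * L ^ 11 := by positivity
    calc 1024 * H ^ 2 * L ^ 9 ≤ 1024 * H ^ 2 * L ^ 11 := h5
      _ ≤ 2048 * L ^ 11 * H ^ 2 := by linarith
  -- the geometric mean against `m`
  have hB : |m - √(u * v)| ≤ 16 * L ^ 5 / K ^ 3 := by
    have h1 : |(m - √(u * v)) * (m + √(u * v))| ≤ 16 * L ^ 4 / K ^ 2 := by
      have h2 : (m - √(u * v)) * (m + √(u * v)) = -w := by
        linear_combination hm2 - hz2
      rw [h2, abs_neg]
      exact hw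
    have h2 : K / L ≤ m + √(u * v) := by linarith
    refine (fac_bd hq h2 h1).trans (le_of_eq ?_)
    field_simp
  calc |m - (u * s + v * t) / 2| =
        |(m - √(u * v)) + (√(u * v) - (u * s + v * t) / 2)| := by
        congr 1
        ring
    _ ≤ |m - √(u * v)| + |√(u * v) - (u * s + v * t) / 2| := abs_add_le _ _
    _ ≤ 16 * L ^ 5 / K ^ 3 + 2048 * L ^ 11 * H ^ 2 / K := add_le_add hB hA
    _ = 2048 * L ^ 11 * H ^ 2 / K + 16 * L ^ 5 / K ^ 3 := add_comm _ _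

end Lnr_aux

open Lnr_aux in
theorem tLnr : LnrStmt := by
  intro K L H u v u0 v0 w m hK hL hH hu hv hu0 hv0 hu1 hv1 hdu hdv hw hm hm2
  have hL0 : 0 < L := by linarith
  have hK0 : 0 < K := by linarith
  have hq : 0 < K / L := div_pos hK0 hL0
  have pu : 0 < u0 := lt_of_lt_of_le hq hu0
  have pv : 0 < v0 := lt_of_lt_of_le hq hv0
  have hs0 : 0 < √(v0 / u0) := Real.sqrt_pos.mpr (div_pos pv pu)
  have hinv : (√(v0 / u0))⁻¹ = √(u0 / v0) := by
    rw [← Real.sqrt_inv, inv_div]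
  have ht : (√(v0 / u0))⁻¹ ≤ 2 * L ^ 2 := by
    rw [hinv]
    exact sq_bd hK hL hv0 hu1
  have h2 : √(v0 / u0) ^ 2 = v0 / u0 := Real.sq_sqrt (div_pos pv pu).le
  have h0 : u0 * √(v0 / u0) = v0 * (√(v0 / u0))⁻¹ := by
    rw [← div_eq_mul_inv, eq_div_iff hs0.ne', mul_assoc, ← pow_two, h2, mul_div_cancel₀ _ pu.ne']
  rw [div_eq_mul_inv v]
  exact core hK hL hH hu hv hdu hdv hw hm hm2 hs0 (inv_pos.mpr hs0) (mul_inv_cancel₀ hs0.ne')
    (sq_bd hK hL hu0 hv1) ht h0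

end Pool.Agent.HS.Ct
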