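import Pool.Agent.Lib.HS.Ct.Spec
import Pool.Agent.Lib.HS.Ct.Lnr
import Pool.Agent.Lib.HS.Ct.Gc

/-!
# PROJECT H*, part Ct, module Eq: close sums give equal sums of square roots
-/

set_option autoImplicit false

namespace Pool.Agent.HS.Ct

open MvPolynomial

namespace Eq_aux

theorem dt_le (a : Fin 4 → ℝ) (n : Fin 4 → ℤ) (A L : ℝ) (hA : 0 ≤ A) (ha : ∀ l, |a l| ≤ A)
    (hn : ∀ l, |(n l : ℝ)| ≤ L) : |dt a n| ≤ 4 * (A * L) := by
  unfold dt
  calc |∑ l, a l * (n l : ℝ)| ≤ ∑ l, |a l * (n l : ℝ)| := Finset.abs_sum_le_sum_abs _ _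
    _ ≤ ∑ _l : Fin 4, A * L := Finset.sum_le_sum fun l _ => by
        rw [abs_mul]
        exact mul_le_mul (ha l) (hn l) (abs_nonneg _) hA
    _ = 4 * (A * L) := by simp

theorem dt_sub (a b : Fin 4 → ℝ) (n : Fin 4 → ℤ) :
    dt (fun l => a l - b l) n = dt a n - dt b n := by
  unfold dt
  rw [← Finset.sum_sub_distrib]
  exact Finset.sum_congr rfl fun l _ => by ring

theorem dt_sum {ι : Type} (S : Finset ι) (a : ι → Fin 4 → ℝ) (n : Fin 4 → ℤ) :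
    dt (fun l => ∑ i ∈ S, a i l) n = ∑ i ∈ S, dt (a i) n := by
  unfold dt
  rw [Finset.sum_comm]
  exact Finset.sum_congr rfl fun l _ => by rw [Finset.sum_mul]

/-- the ratio of two numbers in `[K/L, 4KL²]` has a square root in `[1/(2L²), 2L²]` -/
theorem sq_bd (K L u v : ℝ) (hK : 1 ≤ K) (hL : 1 ≤ L) (hu : K / L ≤ u) (hv : K / L ≤ v)
    (hu' : u ≤ 4 * K * L ^ 2) (hv' : v ≤ 4 * K * L ^ 2) :
    0 < √(v / u) ∧ √(v / u) ≤ 2 * L ^ 2 ∧ 1 / √(v / u) ≤ 2 * L ^ 2 := by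
  have hK0 : 0 < K := by linarith
  have hL0 : 0 < L := by linarith
  have hKL : 0 < K / L := div_pos hK0 hL0
  have hu0 : 0 < u := lt_of_lt_of_le hKL hu
  have hv0 : 0 < v := lt_of_lt_of_le hKL hv
  have hs : 0 < √(v / u) := Real.sqrt_pos.2 (div_pos hv0 hu0)
  have key : ∀ x y : ℝ, K / L ≤ x → y ≤ 4 * K * L ^ 2 → 0 < x → y / x ≤ (2 * L ^ 2) ^ 2 := by
    intro x y hx hy hx0
    rw [div_le_iff₀ hx0]
    have h1 : K ≤ x * L := (div_le_iff₀ hL0).1 hx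
    have h2 : L ^ 3 ≤ L ^ 4 := pow_le_pow_right₀ hL (by norm_num)
    have h3 : 0 < L ^ 3 := by positivity
    calc y ≤ 4 * K * L ^ 2 := hy
      _ ≤ 4 * (x * L) * L ^ 2 := by
          have : 0 ≤ L ^ 2 := by positivity
          nlinarith
      _ = 4 * x * L ^ 3 := by ring
      _ ≤ 4 * x * L ^ 4 := by
          apply mul_le_mul_of_nonneg_left h2
          positivity
      _ = (2 * L ^ 2) ^ 2 * x := by ring
  refine ⟨hs, ?_, ?_⟩
  · rw [← Real.sqrt_sq (show (0 : ℝ) ≤ 2 * L ^ 2 by positivity)]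
    exact Real.sqrt_le_sqrt (key u v hu hv' hu0)
  · have h1 : 1 / √(v / u) = √(u / v) := by
      rw [one_div, ← Real.sqrt_inv, inv_div]
    rw [h1, ← Real.sqrt_sq (show (0 : ℝ) ≤ 2 * L ^ 2 by positivity)]
    exact Real.sqrt_le_sqrt (key v u hv hu' hv0)

theorem sum_close {ι : Type} (S : Finset ι) (h : ℕ) (hh : 1 ≤ h) (hS : S.card = h) (f g : ι → ℝ)
    (hfg : ∀ i ∈ S, |f i - g i| ≤ 1 / (4 * h)) : |∑ i ∈ S, f i - ∑ i ∈ S, g i| ≤ 1 / 4 := by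
  rw [← Finset.sum_sub_distrib]
  have hh0 : (0 : ℝ) < h := by exact_mod_cast hh
  calc |∑ i ∈ S, (f i - g i)| ≤ ∑ i ∈ S, |f i - g i| := Finset.abs_sum_le_sum_abs _ _
    _ ≤ ∑ _i ∈ S, 1 / (4 * (h : ℝ)) := Finset.sum_le_sum hfg
    _ = h * (1 / (4 * (h : ℝ))) := by rw [Finset.sum_const, hS, nsmul_eq_mul]
    _ = 1 / 4 := by field_simp

theorem nat_eq (x y : ℕ) (p q : ℝ) (hx : |(x : ℝ) - p| ≤ 1 / 4) (hy : |(y : ℝ) - q| ≤ 1 / 4)
    (hpq : |p - q| ≤ 1 / 4) : x = y := by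
  have h1 : |((x : ℤ) : ℝ) - ((y : ℤ) : ℝ)| < 1 := by
    push_cast
    rw [abs_le] at hx hy hpq
    rw [abs_lt]
    constructor <;> linarith [hx.1, hx.2, hy.1, hy.2, hpq.1, hpq.2]
  have h2 : |(x : ℤ) - (y : ℤ)| < 1 := by
    exact_mod_cast h1
  have h3 := Int.abs_lt_one_iff.1 h2
  omega

theorem err_bd (h : ℕ) (K L H : ℝ) (hh : 1 ≤ h) (hK : 1 ≤ K) (h1 : 2 ^ 14 * h * L ^ 11 * H ^ 2 ≤ K)
    (h2 : 128 * h * L ^ 5 ≤ K ^ 3) :
    2048 * L ^ 11 * H ^ 2 / K + 16 * L ^ 5 / K ^ 3 ≤ 1 / (4 * h) := by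
  have hh0 : (0 : ℝ) < h := by exact_mod_cast hh
  have hK0 : 0 < K := by linarith
  have e1 : 2048 * L ^ 11 * H ^ 2 / K ≤ 1 / (8 * h) := by
    rw [div_le_div_iff₀ hK0 (by positivity)]
    nlinarith
  have e2 : 16 * L ^ 5 / K ^ 3 ≤ 1 / (8 * h) := by
    rw [div_le_div_iff₀ (by positivity) (by positivity)]
    nlinarith
  have e3 : (1 : ℝ) / (4 * h) = 1 / (8 * h) + 1 / (8 * h) := by
    field_simp
    norm_num
  rw [e3]
  exact add_le_add e1 e2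

end Eq_aux

open Eq_aux

theorem tEq_of (hL : LnrStmt) (hG : GcStmt) : EqStmt := by
  intro h K L H T n1 c hh hK hL1 hH hT hn1 hc hK1 hK3 ι B Q m a a' b b' hB hg ha ha' S hS S' hS'
    hcS hcS' hα hα' n hn
  have hh0 : (0 : ℝ) < h := by exact_mod_cast hh
  have hK0 : 0 < K := by linarith
  have hL0 : 0 < L := by linarith
  obtain ⟨i0, hi0⟩ : S.Nonempty := by
    rw [← Finset.card_pos, hcS]
    exact hh
  have hi0B := hS hi0
  have hKL0 : 0 ≤ K * L := by positivity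
  have ub : ∀ i ∈ B, dt (a i) n ≤ 4 * K * L ^ 2 := fun i hi => by
    have := dt_le (a i) n (K * L) L hKL0 (hB i hi).bda (hT n hn)
    calc dt (a i) n ≤ |dt (a i) n| := le_abs_self _
      _ ≤ 4 * (K * L * L) := this
      _ = 4 * K * L ^ 2 := by ring
  have ub' : ∀ i ∈ B, dt (a' i) n ≤ 4 * K * L ^ 2 := fun i hi => by
    have := dt_le (a' i) n (K * L) L hKL0 (hB i hi).bda' (hT n hn)
    calc dt (a' i) n ≤ |dt (a' i) n| := le_abs_self _
      _ ≤ 4 * (K * L * L) := this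
      _ = 4 * K * L ^ 2 := by ring
  obtain ⟨s0, s1, s2⟩ := sq_bd K L (dt (a i0) n) (dt (a' i0) n) hK hL1 ((hB i0 hi0B).lba n hn)
    ((hB i0 hi0B).lba' n hn) (ub i0 hi0B) (ub' i0 hi0B)
  set s := √(dt (a' i0) n / dt (a i0) n) with hs
  have hlin : ∀ i ∈ B, |(m i n : ℝ) - (dt (a i) n * s + dt (a' i) n / s) / 2| ≤ 1 / (4 * h) := by
    intro i hi
    have h1 := hG L H (fun l => a i l - a i0 l) (fun l => a' i l - a' i0 l) n1 c hL1 hH
      (hT n1 hn1) hc (by rw [dt_sub, dt_sub, hg i hi, hg i0 hi0B]) (ha i hi i0 hi0B)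
      (ha' i hi i0 hi0B) n (hT n hn)
    rw [dt_sub, dt_sub] at h1
    have hLK0 : 0 ≤ L / K := by positivity
    have hw : |dt (b i) n * dt (b' i) n| ≤ 16 * L ^ 4 / K ^ 2 := by
      rw [abs_mul]
      have e1 := dt_le (b i) n (L / K) L hLK0 (hB i hi).bdb (hT n hn)
      have e2 := dt_le (b' i) n (L / K) L hLK0 (hB i hi).bdb' (hT n hn)
      calc |dt (b i) n| * |dt (b' i) n| ≤ (4 * (L / K * L)) * (4 * (L / K * L)) :=
            mul_le_mul e1 e2 (abs_nonneg _) (by positivity)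
        _ = 16 * L ^ 4 / K ^ 2 := by
            field_simp
            ring
    have h2 := hL K L H (dt (a i) n) (dt (a' i) n) (dt (a i0) n) (dt (a' i0) n)
      (dt (b i) n * dt (b' i) n) (m i n) hK hL1 hH ((hB i hi).lba n hn) ((hB i hi).lba' n hn)
      ((hB i0 hi0B).lba n hn) ((hB i0 hi0B).lba' n hn) (ub i0 hi0B) (ub' i0 hi0B) h1.1 h1.2 hw
      (Nat.cast_nonneg _) ((hB i hi).dec n hn)
    exact h2.trans (err_bd h K L H hh hK hK1 hK3)
  have c1 := sum_close S h hh hcS (fun i => (m i n : ℝ))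
    (fun i => (dt (a i) n * s + dt (a' i) n / s) / 2) fun i hi => hlin i (hS hi)
  have c2 := sum_close S' h hh hcS' (fun i => (m i n : ℝ))
    (fun i => (dt (a i) n * s + dt (a' i) n / s) / 2) fun i hi => hlin i (hS' hi)
  have hη : (0 : ℝ) ≤ 1 / (128 * L ^ 4) := by positivity
  have h3 := hG L (1 / (128 * L ^ 4)) (fun l => ∑ i ∈ S, a i l - ∑ i ∈ S', a i l)
    (fun l => ∑ i ∈ S, a' i l - ∑ i ∈ S', a' i l) n1 c hL1 hη (hT n1 hn1) hc
    (by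
      rw [dt_sub (fun l => ∑ i ∈ S, a i l), dt_sub (fun l => ∑ i ∈ S, a' i l), dt_sum, dt_sum,
        dt_sum, dt_sum, Finset.sum_congr rfl fun i hi => hg i (hS hi),
        Finset.sum_congr rfl fun i hi => hg i (hS' hi)]) hα hα' n (hT n hn)
  rw [dt_sub (fun l => ∑ i ∈ S, a i l), dt_sub (fun l => ∑ i ∈ S, a' i l), dt_sum, dt_sum,
    dt_sum, dt_sum] at h3
  have c3 : |∑ i ∈ S, (dt (a i) n * s + dt (a' i) n / s) / 2 -
      ∑ i ∈ S', (dt (a i) n * s + dt (a' i) n / s) / 2| ≤ 1 / 4 := by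
    have e1 : ∑ i ∈ S, (dt (a i) n * s + dt (a' i) n / s) / 2 -
        ∑ i ∈ S', (dt (a i) n * s + dt (a' i) n / s) / 2 =
        ((∑ i ∈ S, dt (a i) n - ∑ i ∈ S', dt (a i) n) * s +
          (∑ i ∈ S, dt (a' i) n - ∑ i ∈ S', dt (a' i) n) * (1 / s)) / 2 := by
      rw [← Finset.sum_div, ← Finset.sum_div, Finset.sum_add_distrib, Finset.sum_add_distrib,
        ← Finset.sum_mul, ← Finset.sum_mul, ← Finset.sum_div, ← Finset.sum_div]
      ring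
    rw [e1]
    set x := ∑ i ∈ S, dt (a i) n - ∑ i ∈ S', dt (a i) n
    set y := ∑ i ∈ S, dt (a' i) n - ∑ i ∈ S', dt (a' i) n
    have e2 : |x * s| ≤ 4 * L * (1 / (128 * L ^ 4)) * (2 * L ^ 2) := by
      rw [abs_mul, abs_of_pos s0]
      exact mul_le_mul h3.1 s1 s0.le (by positivity)
    have e3 : |y * (1 / s)| ≤ 28 * L ^ 2 * (1 / (128 * L ^ 4)) * (2 * L ^ 2) := by
      rw [abs_mul, abs_of_pos (one_div_pos.2 s0)]
      exact mul_le_mul h3.2 s2 (one_div_pos.2 s0).le (by positivity)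
    have e4 : 4 * L * (1 / (128 * L ^ 4)) * (2 * L ^ 2) ≤ 1 / 16 := by
      have : 4 * L * (1 / (128 * L ^ 4)) * (2 * L ^ 2) = 1 / 16 * (1 / L) := by
        field_simp
        norm_num
      rw [this]
      have h5 : 1 / L ≤ 1 := by
        rw [div_le_one hL0]
        exact hL1
      linarith
    have e5 : 28 * L ^ 2 * (1 / (128 * L ^ 4)) * (2 * L ^ 2) = 7 / 16 := by
      field_simp
      norm_num
    rw [abs_le] at e2 e3 ⊢
    constructor <;> linarith [e2.1, e2.2, e3.1, e3.2]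
  have c1' : |((∑ i ∈ S, m i n : ℕ) : ℝ) - ∑ i ∈ S, (dt (a i) n * s + dt (a' i) n / s) / 2| ≤
      1 / 4 := by
    push_cast
    exact c1
  have c2' : |((∑ i ∈ S', m i n : ℕ) : ℝ) - ∑ i ∈ S', (dt (a i) n * s + dt (a' i) n / s) / 2| ≤
      1 / 4 := by
    push_cast
    exact c2
  exact nat_eq _ _ _ _ c1' c2' c3

theorem tEq : EqStmt := tEq_of tLnr tGc

end Pool.Agent.HS.Ct
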