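import Pool.Agent.Lib.HS.Ct.Spec

/-!
# PROJECT H* (MP_a54f13_nt), part Ct, module Gau: choice of the gauge
-/

set_option autoImplicit false

namespace Pool.Agent.HS.Ct

namespace Gau_aux

theorem dt_smul (c : ℝ) (a : Fin 4 → ℝ) (n : Fin 4 → ℤ) :
    dt (fun l => c * a l) n = c * dt a n := by
  unfold dt
  rw [Finset.mul_sum]
  exact Finset.sum_congr rfl fun l _ => by ring

theorem dt_le {a : Fin 4 → ℝ} {n : Fin 4 → ℤ} {A L : ℝ} (hA : 0 ≤ A) (ha : ∀ l, |a l| ≤ A)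
    (hn : ∀ l, |(n l : ℝ)| ≤ L) : dt a n ≤ 4 * (A * L) := by
  unfold dt
  calc ∑ l, a l * (n l : ℝ) ≤ ∑ _l : Fin 4, A * L := by
        refine Finset.sum_le_sum fun l _ => ?_
        calc a l * (n l : ℝ) ≤ |a l * (n l : ℝ)| := le_abs_self _
          _ = |a l| * |(n l : ℝ)| := abs_mul _ _
          _ ≤ A * L := mul_le_mul (ha l) (hn l) (abs_nonneg _) hA
    _ = 4 * (A * L) := by
        rw [Finset.sum_const, Finset.card_univ, Fintype.card_fin, nsmul_eq_mul]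
        norm_num

theorem lam_le {K L u v : ℝ} (hK : 1 ≤ K) (hL : 1 ≤ L) (hu : K / L ≤ u)
    (hv : v ≤ 4 * (K * L * L)) : √(v / u) ≤ 2 * L ^ 2 := by
  have hK0 : 0 < K := by linarith
  have hL0 : 0 < L := by linarith
  have hu0 : 0 < u := lt_of_lt_of_le (div_pos hK0 hL0) hu
  have h1 : v / u ≤ (2 * L ^ 2) ^ 2 := by
    rw [div_le_iff₀ hu0]
    have h2 : K ≤ u * L := (div_le_iff₀ hL0).1 hu
    have h3 : K * L * L ≤ L ^ 4 * u := by
      calc K * L * L ≤ (u * L) * L * L := by gcongr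
        _ = L ^ 3 * u * 1 := by ring
        _ ≤ L ^ 3 * u * L := by gcongr
        _ = L ^ 4 * u := by ring
    calc v ≤ 4 * (K * L * L) := hv
      _ ≤ 4 * (L ^ 4 * u) := by linarith
      _ = (2 * L ^ 2) ^ 2 * u := by ring
  calc √(v / u) ≤ √((2 * L ^ 2) ^ 2) := Real.sqrt_le_sqrt h1
    _ = 2 * L ^ 2 := Real.sqrt_sq (by positivity)

theorem bd_mul {K L c x : ℝ} (hK : 1 ≤ K) (hL : 1 ≤ L) (hc0 : 0 ≤ c) (hc : c ≤ 2 * L ^ 2)
    (hx : |x| ≤ K * L) : |c * x| ≤ K * (2 * L ^ 3) := by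
  have hK0 : 0 < K := by linarith
  have hL0 : 0 < L := by linarith
  rw [abs_mul, abs_of_nonneg hc0]
  calc c * |x| ≤ (2 * L ^ 2) * (K * L) := mul_le_mul hc hx (abs_nonneg _) (by positivity)
    _ = K * (2 * L ^ 3) := by ring

theorem bd_b {K L x : ℝ} (hK : 1 ≤ K) (hL : 1 ≤ L) (hx : |x| ≤ L / K) : |x| ≤ 2 * L ^ 3 / K := by
  have hK0 : 0 < K := by linarith
  refine hx.trans (div_le_div_of_nonneg_right ?_ hK0.le)
  have h1 : L * 1 ≤ L * L ^ 2 := by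
    apply mul_le_mul_of_nonneg_left (one_le_pow₀ hL) (by linarith)
  have h2 : L * L ^ 2 = L ^ 3 := by ring
  have h3 : (0 : ℝ) < L ^ 3 := by positivity
  linarith

theorem lb_mul {K L c x : ℝ} (hK : 1 ≤ K) (hL : 1 ≤ L) (hc0 : 0 < c) (hc : c⁻¹ ≤ 2 * L ^ 2)
    (hx : K / L ≤ x) : K / (2 * L ^ 3) ≤ c * x := by
  have hK0 : 0 < K := by linarith
  have hL0 : 0 < L := by linarith
  have h1 : (2 * L ^ 2)⁻¹ ≤ c := by
    rw [inv_le_comm₀ (by positivity) hc0]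
    exact hc
  calc K / (2 * L ^ 3) = (2 * L ^ 2)⁻¹ * (K / L) := by
        field_simp
    _ ≤ c * x := mul_le_mul h1 hx (by positivity) hc0.le

end Gau_aux

open Gau_aux in
theorem tGau : GauStmt := by
  intro K L T Q m a a' b b' n1 hK hL hT hn1 hA
  have hK0 : 0 < K := by linarith
  have hL0 : 0 < L := by linarith
  have hKL : 0 < K / L := div_pos hK0 hL0
  have hu := hA.lba n1 hn1
  have hv := hA.lba' n1 hn1
  have hu4 := dt_le (by positivity) hA.bda (hT n1 hn1)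
  have hv4 := dt_le (by positivity) hA.bda' (hT n1 hn1)
  have hu0 : 0 < dt a n1 := lt_of_lt_of_le hKL hu
  have hv0 : 0 < dt a' n1 := lt_of_lt_of_le hKL hv
  set c : ℝ := √(dt a' n1 / dt a n1) with hc
  have hc0 : 0 < c := Real.sqrt_pos.2 (div_pos hv0 hu0)
  have hc1 : c ≤ 2 * L ^ 2 := lam_le hK hL hu hv4
  have hcinv : c⁻¹ = √(dt a n1 / dt a' n1) := by
    rw [hc, ← Real.sqrt_inv, inv_div]
  have hc2 : c⁻¹ ≤ 2 * L ^ 2 := by
    rw [hcinv]
    exact lam_le hK hL hv hu4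
  have hcsq : c * c = dt a' n1 / dt a n1 := Real.mul_self_sqrt (div_pos hv0 hu0).le
  refine ⟨fun l => c * a l, fun l => c⁻¹ * a' l, ⟨hA.hom, hA.irr, hA.sq, ?_, ?_, ?_, ?_, ?_, ?_, ?_⟩, ?_⟩
  · intro n hn
    rw [dt_smul, dt_smul, hA.dec n hn]
    field_simp
  · intro l
    exact bd_mul hK hL hc0.le hc1 (hA.bda l)
  · intro l
    exact bd_mul hK hL (inv_pos.2 hc0).le hc2 (hA.bda' l)
  · intro l
    exact bd_b hK hL (hA.bdb l)
  · intro l
    exact bd_b hK hL (hA.bdb' l)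
  · intro n hn
    rw [dt_smul]
    exact lb_mul hK hL hc0 hc2 (hA.lba n hn)
  · intro n hn
    rw [dt_smul]
    exact lb_mul hK hL (inv_pos.2 hc0) (by rw [inv_inv]; exact hc1) (hA.lba' n hn)
  · rw [dt_smul, dt_smul, eq_inv_mul_iff_mul_eq₀ hc0.ne', ← mul_assoc, hcsq,
      div_mul_cancel₀ _ hu0.ne']

end Pool.Agent.HS.Ct
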