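import Pool.Agent.Lib.HS.Ct.Spec

/-!
# PROJECT H* (MP_a54f13_nt), part Ct: the determinant form of a basis of `M_2` is irreducible
-/

set_option autoImplicit false

namespace Pool.Agent.HS.Ct

open MvPolynomial

namespace Irr_aux

/-- the substitution by linear forms -/
noncomputable def sb (M : Matrix (Fin 4) (Fin 4) ℚ) :
    MvPolynomial (Fin 4) ℚ →ₐ[ℚ] MvPolynomial (Fin 4) ℚ :=
  aeval (fun i => ∑ l, C (M l i) * X l)

theorem sb_X (M : Matrix (Fin 4) (Fin 4) ℚ) (i : Fin 4) : sb M (X i) = ∑ l, C (M l i) * X l := by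
  unfold sb
  rw [aeval_X]

theorem sb_C (M : Matrix (Fin 4) (Fin 4) ℚ) (c : ℚ) : sb M (C c) = C c := by
  unfold sb
  rw [aeval_C]
  rfl

theorem sb_comp (M N : Matrix (Fin 4) (Fin 4) ℚ) : (sb M).comp (sb N) = sb (M * N) := by
  apply MvPolynomial.algHom_ext
  intro i
  rw [AlgHom.comp_apply, sb_X, sb_X, map_sum]
  have h1 : ∀ l, sb M (C (N l i) * X l) = ∑ k, C (M k l * N l i) * X k := by
    intro l
    rw [map_mul, sb_C, sb_X, Finset.mul_sum]
    apply Finset.sum_congr rfl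
    intro k _
    rw [C_mul]
    ring
  rw [Finset.sum_congr rfl (fun l _ => h1 l), Finset.sum_comm]
  apply Finset.sum_congr rfl
  intro k _
  rw [← Finset.sum_mul, Matrix.mul_apply, map_sum]

theorem sb_one : sb 1 = AlgHom.id ℚ _ := by
  apply MvPolynomial.algHom_ext
  intro i
  rw [sb_X, AlgHom.id_apply]
  rw [Finset.sum_eq_single i]
  · rw [Matrix.one_apply_eq, C_1, one_mul]
  · intro l _ hl
    rw [Matrix.one_apply_ne hl, C_0, zero_mul]
  · intro h
    exact absurd (Finset.mem_univ i) h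

/-- the substitution by an invertible matrix is an automorphism -/
noncomputable def sbe (M N : Matrix (Fin 4) (Fin 4) ℚ) (h1 : M * N = 1) (h2 : N * M = 1) :
    MvPolynomial (Fin 4) ℚ ≃ₐ[ℚ] MvPolynomial (Fin 4) ℚ :=
  AlgEquiv.ofAlgHom (sb M) (sb N) (by rw [sb_comp, h1, sb_one]) (by rw [sb_comp, h2, sb_one])

theorem irr0 : Irreducible (X 0 * X 3 + -(X 1 * X 2) : MvPolynomial (Fin 4) ℚ) := by
  apply irreducible_mul_X_add
  · exact X_ne_zero 0
  · rw [vars_X]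
    decide
  · rw [vars_neg]
    intro h
    have h1 := vars_mul _ _ h
    rw [vars_X, vars_X] at h1
    revert h1
    decide
  · rw [Irreducible.isRelPrime_iff_not_dvd (MvPolynomial.X_prime (i := (0 : Fin 4))).irreducible]
    rintro ⟨q, hq⟩
    have h1 := congrArg (eval (fun i : Fin 4 => if i = 0 then (0 : ℚ) else 1)) hq
    simp at h1

/-- the matrix of the four integral matrices, over the rationals -/
def mx (h : Fin 4 → Matrix (Fin 2) (Fin 2) ℤ) : Matrix (Fin 4) (Fin 4) ℤ :=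
  Matrix.of ![![h 0 0 0, h 0 0 1, h 0 1 0, h 0 1 1], ![h 1 0 0, h 1 0 1, h 1 1 0, h 1 1 1],
    ![h 2 0 0, h 2 0 1, h 2 1 0, h 2 1 1], ![h 3 0 0, h 3 0 1, h 3 1 0, h 3 1 1]]

theorem mx0 (h : Fin 4 → Matrix (Fin 2) (Fin 2) ℤ) (l : Fin 4) : mx h l 0 = h l 0 0 := by
  fin_cases l <;> rfl
theorem mx1 (h : Fin 4 → Matrix (Fin 2) (Fin 2) ℤ) (l : Fin 4) : mx h l 1 = h l 0 1 := by
  fin_cases l <;> rfl
theorem mx2 (h : Fin 4 → Matrix (Fin 2) (Fin 2) ℤ) (l : Fin 4) : mx h l 2 = h l 1 0 := by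
  fin_cases l <;> rfl
theorem mx3 (h : Fin 4 → Matrix (Fin 2) (Fin 2) ℤ) (l : Fin 4) : mx h l 3 = h l 1 1 := by
  fin_cases l <;> rfl

theorem sb_q (h : Fin 4 → Matrix (Fin 2) (Fin 2) ℤ) :
    sb ((mx h).map (Int.cast : ℤ → ℚ)) (X 0 * X 3 + -(X 1 * X 2)) = qfP h := by
  rw [map_add, map_neg, map_mul, map_mul, sb_X, sb_X, sb_X, sb_X]
  simp only [Matrix.map_apply, mx0, mx1, mx2, mx3]
  unfold qfP
  ring

theorem lin_hom (c : Fin 4 → ℚ) : (∑ l, C (c l) * X l : MvPolynomial (Fin 4) ℚ).IsHomogeneous 1 := by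
  apply IsHomogeneous.sum
  intro l _
  have := (isHomogeneous_C (Fin 4) (c l)).mul (isHomogeneous_X ℚ l)
  rwa [zero_add] at this

theorem lin_eval (c : Fin 4 → ℤ) (n : Fin 4 → ℤ) :
    eval (fun l => (n l : ℚ)) (∑ l, C (c l : ℚ) * X l : MvPolynomial (Fin 4) ℚ) =
      ((∑ l, n l * c l : ℤ) : ℚ) := by
  rw [map_sum]
  push_cast
  apply Finset.sum_congr rfl
  intro l _
  rw [map_mul, eval_C, eval_X]
  ring

end Irr_aux

open Irr_aux

theorem tIrr : IrrStmt := by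
  intro h hix
  refine ⟨?_, ?_, ?_⟩
  · unfold qfP
    exact ((lin_hom _).mul (lin_hom _)).sub ((lin_hom _).mul (lin_hom _))
  · have hdet : ((mx h).map (Int.cast : ℤ → ℚ)).det ≠ 0 := by
      have h1 : ((mx h).map (Int.cast : ℤ → ℚ)).det = ((ix h : ℤ) : ℚ) := by
        have := (Int.castRingHom ℚ).map_det (mx h)
        rw [RingHom.mapMatrix_apply] at this
        exact this.symm
      rw [h1]
      exact_mod_cast hix
    have hu : IsUnit ((mx h).map (Int.cast : ℤ → ℚ)).det := isUnit_iff_ne_zero.mpr hdet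
    set M := (mx h).map (Int.cast : ℤ → ℚ) with hM
    have h1 : M * M⁻¹ = 1 := Matrix.mul_nonsing_inv M hu
    have h2 : M⁻¹ * M = 1 := Matrix.nonsing_inv_mul M hu
    have h3 := (MulEquiv.irreducible_iff (sbe M M⁻¹ h1 h2)).mpr irr0
    have h4 : (sbe M M⁻¹ h1 h2) (X 0 * X 3 + -(X 1 * X 2)) = qfP h := sb_q h
    rwa [h4] at h3
  · intro n
    unfold qfP qf
    rw [map_sub, map_mul, map_mul, lin_eval, lin_eval, lin_eval, lin_eval, Matrix.det_fin_two]
    simp only [Matrix.sum_apply, Matrix.smul_apply, smul_eq_mul]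
    push_cast
    ring

end Pool.Agent.HS.Ct
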