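import Mathlib

/-!
# PROJECT H* (MP_a54f13_nt), counting of forms with many square values: independence of square roots
-/

set_option autoImplicit false

namespace Pool.Agent.HS.Ct

/-- Square roots of elements with pairwise non-square products are linearly independent. -/
theorem sqrt_indep {K L : Type*} [Field K] [Field L] [Algebra K L] [IsGalois K L]
    (h2 : (2 : K) ≠ 0) {ι : Type*} [DecidableEq ι] (α : ι → L) (a : ι → K) :
    ∀ s : Finset ι, (∀ i ∈ s, α i ^ 2 = algebraMap K L (a i)) → (∀ i ∈ s, a i ≠ 0) →
      (∀ i ∈ s, ∀ j ∈ s, i ≠ j → ¬ IsSquare (a i * a j)) → ∀ c : ι → K,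
      ∑ i ∈ s, algebraMap K L (c i) * α i = 0 → ∀ i ∈ s, c i = 0 := by
  intro s
  induction s using Finset.strongInduction with
  | H s ih =>
    intro hα ha hsq c hc i0 hi0
    by_contra hc0
    have hinj : Function.Injective (algebraMap K L) := (algebraMap K L).injective
    have hα0 : ∀ i ∈ s, α i ≠ 0 := by
      intro i hi h
      have h1 := hα i hi
      rw [h, zero_pow two_ne_zero] at h1
      exact ha i hi ((map_eq_zero_iff _ hinj).1 h1.symm)
    have hother : ∀ i1 ∈ s, i1 ≠ i0 → c i1 = 0 := by
      intro i1 hi1 hne
      have hβ : ¬ α i0 * α i1 ∈ Set.range (algebraMap K L) := by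
        rintro ⟨b, hb⟩
        refine hsq i0 hi0 i1 hi1 hne.symm ⟨b, ?_⟩
        apply hinj
        rw [map_mul, map_mul, ← hα i0 hi0, ← hα i1 hi1, hb]
        ring
      obtain ⟨σ, hσ⟩ : ∃ σ : Gal(L/K), σ (α i0 * α i1) ≠ α i0 * α i1 := by
        by_contra hcon
        push Not at hcon
        exact hβ ((InfiniteGalois.mem_range_algebraMap_iff_fixed _).2 hcon)
      have hpm : ∀ i ∈ s, σ (α i0 * α i) = α i0 * α i ∨ σ (α i0 * α i) = -(α i0 * α i) := by
        intro i hi
        have h1 : (α i0 * α i) ^ 2 = algebraMap K L (a i0 * a i) := by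
          rw [mul_pow, hα i0 hi0, hα i hi, map_mul]
        have h3 : σ (α i0 * α i) ^ 2 = (α i0 * α i) ^ 2 := by
          rw [← map_pow, h1, AlgEquiv.commutes]
        exact sq_eq_sq_iff_eq_or_eq_neg.1 h3
      classical
      let e : ι → K := fun i => if σ (α i0 * α i) = α i0 * α i then 1 else -1
      have he : ∀ i ∈ s, σ (α i0 * α i) = algebraMap K L (e i) * (α i0 * α i) := by
        intro i hi
        by_cases h : σ (α i0 * α i) = α i0 * α i
        · have h4 : e i = 1 := if_pos h
          rw [h4, h, map_one, one_mul]
        · rcases hpm i hi with h' | h'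
          · exact absurd h' h
          · have h4 : e i = -1 := if_neg h
            rw [h4, h', map_neg, map_one, neg_one_mul]
      have h0 : ∑ i ∈ s, algebraMap K L (c i) * (α i0 * α i) = 0 := by
        have : ∑ i ∈ s, algebraMap K L (c i) * (α i0 * α i) =
            α i0 * ∑ i ∈ s, algebraMap K L (c i) * α i := by
          rw [Finset.mul_sum]
          exact Finset.sum_congr rfl fun i _ => by ring
        rw [this, hc, mul_zero]
      have h1 : ∑ i ∈ s, algebraMap K L (c i) * (algebraMap K L (e i) * (α i0 * α i)) = 0 := by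
        have h3 := congrArg σ h0
        rw [map_sum, map_zero] at h3
        rw [← h3]
        refine Finset.sum_congr rfl fun i hi => ?_
        rw [map_mul, AlgEquiv.commutes, he i hi]
      have h3 : ∑ i ∈ s, algebraMap K L (c i * (1 - e i)) * α i = 0 := by
        have h4 : α i0 * ∑ i ∈ s, algebraMap K L (c i * (1 - e i)) * α i = 0 := by
          have : α i0 * ∑ i ∈ s, algebraMap K L (c i * (1 - e i)) * α i =
              ∑ i ∈ s, algebraMap K L (c i) * (α i0 * α i) -
                ∑ i ∈ s, algebraMap K L (c i) * (algebraMap K L (e i) * (α i0 * α i)) := by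
            rw [Finset.mul_sum, ← Finset.sum_sub_distrib]
            refine Finset.sum_congr rfl fun i _ => ?_
            rw [map_mul, map_sub, map_one]
            ring
          rw [this, h0, h1, sub_zero]
        exact (mul_eq_zero.1 h4).resolve_left (hα0 i0 hi0)
      have he0 : e i0 = 1 := by
        have h4 : σ (α i0 * α i0) = α i0 * α i0 := by
          have : α i0 * α i0 = algebraMap K L (a i0) := by rw [← hα i0 hi0]; ring
          rw [this, AlgEquiv.commutes]
        exact if_pos h4
      have he1 : e i1 = -1 := if_neg hσ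
      have h5 : ∑ i ∈ s.erase i0, algebraMap K L (c i * (1 - e i)) * α i = 0 := by
        rw [← h3, ← Finset.add_sum_erase s _ hi0, he0]
        simp
      have h6 := ih (s.erase i0) (Finset.erase_ssubset hi0)
        (fun i hi => hα i (Finset.mem_of_mem_erase hi))
        (fun i hi => ha i (Finset.mem_of_mem_erase hi))
        (fun i hi j hj hij => hsq i (Finset.mem_of_mem_erase hi) j (Finset.mem_of_mem_erase hj) hij)
        (fun i => c i * (1 - e i)) h5 i1 (Finset.mem_erase.2 ⟨hne, hi1⟩)
      have h7 : c i1 * 2 = 0 := by
        have h8 : c i1 * (1 - e i1) = 0 := h6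
        rw [he1] at h8
        linear_combination h8
      exact (mul_eq_zero.1 h7).resolve_right h2
    have h1 : algebraMap K L (c i0) * α i0 = 0 := by
      have h3 := Finset.sum_eq_single_of_mem (f := fun i => algebraMap K L (c i) * α i) i0 hi0
        fun i hi hne => by
          change algebraMap K L (c i) * α i = 0
          rw [hother i hi hne, map_zero, zero_mul]
      rw [← hc, h3]
    rcases mul_eq_zero.1 h1 with h | h
    · exact hc0 ((map_eq_zero_iff _ hinj).1 h)
    · exact hα0 i0 hi0 h

end Pool.Agent.HS.Ct
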