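import Pool.Agent.Lib.HS.Ct.SpecB

/-!
# PROJECT H* (MP_a54f13_nt): the interface from the `B_h` count (reserve)
-/

set_option autoImplicit false

namespace Pool.Agent.HS.Ct

theorem tM2a : M2aStmt := by
  intro h
  obtain ⟨C, A, hCA⟩ := h 14 (by norm_num)
  refine ⟨4 ^ 14, C, A, fun K L T I hL hK hI hT hGP F h1 h2 h3 => ?_⟩
  have h4 := hCA K L T I hL hK hI hT hGP F h1 h2 h3
  have h5 : ((7 : ℝ) / 2 + 7 / (2 * ((14 : ℕ) : ℝ))) = 15 / 4 := by norm_num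
  rw [h5] at h4
  exact h4

end Pool.Agent.HS.Ct
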