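import Pool.Agent.Lib.HS.Ct.Spec

set_option autoImplicit false

/-!
# PROJECT H* (MP_a54f13_nt), part Ct: from forms to quadruples of integral matrices
-/

namespace Pool.Agent.HS.Ct

open MvPolynomial

namespace Mat_aux

/-- the transported matrix of `h l` -/
noncomputable def tr (h : Fin 4 → Matrix (Fin 2) (Fin 2) ℤ) (g g' : Matrix (Fin 2) (Fin 2) ℝ)
    (i j : Fin 2) (l : Fin 4) : ℝ := (g * (h l).map (Int.cast : ℤ → ℝ) * g') i j

theorem tr_sum (h : Fin 4 → Matrix (Fin 2) (Fin 2) ℤ) (g g' : Matrix (Fin 2) (Fin 2) ℝ)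
    (i j : Fin 2) (n : Fin 4 → ℤ) :
    (g * (∑ l, n l • h l).map (Int.cast : ℤ → ℝ) * g') i j = dt (tr h g g' i j) n := by
  simp only [dt, tr, Matrix.mul_apply, Fin.sum_univ_two, Fin.sum_univ_four, Matrix.map_apply,
    Matrix.add_apply, Matrix.smul_apply, smul_eq_mul]
  push_cast
  ring

theorem det_tr (h : Fin 4 → Matrix (Fin 2) (Fin 2) ℤ) (g g' : Matrix (Fin 2) (Fin 2) ℝ)
    (hg : g.det = 1) (hg' : g'.det = 1) (n : Fin 4 → ℤ) :
    ((qf h n : ℤ) : ℝ) = dt (tr h g g' 0 0) n * dt (tr h g g' 1 1) n -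
      dt (tr h g g' 0 1) n * dt (tr h g g' 1 0) n := by
  rw [← tr_sum, ← tr_sum, ← tr_sum, ← tr_sum, ← Matrix.det_fin_two, Matrix.det_mul, Matrix.det_mul,
    hg, hg', one_mul, mul_one]
  unfold qf
  rw [Matrix.det_fin_two, Matrix.det_fin_two]
  simp only [Matrix.map_apply]
  push_cast
  ring

theorem dt_le (b : Fin 4 → ℝ) (n : Fin 4 → ℤ) (B L : ℝ) (hB : 0 ≤ B) (hb : ∀ l, |b l| ≤ B)
    (hn : ∀ l, |(n l : ℝ)| ≤ L) : |dt b n| ≤ 4 * (B * L) := by
  unfold dt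
  have h1 : ∀ l ∈ (Finset.univ : Finset (Fin 4)), |b l * (n l : ℝ)| ≤ B * L := by
    intro l _
    rw [abs_mul]
    exact mul_le_mul (hb l) (hn l) (abs_nonneg _) hB
  have h2 := (Finset.abs_sum_le_sum_abs (fun l => b l * (n l : ℝ)) Finset.univ).trans
    (Finset.sum_le_sum h1)
  simpa using h2

theorem pos (K L : ℝ) (T : Finset (Fin 4 → ℤ)) (h : Fin 4 → Matrix (Fin 2) (Fin 2) ℤ)
    (g g' : Matrix (Fin 2) (Fin 2) ℝ) (hL : 1 ≤ L) (hK : 4 * L ^ 3 ≤ K)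
    (hT : ∀ n ∈ T, ∀ l, |(n l : ℝ)| ≤ L) (hA : AdmM K L T h g g') (n : Fin 4 → ℤ) (hn : n ∈ T) :
    0 < qf h n := by
  have hL0 : 0 < L := by linarith
  have hK0 : 0 < K := lt_of_lt_of_le (by positivity) hK
  have e := det_tr h g g' hA.dg hA.dg' n
  have h00 : K / L ≤ dt (tr h g g' 0 0) n := by
    rw [← tr_sum]
    exact hA.l00 n hn
  have h11 : K / L ≤ dt (tr h g g' 1 1) n := by
    rw [← tr_sum]
    exact hA.l11 n hn
  have hLK : 0 ≤ L / K := by positivity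
  have h01 : |dt (tr h g g' 0 1) n| ≤ 4 * (L / K * L) := dt_le _ n _ _ hLK hA.b01 (hT n hn)
  have h10 : |dt (tr h g g' 1 0) n| ≤ 4 * (L / K * L) := dt_le _ n _ _ hLK hA.b10 (hT n hn)
  have hKL : 0 < K / L := by positivity
  have p1 : K / L * (K / L) ≤ dt (tr h g g' 0 0) n * dt (tr h g g' 1 1) n :=
    mul_le_mul h00 h11 hKL.le (hKL.le.trans h00)
  have p2 : |dt (tr h g g' 0 1) n * dt (tr h g g' 1 0) n| ≤
      4 * (L / K * L) * (4 * (L / K * L)) := by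
    rw [abs_mul]
    exact mul_le_mul h01 h10 (abs_nonneg _) (by positivity)
  have p3 := le_abs_self (dt (tr h g g' 0 1) n * dt (tr h g g' 1 0) n)
  have hL1 : 1 ≤ L ^ 3 := one_le_pow₀ hL
  have hK4 : 4 ≤ K := by linarith
  -- `L / K * L ≤ 1 / (4 L) ≤ 1 / 4` and `K / L ≥ 4 L ^ 2 ≥ 4`
  have q1 : L / K * L ≤ 1 / 4 := by
    rw [div_mul_eq_mul_div, div_le_iff₀ hK0]
    nlinarith [mul_pos hL0 hL0, pow_pos hL0 3]
  have q2 : 4 ≤ K / L := by
    rw [le_div_iff₀ hL0]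
    nlinarith [mul_pos hL0 hL0, pow_pos hL0 3]
  have q3 : 4 * (L / K * L) * (4 * (L / K * L)) ≤ 1 := by
    have : 0 ≤ L / K * L := by positivity
    nlinarith
  have q4 : 16 ≤ K / L * (K / L) := by nlinarith
  have h5 : (0 : ℝ) < ((qf h n : ℤ) : ℝ) := by
    rw [e]
    linarith
  exact_mod_cast h5

end Mat_aux

open Mat_aux

theorem tMat : MatStmt := by
  intro hI hAs hC h0 hh0
  obtain ⟨C, A, H⟩ := hC h0 hh0
  refine ⟨C + 4, A + 3, ?_⟩
  intro K L T I hL hK hI1 hT hGP F hix hF hinj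
  have hL0 : 0 < L := by linarith
  have hLA : 1 ≤ L ^ A := one_le_pow₀ hL
  have hL3 : 1 ≤ L ^ 3 := one_le_pow₀ hL
  have hC0 : (0 : ℝ) ≤ C := Nat.cast_nonneg C
  have hmono : (C : ℝ) * L ^ A ≤ ((C + 4 : ℕ) : ℝ) * L ^ (A + 3) := by
    push_cast
    rw [pow_add]
    have h1 : L ^ A ≤ L ^ A * L ^ 3 := le_mul_of_one_le_right (by positivity) hL3
    have h2 : (C : ℝ) * L ^ A ≤ C * (L ^ A * L ^ 3) := mul_le_mul_of_nonneg_left h1 hC0
    have h3 : 0 ≤ L ^ A * L ^ 3 := by positivity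
    linarith
  have hK1 : (C : ℝ) * L ^ A ≤ K := hmono.trans hK
  have hK3 : 4 * L ^ 3 ≤ K := by
    refine le_trans ?_ hK
    push_cast
    rw [pow_add]
    have h1 : L ^ 3 ≤ L ^ A * L ^ 3 := le_mul_of_one_le_left (by positivity) hLA
    have h2 : 0 ≤ (C : ℝ) * (L ^ A * L ^ 3) := by positivity
    linarith
  have hK0 : 0 < K := lt_of_lt_of_le (by positivity) hK3
  -- a point of T
  obtain ⟨n1, hn1, -⟩ := hGP 0 (Nat.zero_le _) 1 (isHomogeneous_one _ _) one_ne_zero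
  -- the data
  have hg : ∀ h : Fin 4 → Matrix (Fin 2) (Fin 2) ℤ, ∃ g g' : Matrix (Fin 2) (Fin 2) ℝ,
      h ∈ F → AdmM K L T h g g' := by
    intro h
    by_cases hh : h ∈ F
    · obtain ⟨g, g', hgg⟩ := hF h hh
      exact ⟨g, g', fun _ => hgg⟩
    · exact ⟨0, 0, fun h' => absurd h' hh⟩
  choose g g' hgg using hg
  have hm : ∀ (h : Fin 4 → Matrix (Fin 2) (Fin 2) ℤ) (n : Fin 4 → ℤ), ∃ m : ℕ,
      IsSquare (qf h n) → qf h n = (m : ℤ) ^ 2 := by
    intro h n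
    by_cases hs : IsSquare (qf h n)
    · obtain ⟨r, hr⟩ := hs
      refine ⟨r.natAbs, fun _ => ?_⟩
      rw [hr, Int.natCast_natAbs, sq_abs, sq]
    · exact ⟨0, fun h' => absurd h' hs⟩
  choose m hmm using hm
  have hixne : ∀ h ∈ F, ix h ≠ 0 := by
    intro h hh h0
    have := hix h hh
    rw [h0, abs_zero] at this
    omega
  have key : ((F.card : ℕ) : ℝ) ≤ C * L ^ A * K ^ ((7 : ℝ) / 2 + 7 / (2 * h0)) := by
    apply H K L T hL hK1 hT hGP (Fin 4 → Matrix (Fin 2) (Fin 2) ℤ) F (fun h => qfP h) m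
      (fun h => tr h (g h) (g' h) 0 0) (fun h => tr h (g h) (g' h) 1 1)
      (fun h => tr h (g h) (g' h) 0 1) (fun h => tr h (g h) (g' h) 1 0)
    · intro h hh
      have hA := hgg h hh
      obtain ⟨i1, i2, i3⟩ := hI h (hixne h hh)
      refine ⟨i1, i2, ?_, ?_, hA.b00, hA.b11, hA.b01, hA.b10, ?_, ?_⟩
      · intro n hn
        rw [i3 n, hmm h n (hA.sq n hn)]
        push_cast
        rfl
      · intro n hn
        rw [← det_tr h (g h) (g' h) hA.dg hA.dg' n, hmm h n (hA.sq n hn)]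
        push_cast
        rfl
      · intro n hn
        rw [← tr_sum]
        exact hA.l00 n hn
      · intro n hn
        rw [← tr_sum]
        exact hA.l11 n hn
    · intro i hi j hj hne hass
      apply hne
      apply hinj i hi j hj
      apply hAs i j (hixne i hi) ?_ hass
      · exact ⟨n1, pos K L T i (g i) (g' i) hL hK3 hT (hgg i hi) n1 hn1,
          pos K L T j (g j) (g' j) hL hK3 hT (hgg j hj) n1 hn1⟩
      · rw [← sq_abs (ix j), hix j hj, ← sq_abs (ix i), hix i hi]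
  refine key.trans ?_
  exact mul_le_mul_of_nonneg_right hmono (Real.rpow_nonneg hK0.le _)

end Pool.Agent.HS.Ct
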