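import Pool.Agent.Lib.HS.Ct.SpecB
import Pool.Agent.Lib.HS.Ct.Mat

set_option autoImplicit false

/-!
# PROJECT H* (MP_a54f13_nt), part Ct: the interface `M2eStmt` from the count `CountStmt`
-/

namespace Pool.Agent.HS.Ct

open MvPolynomial

namespace M2b_aux

open Mat_aux

/-- the polar form of the determinant -/
def Bf (x y : Matrix (Fin 2) (Fin 2) ℤ) : ℤ :=
  x 0 0 * y 1 1 + x 1 1 * y 0 0 - x 0 1 * y 1 0 - x 1 0 * y 0 1

/-- the upper triangular coefficient array of the determinant form -/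
def ar (h : Fin 4 → Matrix (Fin 2) (Fin 2) ℤ) (i j : Fin 4) : ℤ :=
  if i = j then (h i).det else if i < j then Bf (h i) (h j) else 0

theorem qa_ar (h : Fin 4 → Matrix (Fin 2) (Fin 2) ℤ) : qa (ar h) = qfP h := by
  unfold qa qfP ar Bf
  simp only [Fin.sum_univ_four, Matrix.det_fin_two]
  simp [Fin.ext_iff, Fin.lt_def]
  ring

theorem qv_ar (h : Fin 4 → Matrix (Fin 2) (Fin 2) ℤ) (n : Fin 4 → ℤ) : qv (ar h) n = qf h n := by
  unfold qv qf ar Bf
  rw [Matrix.det_fin_two]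
  simp only [Fin.sum_univ_four, Matrix.det_fin_two, Matrix.add_apply, Matrix.smul_apply,
    smul_eq_mul]
  simp [Fin.ext_iff, Fin.lt_def]
  ring

/-- `det` of a transported matrix -/
theorem det_eq (x : Matrix (Fin 2) (Fin 2) ℤ) (g g' : Matrix (Fin 2) (Fin 2) ℝ)
    (hg : g.det = 1) (hg' : g'.det = 1) :
    ((x.det : ℤ) : ℝ) = (g * x.map (Int.cast : ℤ → ℝ) * g') 0 0 *
      (g * x.map (Int.cast : ℤ → ℝ) * g') 1 1 - (g * x.map (Int.cast : ℤ → ℝ) * g') 0 1 *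
      (g * x.map (Int.cast : ℤ → ℝ) * g') 1 0 := by
  rw [← Matrix.det_fin_two, Matrix.det_mul, Matrix.det_mul, hg, hg', one_mul, mul_one,
    Matrix.det_fin_two, Matrix.det_fin_two]
  simp only [Matrix.map_apply]
  push_cast
  ring

theorem Bf_eq (x y : Matrix (Fin 2) (Fin 2) ℤ) (g g' : Matrix (Fin 2) (Fin 2) ℝ)
    (hg : g.det = 1) (hg' : g'.det = 1) :
    ((Bf x y : ℤ) : ℝ) =
      (g * x.map (Int.cast : ℤ → ℝ) * g') 0 0 * (g * y.map (Int.cast : ℤ → ℝ) * g') 1 1 +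
      (g * x.map (Int.cast : ℤ → ℝ) * g') 1 1 * (g * y.map (Int.cast : ℤ → ℝ) * g') 0 0 -
      (g * x.map (Int.cast : ℤ → ℝ) * g') 0 1 * (g * y.map (Int.cast : ℤ → ℝ) * g') 1 0 -
      (g * x.map (Int.cast : ℤ → ℝ) * g') 1 0 * (g * y.map (Int.cast : ℤ → ℝ) * g') 0 1 := by
  have h1 := det_eq (x + y) g g' hg hg'
  have h2 := det_eq x g g' hg hg'
  have h3 := det_eq y g g' hg hg'
  have h4 : (x + y).map (Int.cast : ℤ → ℝ) =
      x.map (Int.cast : ℤ → ℝ) + y.map (Int.cast : ℤ → ℝ) := by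
    ext i j
    simp
  rw [h4, Matrix.mul_add, Matrix.add_mul] at h1
  simp only [Matrix.add_apply] at h1
  have h5 : ((Bf x y : ℤ) : ℝ) = (((x + y).det : ℤ) : ℝ) - ((x.det : ℤ) : ℝ) -
      ((y.det : ℤ) : ℝ) := by
    unfold Bf
    rw [Matrix.det_fin_two, Matrix.det_fin_two, Matrix.det_fin_two]
    simp only [Matrix.add_apply]
    push_cast
    ring
  rw [h5, h1, h2, h3]
  ring

theorem four (P R s t u v : ℝ) (hs : |s| ≤ P) (ht : |t| ≤ P) (hu : |u| ≤ R) (hv : |v| ≤ R) :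
    |s * t - u * v| ≤ P * P + R * R := by
  have hP : 0 ≤ P := (abs_nonneg _).trans hs
  have hR : 0 ≤ R := (abs_nonneg _).trans hu
  have h1 : |s * t| ≤ P * P := by
    rw [abs_mul]
    exact mul_le_mul hs ht (abs_nonneg _) hP
  have h2 : |u * v| ≤ R * R := by
    rw [abs_mul]
    exact mul_le_mul hu hv (abs_nonneg _) hR
  exact (abs_sub _ _).trans (add_le_add h1 h2)

theorem ar_le (K L : ℝ) (T : Finset (Fin 4 → ℤ)) (h : Fin 4 → Matrix (Fin 2) (Fin 2) ℤ)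
    (g g' : Matrix (Fin 2) (Fin 2) ℝ) (hL : 1 ≤ L) (hK : 1 ≤ K)
    (hA : AdmM K L T h g g') (i j : Fin 4) : |(ar h i j : ℝ)| ≤ K ^ 2 * (4 * L ^ 3) := by
  have hL0 : 0 < L := by linarith
  have hK0 : 0 < K := by linarith
  have hR : L / K ≤ K * L := by
    rw [div_le_iff₀ hK0]
    nlinarith [mul_pos hK0 hL0, one_le_mul_of_one_le_of_one_le hK hK]
  have hR0 : 0 ≤ L / K := by positivity
  have hRR : L / K * (L / K) ≤ K * L * (K * L) := mul_le_mul hR hR hR0 (by positivity)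
  have hb : K * L * (K * L) ≤ K ^ 2 * L ^ 3 := by
    have h1 : K * L * (K * L) = K ^ 2 * L ^ 2 := by ring
    have h2 : K ^ 2 * L ^ 3 = K ^ 2 * L ^ 2 * L := by ring
    rw [h1, h2]
    exact le_mul_of_one_le_right (by positivity) hL
  have hb0 : 0 ≤ K * L * (K * L) := by positivity
  unfold ar
  split_ifs with h1 h2
  · rw [det_eq (h i) g g' hA.dg hA.dg']
    have := four (K * L) (L / K) _ _ _ _ (hA.b00 i) (hA.b11 i) (hA.b01 i) (hA.b10 i)
    refine this.trans ?_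
    nlinarith
  · rw [Bf_eq (h i) (h j) g g' hA.dg hA.dg']
    have e1 := four (K * L) (L / K) _ _ _ _ (hA.b00 i) (hA.b11 j) (hA.b01 i) (hA.b10 j)
    have e2 := four (K * L) (L / K) _ _ _ _ (hA.b11 i) (hA.b00 j) (hA.b10 i) (hA.b01 j)
    have e3 := abs_add_le
      ((g * (h i).map (Int.cast : ℤ → ℝ) * g') 0 0 * (g * (h j).map (Int.cast : ℤ → ℝ) * g') 1 1 -
        (g * (h i).map (Int.cast : ℤ → ℝ) * g') 0 1 * (g * (h j).map (Int.cast : ℤ → ℝ) * g') 1 0)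
      ((g * (h i).map (Int.cast : ℤ → ℝ) * g') 1 1 * (g * (h j).map (Int.cast : ℤ → ℝ) * g') 0 0 -
        (g * (h i).map (Int.cast : ℤ → ℝ) * g') 1 0 * (g * (h j).map (Int.cast : ℤ → ℝ) * g') 0 1)
    have e4 : ∀ a b c d : ℝ, a + b - c - d = (a - c) + (b - d) := fun a b c d => by ring
    rw [e4]
    refine e3.trans ((add_le_add e1 e2).trans ?_)
    nlinarith
  · rw [Int.cast_zero, abs_zero]
    positivity

theorem low (K L : ℝ) (T : Finset (Fin 4 → ℤ)) (h : Fin 4 → Matrix (Fin 2) (Fin 2) ℤ)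
    (g g' : Matrix (Fin 2) (Fin 2) ℝ) (hL : 1 ≤ L) (hK : 4 * L ^ 3 ≤ K)
    (hT : ∀ n ∈ T, ∀ l, |(n l : ℝ)| ≤ L) (hA : AdmM K L T h g g') (n : Fin 4 → ℤ) (hn : n ∈ T) :
    K ^ 2 / (4 * L ^ 3) ≤ (qf h n : ℝ) := by
  have hL0 : 0 < L := by linarith
  have hK0 : 0 < K := lt_of_lt_of_le (by positivity) hK
  have e := det_tr h g g' hA.dg hA.dg' n
  have h00 : K / L ≤ dt (tr h g g' 0 0) n := by
    rw [← tr_sum]
    exact hA.l00 n hn
  have h11 : K / L ≤ dt (tr h g g' 1 1) n := by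
    rw [← tr_sum]
    exact hA.l11 n hn
  have hLK : 0 ≤ L / K := by positivity
  have h01 : |dt (tr h g g' 0 1) n| ≤ 4 * (L / K * L) := dt_le _ n _ _ hLK hA.b01 (hT n hn)
  have h10 : |dt (tr h g g' 1 0) n| ≤ 4 * (L / K * L) := dt_le _ n _ _ hLK hA.b10 (hT n hn)
  have hKL : 0 < K / L := by positivity
  have p1 : K / L * (K / L) ≤ dt (tr h g g' 0 0) n * dt (tr h g g' 1 1) n :=
    mul_le_mul h00 h11 hKL.le (hKL.le.trans h00)
  have p2 : |dt (tr h g g' 0 1) n * dt (tr h g g' 1 0) n| ≤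
      4 * (L / K * L) * (4 * (L / K * L)) := by
    rw [abs_mul]
    exact mul_le_mul h01 h10 (abs_nonneg _) (by positivity)
  have p3 := le_abs_self (dt (tr h g g' 0 1) n * dt (tr h g g' 1 0) n)
  have hL1 : 1 ≤ L ^ 3 := one_le_pow₀ hL
  have hK4 : 4 ≤ K := by linarith
  have q1 : L / K * L ≤ 1 / 4 := by
    rw [div_mul_eq_mul_div, div_le_iff₀ hK0]
    nlinarith [mul_pos hL0 hL0, pow_pos hL0 3]
  have q2 : 4 ≤ K / L := by
    rw [le_div_iff₀ hL0]
    nlinarith [mul_pos hL0 hL0, pow_pos hL0 3]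
  have q3 : 4 * (L / K * L) * (4 * (L / K * L)) ≤ 1 := by
    have : 0 ≤ L / K * L := by positivity
    nlinarith
  have q4 : 16 ≤ K / L * (K / L) := by nlinarith
  have q5 : K ^ 2 / (4 * L ^ 3) ≤ K / L * (K / L) / 4 := by
    have h1 : K / L * (K / L) / 4 = K ^ 2 / (4 * L ^ 2) := by
      field_simp
    rw [h1]
    apply div_le_div_of_nonneg_left (by positivity) (by positivity)
    have h2 : L ^ 3 = L ^ 2 * L := by ring
    rw [h2]
    have : 0 < L ^ 2 := by positivity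
    nlinarith
  rw [e]
  linarith

end M2b_aux

open Mat_aux M2b_aux

theorem tM2b : M2bStmt := by
  intro hI hAs hCt ε hε
  -- the choice of `s`
  obtain ⟨s, hs1, hs2⟩ : ∃ s : ℕ, 1 ≤ s ∧ (32 : ℝ) / s ≤ ε := by
    refine ⟨⌈32 / ε⌉₊ + 1, by omega, ?_⟩
    have h1 : 32 / ε ≤ (⌈32 / ε⌉₊ : ℝ) := Nat.le_ceil _
    have h2 : (0 : ℝ) < ((⌈32 / ε⌉₊ + 1 : ℕ) : ℝ) := by positivity
    rw [div_le_iff₀ h2]
    rw [div_le_iff₀ hε] at h1
    push_cast
    nlinarith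
  obtain ⟨e, C, H⟩ := hCt s hs1
  refine ⟨e, C * 4 ^ C + 4, 3 * C + 3, ?_⟩
  intro K L T I hL hK hI1 hT hGP F hix hF hinj
  have hL0 : 0 < L := by linarith
  have hL3 : 1 ≤ L ^ 3 := one_le_pow₀ hL
  have hLA : 1 ≤ L ^ (3 * C) := one_le_pow₀ hL
  have hC0 : (0 : ℝ) ≤ C := Nat.cast_nonneg C
  have hC4 : (0 : ℝ) ≤ (C : ℝ) * 4 ^ C := by positivity
  have hmono : (C : ℝ) * (4 * L ^ 3) ^ C ≤ ((C * 4 ^ C + 4 : ℕ) : ℝ) * L ^ (3 * C + 3) := by
    push_cast
    rw [mul_pow, ← pow_mul, pow_add]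
    have h1 : L ^ (3 * C) ≤ L ^ (3 * C) * L ^ 3 := le_mul_of_one_le_right (by positivity) hL3
    have h2 : (C : ℝ) * 4 ^ C * L ^ (3 * C) ≤ C * 4 ^ C * (L ^ (3 * C) * L ^ 3) :=
      mul_le_mul_of_nonneg_left h1 hC4
    have h3 : 0 ≤ L ^ (3 * C) * L ^ 3 := by positivity
    linarith
  have hK3 : 4 * L ^ 3 ≤ K := by
    refine le_trans ?_ hK
    push_cast
    rw [pow_add]
    have h1 : L ^ 3 ≤ L ^ (3 * C) * L ^ 3 := le_mul_of_one_le_left (by positivity) hLA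
    have h2 : 0 ≤ (C : ℝ) * 4 ^ C * (L ^ (3 * C) * L ^ 3) := by positivity
    linarith
  have hK1 : 1 ≤ K := by linarith
  have hK0 : 0 < K := by linarith
  have hN1 : 1 ≤ 4 * L ^ 3 := by linarith
  have hLN : L ≤ 4 * L ^ 3 := by
    have h1 : L ^ 3 = L * L * L := by ring
    rw [h1]
    nlinarith [mul_pos hL0 hL0, one_le_mul_of_one_le_of_one_le hL hL]
  -- a point of T
  obtain ⟨n1, hn1, -⟩ := hGP 0 (Nat.zero_le _) 1 (isHomogeneous_one _ _) one_ne_zero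
  -- the data
  have hg : ∀ h : Fin 4 → Matrix (Fin 2) (Fin 2) ℤ, ∃ g g' : Matrix (Fin 2) (Fin 2) ℝ,
      h ∈ F → AdmM K L T h g g' := by
    intro h
    by_cases hh : h ∈ F
    · obtain ⟨g, g', hgg⟩ := hF h hh
      exact ⟨g, g', fun _ => hgg⟩
    · exact ⟨0, 0, fun h' => absurd h' hh⟩
  choose g g' hgg using hg
  have hixne : ∀ h ∈ F, ix h ≠ 0 := by
    intro h hh h0
    have := hix h hh
    rw [h0, abs_zero] at this
    omega
  classical
  have key : (((F.image ar).card : ℕ) : ℝ) ≤ C * (4 * L ^ 3) ^ C * K ^ ((32 : ℝ) / s) := by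
    apply H K (4 * L ^ 3) T hK1 hN1 (fun n hn i => (hT n hn i).trans hLN)
      (fun f hf hf0 => hGP e le_rfl f hf hf0)
    · intro a ha
      obtain ⟨h, hh, rfl⟩ := Finset.mem_image.mp ha
      exact ar_le K L T h (g h) (g' h) hL hK1 (hgg h hh)
    · intro a ha n hn
      obtain ⟨h, hh, rfl⟩ := Finset.mem_image.mp ha
      rw [qv_ar]
      exact ⟨(hgg h hh).sq n hn, low K L T h (g h) (g' h) hL hK3 hT (hgg h hh) n hn⟩
    · intro a ha
      obtain ⟨h, hh, rfl⟩ := Finset.mem_image.mp ha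
      rw [qa_ar]
      exact (hI h (hixne h hh)).2.1
    · intro a ha b hb hne hass
      obtain ⟨h, hh, rfl⟩ := Finset.mem_image.mp ha
      obtain ⟨h', hh', rfl⟩ := Finset.mem_image.mp hb
      rw [qa_ar, qa_ar] at hass
      apply hne
      congr 1
      apply hinj h hh h' hh'
      apply hAs h h' (hixne h hh) ?_ hass
      · exact ⟨n1, pos K L T h (g h) (g' h) hL hK3 hT (hgg h hh) n1 hn1,
          pos K L T h' (g h') (g' h') hL hK3 hT (hgg h' hh') n1 hn1⟩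
      · rw [← sq_abs (ix h'), hix h' hh', ← sq_abs (ix h), hix h hh]
  have hcard : (F.image ar).card = F.card := by
    apply Finset.card_image_of_injOn
    intro h hh h' hh' heq
    apply hinj h hh h' hh'
    intro n
    rw [← qv_ar, ← qv_ar]
    exact congrArg (fun a => qv a n) heq
  rw [hcard] at key
  refine key.trans ?_
  have h1 : K ^ ((32 : ℝ) / s) ≤ K ^ ε := Real.rpow_le_rpow_of_exponent_le hK1 hs2
  exact mul_le_mul hmono h1 (Real.rpow_nonneg hK0.le _) (by positivity)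

end Pool.Agent.HS.Ct
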