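import Pool.Agent.Lib.HS.Ct.Count
import Pool.Agent.Lib.HS.Ct.M2b
import Pool.Agent.Lib.HS.Ct.Irr
import Pool.Agent.Lib.HS.Ct.Ass

/-!
# PROJECT H* (MP_a54f13_nt), HS/Ct: the final statement

`m2e`: for every `ε > 0` the number of quadruples of integral matrices of given index (box data `AdmM`) with pairwise
different determinant forms which take square values at the points of a set in general position is `≤ C L^A K^ε`.
-/

set_option autoImplicit false

namespace Pool.Agent.HS.Ct

theorem m2e (ε : ℝ) (hε : 0 < ε) : M2eStmt ε := tM2b tIrr tAss tCount ε hε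

end Pool.Agent.HS.Ct
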