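import Mathlib

/-!
# PROJECT H* (MP_a54f13_nt), HS/Ct, module 4: Taylor polynomials of the square root, a real Siegel lemma

`sqrtTaylor`: polynomials of degree `< s` approximate `√(1 + δ)` up to `B |δ| ^ s`.
`siegelR`: `|Φ j i| ≤ 1`, `D = 2 |J| + 1` columns: integers `c_i`, not all zero, `|c_i| ≤ T`, with
`|∑ c_i Φ j i| ≤ 4 D / T` for all `j`.
-/

set_option autoImplicit false

namespace Pool.Agent.HS.Ct

open Polynomial Finset

theorem sqrtPol (s : ℕ) : ∃ P r : ℝ[X], P.natDegree < s + 1 ∧ P.eval 0 = 1 ∧ 1 + X - P ^ 2 = X ^ (s + 1) * r := by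
  induction s with
  | zero => exact ⟨1, 1, by simp, by simp, by ring⟩
  | succ s ih =>
    obtain ⟨P, r, h1, h2, h3⟩ := ih
    set b : ℝ := r.eval 0 / 2 with hb
    have h4 : (r - 2 * C b * P - C b ^ 2 * X ^ (s + 1)).eval 0 = 0 := by
      simp [h2, hb]; ring
    obtain ⟨r', hr'⟩ := dvd_iff_isRoot.mpr h4
    refine ⟨P + C b * X ^ (s + 1), r', ?_, ?_, ?_⟩
    · refine lt_of_le_of_lt (natDegree_add_le _ _) (max_lt (by omega) ?_)
      refine lt_of_le_of_lt (natDegree_C_mul_X_pow_le _ _) (by omega)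
    · simp [h2]
    · have h5 : X ^ (s + 1 + 1) * r' = X ^ (s + 1) * ((X - C 0) * r') := by
        rw [C_0, sub_zero]; ring
      rw [h5, ← hr']
      have h6 : X ^ (s + 1) * r = 1 + X - P ^ 2 := h3.symm
      calc 1 + X - (P + C b * X ^ (s + 1)) ^ 2
          = (1 + X - P ^ 2) - 2 * C b * P * X ^ (s + 1) - C b ^ 2 * (X ^ (s + 1)) ^ 2 := by ring
        _ = X ^ (s + 1) * r - 2 * C b * P * X ^ (s + 1) - C b ^ 2 * (X ^ (s + 1)) ^ 2 := by rw [h6]
        _ = _ := by ring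

/-- **Taylor polynomials of the square root.** -/
theorem sqrtTaylor (s : ℕ) : ∃ (b : ℕ → ℝ) (B d0 : ℝ), 1 ≤ B ∧ 0 < d0 ∧ d0 ≤ 1 / 2 ∧ (∀ t < s + 1, |b t| ≤ B) ∧
    ∀ d : ℝ, |d| ≤ d0 → |√(1 + d) - ∑ t ∈ range (s + 1), b t * d ^ t| ≤ B * |d| ^ (s + 1) := by
  obtain ⟨P, r, h1, h2, h3⟩ := sqrtPol s
  have hc : ContinuousAt (fun d : ℝ => P.eval d) 0 := P.continuous.continuousAt
  have hev : ∀ᶠ d in nhds (0 : ℝ), 0 < P.eval d := by
    have h0 : (0 : ℝ) < (fun d : ℝ => P.eval d) 0 := by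
      show 0 < P.eval 0
      rw [h2]; exact one_pos
    exact hc.eventually (lt_mem_nhds h0)
  obtain ⟨d1, hd1, hd2⟩ := Metric.eventually_nhds_iff.mp hev
  obtain ⟨M, hM⟩ := (isCompact_Icc (a := (-1 : ℝ)) (b := 1)).exists_bound_of_continuousOn
    (f := fun d => r.eval d) r.continuous.continuousOn
  set B : ℝ := 1 + 2 * |M| + ∑ t ∈ range (s + 1), |P.coeff t| with hB
  have hS : 0 ≤ ∑ t ∈ range (s + 1), |P.coeff t| := sum_nonneg fun _ _ => abs_nonneg _
  refine ⟨fun t => P.coeff t, B, min (d1 / 2) (1 / 2), ?_, ?_, min_le_right _ _, ?_, ?_⟩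
  · have := abs_nonneg M
    linarith
  · exact lt_min (by linarith) (by norm_num)
  · intro t ht
    have := single_le_sum (f := fun t => |P.coeff t|) (fun _ _ => abs_nonneg _) (mem_range.mpr ht)
    have h0 := abs_nonneg M
    have h5 : |P.coeff t| ≤ ∑ t ∈ range (s + 1), |P.coeff t| := this
    show |P.coeff t| ≤ B
    linarith
  · intro d hd
    have hda : |d| ≤ 1 / 2 := hd.trans (min_le_right _ _)
    have hdb : |d| < d1 := lt_of_le_of_lt (hd.trans (min_le_left _ _)) (by linarith)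
    have hd3 := abs_le.mp hda
    have hP : 0 < P.eval d := hd2 (by rwa [Real.dist_eq, sub_zero])
    have e1 : P.eval d = ∑ t ∈ range (s + 1), P.coeff t * d ^ t :=
      eval_eq_sum_range' h1 d
    rw [← e1]
    have h1d : (1 : ℝ) / 2 ≤ 1 + d := by linarith
    have e2 : √(1 + d) ^ 2 = 1 + d := Real.sq_sqrt (by linarith)
    have e3 : 1 / 2 ≤ √(1 + d) := by
      apply Real.le_sqrt_of_sq_le
      norm_num; linarith
    have e4 := congrArg (eval d) h3
    simp only [eval_sub, eval_add, eval_one, eval_X, eval_pow, eval_mul] at e4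
    have e5 : |√(1 + d) - P.eval d| * (√(1 + d) + P.eval d) = |d| ^ (s + 1) * |r.eval d| := by
      have h0 : 0 < √(1 + d) + P.eval d := by linarith
      rw [← abs_pow, ← abs_mul, ← e4]
      conv_lhs => rw [← abs_of_pos h0]
      rw [abs_of_pos h0, ← abs_of_pos h0, abs_of_pos h0]
      calc |√(1 + d) - P.eval d| * (√(1 + d) + P.eval d)
          = |√(1 + d) - P.eval d| * |√(1 + d) + P.eval d| := by rw [abs_of_pos h0]
        _ = |(√(1 + d) - P.eval d) * (√(1 + d) + P.eval d)| := (abs_mul _ _).symm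
        _ = _ := by
            congr 1
            linear_combination e2
    have e6 : |r.eval d| ≤ |M| := by
      have h := hM d ⟨by linarith, by linarith⟩
      rw [Real.norm_eq_abs] at h
      exact h.trans (le_abs_self M)
    have e7 : |√(1 + d) - P.eval d| * (1 / 2) ≤ |d| ^ (s + 1) * |M| := by
      calc |√(1 + d) - P.eval d| * (1 / 2) ≤ |√(1 + d) - P.eval d| * (√(1 + d) + P.eval d) := by
            apply mul_le_mul_of_nonneg_left _ (abs_nonneg _)
            linarith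
        _ = |d| ^ (s + 1) * |r.eval d| := e5
        _ ≤ _ := mul_le_mul_of_nonneg_left e6 (by positivity)
    have e8 : |√(1 + d) - P.eval d| ≤ (2 * |M|) * |d| ^ (s + 1) := by linarith
    refine e8.trans ?_
    apply mul_le_mul_of_nonneg_right _ (by positivity)
    linarith

/-- **A real Siegel lemma.** -/
theorem siegelR {J : Type*} [Fintype J] (D : ℕ) (hD : D = 2 * Fintype.card J + 1) (T : ℕ) (hT : 1 ≤ T)
    (Φ : J → Fin D → ℝ) (hΦ : ∀ j i, |Φ j i| ≤ 1) :
    ∃ c : Fin D → ℤ, (∃ i, c i ≠ 0) ∧ (∀ i, |c i| ≤ T) ∧ ∀ j, |∑ i, (c i : ℝ) * Φ j i| ≤ 4 * D / T := by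
  classical
  have hT0 : (0 : ℝ) < T := by exact_mod_cast hT
  have hDpos : 0 < D := by omega
  have hD0 : (0 : ℝ) < D := by exact_mod_cast hDpos
  set κ : ℝ := 4 * D / T with hκ
  have hκ0 : 0 < κ := by positivity
  let S : (Fin D → Fin (T + 1)) → J → ℝ := fun c j => ∑ i, ((c i : ℕ) : ℝ) * Φ j i
  have hS : ∀ c j, |S c j| ≤ D * T := by
    intro c j
    refine (abs_sum_le_sum_abs _ _).trans ?_
    calc ∑ i, |((c i : ℕ) : ℝ) * Φ j i| ≤ ∑ i : Fin D, (T : ℝ) := by
          refine sum_le_sum fun i _ => ?_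
          rw [abs_mul, abs_of_nonneg (Nat.cast_nonneg _)]
          have h1 : ((c i : ℕ) : ℝ) ≤ T := by exact_mod_cast Nat.lt_succ_iff.mp (c i).2
          calc ((c i : ℕ) : ℝ) * |Φ j i| ≤ T * 1 := mul_le_mul h1 (hΦ j i) (abs_nonneg _) hT0.le
            _ = T := mul_one _
      _ = D * T := by simp
  let F : (Fin D → Fin (T + 1)) → (J → ℤ) := fun c j => ⌊S c j / κ⌋
  -- the range
  set L : ℕ := ⌊(T : ℝ) ^ 2 / 4⌋₊ with hL
  have hFr : ∀ c ∈ (univ : Finset (Fin D → Fin (T + 1))), F c ∈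
      Fintype.piFinset (fun _ : J => Finset.Icc (-((L : ℤ) + 1)) (L : ℤ)) := by
    intro c _
    rw [Fintype.mem_piFinset]
    intro j
    rw [mem_Icc]
    have e1 : D * T / κ = (T : ℝ) ^ 2 / 4 := by
      rw [hκ]; field_simp
    have e2 : |S c j / κ| ≤ (T : ℝ) ^ 2 / 4 := by
      rw [abs_div, abs_of_pos hκ0, ← e1]
      exact div_le_div_of_nonneg_right (hS c j) hκ0.le
    have e3 := abs_le.mp e2
    have e4 : (T : ℝ) ^ 2 / 4 < L + 1 := Nat.lt_floor_add_one _
    constructor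
    · apply Int.le_floor.mpr
      push_cast
      linarith [e3.1]
    · have : (⌊S c j / κ⌋ : ℤ) < L + 1 := by
        apply Int.floor_lt.mpr
        push_cast
        linarith [e3.2]
      show (⌊S c j / κ⌋ : ℤ) ≤ L
      omega
  have hcard : (Fintype.piFinset (fun _ : J => Finset.Icc (-((L : ℤ) + 1)) (L : ℤ))).card <
      (univ : Finset (Fin D → Fin (T + 1))).card := by
    rw [Fintype.card_piFinset]
    simp only [Int.card_Icc, prod_const, card_univ, Fintype.card_pi, Fintype.card_fin]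
    have e1 : ((L : ℤ) + 1 - (-((L : ℤ) + 1))).toNat = 2 * L + 2 := by omega
    rw [e1]
    have e2 : 2 * L + 2 ≤ (T + 1) ^ 2 := by
      have h1 : (L : ℝ) ≤ (T : ℝ) ^ 2 / 4 := Nat.floor_le (by positivity)
      have h2 : ((2 * L + 2 : ℕ) : ℝ) ≤ (((T + 1) ^ 2 : ℕ) : ℝ) := by
        push_cast
        have h3 : (1 : ℝ) ≤ T := by exact_mod_cast hT
        nlinarith
      exact_mod_cast h2
    calc (2 * L + 2) ^ Fintype.card J ≤ ((T + 1) ^ 2) ^ Fintype.card J := Nat.pow_le_pow_left e2 _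
      _ = (T + 1) ^ (2 * Fintype.card J) := by rw [← pow_mul]
      _ < (T + 1) ^ D := by
          rw [hD]
          exact Nat.pow_lt_pow_right (by omega) (by omega)
  obtain ⟨c, -, c', -, hne, heq⟩ := exists_ne_map_eq_of_card_lt_of_maps_to hcard hFr
  refine ⟨fun i => ((c i : ℕ) : ℤ) - ((c' i : ℕ) : ℤ), ?_, ?_, ?_⟩
  · by_contra hno
    push Not at hno
    apply hne
    funext i
    have := hno i
    apply Fin.ext
    omega
  · intro i
    have h1 := (c i).2
    have h2 := (c' i).2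
    show |((c i : ℕ) : ℤ) - ((c' i : ℕ) : ℤ)| ≤ T
    rw [abs_le]
    constructor <;> omega
  · intro j
    have h1 : (∑ i, (((((c i : ℕ) : ℤ) - ((c' i : ℕ) : ℤ) : ℤ)) : ℝ) * Φ j i) = S c j - S c' j := by
      rw [← sum_sub_distrib]
      refine sum_congr rfl fun i _ => ?_
      push_cast; ring
    rw [h1]
    have h2 : (⌊S c j / κ⌋ : ℤ) = ⌊S c' j / κ⌋ := congrFun heq j
    have h3 := Int.abs_sub_lt_one_of_floor_eq_floor h2
    rw [← sub_div, abs_div, abs_of_pos hκ0, div_lt_one hκ0] at h3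
    exact h3.le

end Pool.Agent.HS.Ct
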