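import Pool.Agent.Lib.HS.Ct.Spec
import Pool.Agent.Lib.HS.Interp

/-!
# PROJECT H* (MP_a54f13_nt), part Ct, module Sel: selection of a bounded subset in general position
-/

set_option autoImplicit false

namespace Pool.Agent.HS.Ct

open MvPolynomial

namespace Sel_aux

theorem card_tuple (d D : ℕ) (h : d ≤ D) :
    (Finset.Nat.antidiagonalTuple 4 d).card ≤ (D + 1) ^ 4 := by
  classical
  have h1 : Finset.Nat.antidiagonalTuple 4 d ⊆ Fintype.piFinset (fun _ : Fin 4 => Finset.range (D + 1)) := by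
    intro t ht
    rw [Finset.Nat.mem_antidiagonalTuple] at ht
    rw [Fintype.mem_piFinset]
    intro l
    rw [Finset.mem_range]
    have h2 : t l ≤ ∑ i, t i := Finset.single_le_sum (fun i _ => Nat.zero_le (t i)) (Finset.mem_univ l)
    omega
  refine (Finset.card_le_card h1).trans ?_
  rw [Fintype.card_piFinset]
  simp

/-- one degree -/
theorem one (d D : ℕ) (h : d ≤ D) (S : Finset (Fin 4 → ℤ))
    (hS : ∀ F : MvPolynomial (Fin 4) ℚ, F.IsHomogeneous d → F ≠ 0 → ∃ n ∈ S, eval (fun l => (n l : ℚ)) F ≠ 0) :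
    ∃ T ⊆ S, T.card ≤ (D + 1) ^ 4 ∧
      ∀ F : MvPolynomial (Fin 4) ℚ, F.IsHomogeneous d → F ≠ 0 → ∃ n ∈ T, eval (fun l => (n l : ℚ)) F ≠ 0 := by
  classical
  let e := S.equivFin.symm
  let n : Fin S.card → Fin 4 → ℤ := fun i => (e i).1
  have hn : ∀ i, n i ∈ S := fun i => (e i).2
  have hsur : ∀ x ∈ S, ∃ i, n i = x := by
    intro x hx
    refine ⟨e.symm ⟨x, hx⟩, ?_⟩
    change (e (e.symm ⟨x, hx⟩)).1 = x
    rw [Equiv.apply_symm_apply]
  -- a bound for the coordinates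
  have hL : ∀ i l, |(n i l : ℝ)| ≤ ∑ x ∈ S, ∑ l, |(x l : ℝ)| := by
    intro i l
    refine le_trans ?_ (Finset.single_le_sum (f := fun x : Fin 4 → ℤ => ∑ l, |(x l : ℝ)|)
      (fun x _ => Finset.sum_nonneg fun l _ => abs_nonneg _) (hn i))
    exact Finset.single_le_sum (f := fun l : Fin 4 => |(n i l : ℝ)|) (fun l _ => abs_nonneg _)
      (Finset.mem_univ l)
  obtain ⟨b, α, -, -, -, hG⟩ := Pool.Agent.HS.interpForms (r := 4) (d := d) rfl n hL (by
    intro f hf h0
    by_contra hne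
    obtain ⟨x, hx, hx0⟩ := hS f hf hne
    obtain ⟨i, rfl⟩ := hsur x hx
    exact hx0 (h0 i))
  refine ⟨Finset.univ.image (fun j => n (b j)), ?_, ?_, ?_⟩
  · intro x hx
    rw [Finset.mem_image] at hx
    obtain ⟨j, -, rfl⟩ := hx
    exact hn (b j)
  · refine Finset.card_image_le.trans ?_
    rw [Finset.card_univ, Fintype.card_fin]
    exact card_tuple d D h
  · intro F hF hF0
    obtain ⟨x, hx, hx0⟩ := hS F hF hF0
    obtain ⟨i, rfl⟩ := hsur x hx
    by_contra hcon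
    push Not at hcon
    apply hx0
    rw [hG F hF i]
    refine Finset.sum_eq_zero fun j _ => ?_
    rw [hcon _ (Finset.mem_image_of_mem _ (Finset.mem_univ j)), mul_zero]

end Sel_aux

theorem tSel : SelStmt := by
  classical
  intro D S hS
  have h1 : ∀ d : ℕ, ∃ T ⊆ S, T.card ≤ (D + 1) ^ 4 ∧ (d ≤ D →
      ∀ F : MvPolynomial (Fin 4) ℚ, F.IsHomogeneous d → F ≠ 0 →
        ∃ n ∈ T, eval (fun l => (n l : ℚ)) F ≠ 0) := by
    intro d
    by_cases hd : d ≤ D
    · obtain ⟨T, hT, hc, hg⟩ := Sel_aux.one d D hd S (hS d hd)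
      exact ⟨T, hT, hc, fun _ => hg⟩
    · exact ⟨∅, Finset.empty_subset _, by simp, fun h => absurd h hd⟩
  choose T hT hc hg using h1
  refine ⟨(Finset.range (D + 1)).biUnion T, ?_, ?_, ?_⟩
  · exact Finset.biUnion_subset.2 fun d _ => hT d
  · refine Finset.card_biUnion_le.trans ?_
    refine (Finset.sum_le_card_nsmul _ _ _ fun d _ => hc d).trans ?_
    rw [Finset.card_range, smul_eq_mul]
    exact le_of_eq (by ring)
  · intro d hd F hF hF0
    obtain ⟨n, hn, hn0⟩ := hg d hd F hF hF0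
    exact ⟨n, Finset.mem_biUnion.2 ⟨d, Finset.mem_range.2 (by omega), hn⟩, hn0⟩

end Pool.Agent.HS.Ct
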