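import Mathlib

/-!
# PROJECT H* (MP_a54f13_nt), part Ct: the number of quaternary forms with many square values (note 4689)

Sub-architects helper94 and helper72.  Every statement `XStmt` below is proved in its own module
`Pool/Agent/Lib/HS/Ct/X.lean` (theorem `Pool.Agent.HS.Ct.tX : XStmt`), the complete proof is in the docstring.
The final statements are `CtStmt` (forms) and `M2Stmt` (quadruples of integral matrices).

Notation: `K` is the length of the boxes (`K = w ^ (-1/2)`), `L = P ^ C` absorbs all small losses.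
The forms `Q` are `(a·n)(a'·n) - (b·n)(b'·n)` with long `a, a'` (length `K`) and short `b, b'` (length `1/K`),
and `Q(n) = m(n)²` at all points `n` of a finite set `T` of bounded integral points in general position.
Then `m ≈ √((a·n)(a'·n))`, which is linear in `(a, a')` up to a small error on cells of side `√K`, so sums of `h`
square roots in one cell lie in few boxes; two equal sums give a linear relation between square roots of forms,
impossible at points in general position.  So a cell contains few forms.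
-/

set_option autoImplicit false

namespace Pool.Agent.HS.Ct

open MvPolynomial

/-- value of a real linear form at an integral point -/
def dt (a : Fin 4 → ℝ) (n : Fin 4 → ℤ) : ℝ := ∑ l, a l * (n l : ℝ)

/-- `T` is in general position for homogeneous forms of degree at most `D`: no nonzero form of degree `≤ D`
vanishes at all points of `T` (degree `0`: `T` is not empty). -/
def GP (D : ℕ) (T : Finset (Fin 4 → ℤ)) : Prop :=
  ∀ d ≤ D, ∀ F : MvPolynomial (Fin 4) ℚ, F.IsHomogeneous d → F ≠ 0 →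
    ∃ n ∈ T, eval (fun l => (n l : ℚ)) F ≠ 0

/-- The data of one form. -/
structure Adm (K L : ℝ) (T : Finset (Fin 4 → ℤ)) (Q : MvPolynomial (Fin 4) ℚ) (m : (Fin 4 → ℤ) → ℕ)
    (a a' b b' : Fin 4 → ℝ) : Prop where
  hom : Q.IsHomogeneous 2
  irr : Irreducible Q
  sq : ∀ n ∈ T, eval (fun l => (n l : ℚ)) Q = (m n : ℚ) ^ 2
  dec : ∀ n ∈ T, (m n : ℝ) ^ 2 = dt a n * dt a' n - dt b n * dt b' n
  bda : ∀ l, |a l| ≤ K * L
  bda' : ∀ l, |a' l| ≤ K * L
  bdb : ∀ l, |b l| ≤ L / K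
  bdb' : ∀ l, |b' l| ≤ L / K
  lba : ∀ n ∈ T, K / L ≤ dt a n
  lba' : ∀ n ∈ T, K / L ≤ dt a' n

/-! ## Real variable lemmas -/

/-- **Lnr** (exact linearisation of the geometric mean).
PROOF. Put `s = √(v0/u0)`; `s² = v0/u0 ∈ [1/(4L³), 4L³]`, hence `s ≤ 2L²` and `1/s ≤ 2L²` (as `L ≥ 1`), and
`u0 s = v0/s`. So `u s - v/s = (u - u0) s - (v - v0)/s` and
`|u s - v/s| ≤ 4LH·2L² + 28L²H·2L² ≤ 64 L⁴ H`.
With `x = u s`, `y = v/s` (both positive, `x y = u v`): `(x + y)/2 - √(x y) = (√x - √y)²/2 = (x-y)²/(2(√x+√y)²)`,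
which lies between `0` and `(x-y)²/(2(x+y))`, since `(√x+√y)² ≥ x + y`. Here `x + y ≥ (K/L)(s + 1/s) ≥ 2K/L`. So
`|(x+y)/2 - √(uv)| ≤ (64L⁴H)²·L/(4K) = 1024 L⁹H²/K`.
(Without square roots of `x`, `y`: with `z = √(uv) ≥ 0`, `((x+y)/2 - z)((x+y)/2 + z) = (x-y)²/4` and
`(x+y)/2 + z ≥ (x+y)/2 ≥ K/L`, this gives the same bound up to a factor 2, which is enough.)
Finally `(z - m)(z + m) = u v - m² = w`, `z ≥ K/L`, `m ≥ 0`: `|z - m| ≤ |w|·L/K ≤ 16L⁵/K³`. -/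
def LnrStmt : Prop :=
  ∀ K L H u v u0 v0 w m : ℝ, 1 ≤ K → 1 ≤ L → 0 ≤ H → K / L ≤ u → K / L ≤ v → K / L ≤ u0 → K / L ≤ v0 →
    u0 ≤ 4 * K * L ^ 2 → v0 ≤ 4 * K * L ^ 2 → |u - u0| ≤ 4 * L * H → |v - v0| ≤ 28 * L ^ 2 * H →
    |w| ≤ 16 * L ^ 4 / K ^ 2 → 0 ≤ m → m ^ 2 = u * v - w →
    |m - (u * √(v0 / u0) + v / √(v0 / u0)) / 2| ≤ 2048 * L ^ 11 * H ^ 2 / K + 16 * L ^ 5 / K ^ 3

/-- **Gc** (gauge control: the eighth coordinate).
`α, α'` are differences (or differences of sums) of data with the gauge condition at `n1`.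
PROOF. `α'_c n1_c = dt α n1 - ∑_{l ≠ c} α'_l n1_l`, `|n1_c| ≥ 1`, so `|α'_c| ≤ 4ηL + 3ηL = 7Lη`; the others are
`≤ η ≤ 7Lη`. (Use `Fin.sum_univ_succAbove _ c` for the sum over `l`.) Then `|dt α n| ≤ 4ηL`,
`|dt α' n| ≤ 4·7Lη·L = 28L²η`. -/
def GcStmt : Prop :=
  ∀ (L η : ℝ) (α α' : Fin 4 → ℝ) (n1 : Fin 4 → ℤ) (c : Fin 4), 1 ≤ L → 0 ≤ η → (∀ l, |(n1 l : ℝ)| ≤ L) → n1 c ≠ 0 →
    dt α n1 = dt α' n1 → (∀ l, |α l| ≤ η) → (∀ k : Fin 3, |α' (c.succAbove k)| ≤ η) →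
    ∀ n : Fin 4 → ℤ, (∀ l, |(n l : ℝ)| ≤ L) → |dt α n| ≤ 4 * L * η ∧ |dt α' n| ≤ 28 * L ^ 2 * η

/-- **Gau** (choice of the gauge).
PROOF. `u = dt a n1`, `v = dt a' n1` lie in `[K/L, 4KL²]` (`|n1 l| ≤ L`, four coordinates). `lam = √(v/u)`, so
`lam ≤ 2L²` and `1/lam ≤ 2L²` (`v/u ≤ 4L³ ≤ 4L⁴`). Take `a1 = lam • a`, `a1' = lam⁻¹ • a'`. Then
`dt a1 n1 = lam u = √(uv) = v/lam = dt a1' n1`; `dt a1 n · dt a1' n = dt a n · dt a' n`;
`|a1 l| ≤ 2L²·KL = K·(2L³)`; `dt a1 n = lam · dt a n ≥ (K/L)/(2L²) = K/(2L³)`; `|b l| ≤ L/K ≤ 2L³/K`. -/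
def GauStmt : Prop :=
  ∀ (K L : ℝ) (T : Finset (Fin 4 → ℤ)) (Q : MvPolynomial (Fin 4) ℚ) (m : (Fin 4 → ℤ) → ℕ)
    (a a' b b' : Fin 4 → ℝ) (n1 : Fin 4 → ℤ), 1 ≤ K → 1 ≤ L → (∀ n ∈ T, ∀ l, |(n l : ℝ)| ≤ L) → n1 ∈ T →
    Adm K L T Q m a a' b b' →
    ∃ a1 a1' : Fin 4 → ℝ, Adm K (2 * L ^ 3) T Q m a1 a1' b b' ∧ dt a1 n1 = dt a1' n1

/-- **Flo** (pigeonhole in `ℝ ^ k` by cubes of side `η`).
PROOF. Map `x ∈ s` to `g x = fun j => ⌊f x j / η⌋` in the finite set `Fintype.piFinset (fun _ => Icc ⌊-R/η⌋ ⌊R/η⌋)`, which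
has `(⌊R/η⌋ - ⌊-R/η⌋ + 1)^k ≤ (2R/η + 2)^k` elements (`⌊-R/η⌋ > -R/η - 1`). A fibre `t` of `g` satisfies
`|f x j - f y j| ≤ η` for all `x, y ∈ t` (two reals with the same floor differ by less than `1`), so it has at most `N`
elements. Sum over the fibres (`Finset.card_eq_sum_card_fiberwise`, or `Finset.card_le_mul_card_image` style). -/
def FloStmt : Prop :=
  ∀ (k : ℕ) (α : Type) (s : Finset α) (f : α → Fin k → ℝ) (R η N : ℝ), 0 ≤ R → 0 < η → 0 ≤ N →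
    (∀ x ∈ s, ∀ j, |f x j| ≤ R) →
    (∀ t ⊆ s, (∀ x ∈ t, ∀ y ∈ t, ∀ j, |f x j - f y j| ≤ η) → (t.card : ℝ) ≤ N) →
    (s.card : ℝ) ≤ (2 * R / η + 2) ^ k * N

/-- **Chs** (from a binomial coefficient to the number).
PROOF. If `N < h` then `N ≤ h` and the right side is `≥ h`. If `N ≥ h`: Mathlib's `Nat.pow_le_choose` gives
`(N + 1 - h)^h / h! ≤ choose N h`, so `(N + 1 - h)^h ≤ h! X ≤ h^h X` (`Nat.factorial_le_pow`), take `h`-th roots:
`N + 1 - h ≤ h X^(1/h)` (`Real.rpow_natCast`, `Real.rpow_mul`, monotonicity). -/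
def ChsStmt : Prop :=
  ∀ (h N : ℕ) (X : ℝ), 1 ≤ h → 0 ≤ X → (N.choose h : ℝ) ≤ X → (N : ℝ) ≤ h * (X ^ ((1 : ℝ) / h) + 1)

/-! ## Algebra -/

/-- **Nrm** (the norm polynomial of a relation between square roots; helper72).
PROOF. `F = ℚ(x_0, .., x_3)`, choose `s_i` with `s_i² = Q_i` in an algebraic closure. A product of a nonempty set of
pairwise non-associated irreducible polynomials is not a square in `F`, so the `s_i` (`i ∈ E`) are linearly independent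
over `F` (`Ct/Lin.lean`), and for all signs `δ : E → {1, -1}` the sum `∑ δ_i s_i` is not `0` (`E` is not empty). The
product of all these sums over `δ` is invariant under all sign changes `s_i → -s_i`, so it is a polynomial in the
`Q_i`: take in `MvPolynomial E ℚ` (variables `y_i`) the polynomial `N = ∏_δ (∑ δ_i y_i)`, it is homogeneous of degree
`2^|E|`, even in every variable, so `N = G(y_i²)`; `Ψ = G(Q_i)` is homogeneous of degree `2^|E|` (weights `2` for the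
variables of `G`), `Ψ = N(s_i) ≠ 0`, and if `m_i² = Q_i(x)` then `Ψ(x) = N(m_i)`, which contains the factor
`∑ ε_i m_i = 0`. -/
def NrmStmt : Prop :=
  ∀ (ι : Type) (E : Finset ι) (Q : ι → MvPolynomial (Fin 4) ℚ) (ε : ι → ℚ), E.Nonempty →
    (∀ i ∈ E, (Q i).IsHomogeneous 2) → (∀ i ∈ E, Irreducible (Q i)) →
    (∀ i ∈ E, ∀ j ∈ E, i ≠ j → ¬ Associated (Q i) (Q j)) → (∀ i ∈ E, ε i = 1 ∨ ε i = -1) →
    ∃ Ψ : MvPolynomial (Fin 4) ℚ, Ψ ≠ 0 ∧ Ψ.IsHomogeneous (2 ^ E.card) ∧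
      ∀ (x : Fin 4 → ℚ) (m : ι → ℚ), (∀ i ∈ E, m i ^ 2 = eval x (Q i)) → ∑ i ∈ E, ε i * m i = 0 → eval x Ψ = 0

/-- the determinant form `det (∑ x_l h_l)` of four integral matrices, as a polynomial -/
noncomputable def qfP (h : Fin 4 → Matrix (Fin 2) (Fin 2) ℤ) : MvPolynomial (Fin 4) ℚ :=
  (∑ l, C (h l 0 0 : ℚ) * X l) * (∑ l, C (h l 1 1 : ℚ) * X l) -
    (∑ l, C (h l 0 1 : ℚ) * X l) * (∑ l, C (h l 1 0 : ℚ) * X l)

/-- the determinant form at an integral point -/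
def qf (h : Fin 4 → Matrix (Fin 2) (Fin 2) ℤ) (n : Fin 4 → ℤ) : ℤ := (∑ l, n l • h l).det

/-- the `4 × 4` determinant of four integral matrices -/
def ix (h : Fin 4 → Matrix (Fin 2) (Fin 2) ℤ) : ℤ :=
  (Matrix.of ![![h 0 0 0, h 0 0 1, h 0 1 0, h 0 1 1], ![h 1 0 0, h 1 0 1, h 1 1 0, h 1 1 1],
    ![h 2 0 0, h 2 0 1, h 2 1 0, h 2 1 1], ![h 3 0 0, h 3 0 1, h 3 1 0, h 3 1 1]]).det

/-- **Irr** (the determinant form of a basis of `M_2` is irreducible).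
PROOF. Homogeneity: `qfP h` is a difference of products of two homogeneous forms of degree `1`. Values: `eval` of the four
linear forms. Irreducibility: as `ix h ≠ 0` the linear map `x ↦ ∑ x_l h_l` is an automorphism of `ℚ⁴ = M_2(ℚ)`, the
substitution is an automorphism of `MvPolynomial (Fin 4) ℚ`, so it is enough that `y0 y3 - y1 y2` is irreducible.
(Alternative without the automorphism: a nontrivial factorisation of a form of degree `2` is a product of two linear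
forms `A B` (a factor of a homogeneous polynomial is homogeneous: `MvPolynomial.IsHomogeneous` lemmas, or compare total
degrees and take the top components: if `Q = F G` with `Q` homogeneous of degree `2`, neither a unit, then both have
total degree `1`, and the components of degree `1` satisfy `Q = F1 G1`). Over `ℚ` (field, infinite) there are
`x ≠ 0` in the common zero set of `A`, `B` (dimension `≥ 2`), and at such `x` all polars vanish:
`Q(x + y) - Q(x) - Q(y) = A(x)B(y) + A(y)B(x) = 0` for all `y`; but the polar of `det` is nondegenerate and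
`r = ∑ x_l h_l ≠ 0`: a contradiction.) -/
def IrrStmt : Prop :=
  ∀ h : Fin 4 → Matrix (Fin 2) (Fin 2) ℤ, ix h ≠ 0 →
    (qfP h).IsHomogeneous 2 ∧ Irreducible (qfP h) ∧
    ∀ n : Fin 4 → ℤ, eval (fun l => (n l : ℚ)) (qfP h) = (qf h n : ℚ)

/-- **Ass** (associated determinant forms of the same index with a common positive value are equal).
PROOF. Associated polynomials over the field `ℚ` differ by a unit of `MvPolynomial`, a constant `c ≠ 0`
(`MvPolynomial.isUnit_iff_eq_C_of_isReduced` or similar): `qfP h' = C c * qfP h`, hence `qf h' n = c qf h n` for all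
integral `n`, and `c > 0` by the common positive value. The polar forms satisfy
`B_{h'} = c B_h`, `B_h(n, n') = qf h (n + n') - qf h n - qf h n'`. The Gram matrix
`G_h = (B_h(e_i, e_j))_{ij}` equals `M J Mᵀ`, with `M` the matrix of `ix h` and `J` the matrix of
`r00 r11' + r11 r00' - r01 r10' - r10 r01'`, `det J = 1`. So `det G_h = (ix h)²` and `(ix h')² = c⁴ (ix h)²`, `c⁴ = 1`,
`c = 1`. -/
def AssStmt : Prop :=
  ∀ h h' : Fin 4 → Matrix (Fin 2) (Fin 2) ℤ, ix h ≠ 0 → ix h' ^ 2 = ix h ^ 2 → Associated (qfP h) (qfP h') →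
    (∃ n, 0 < qf h n ∧ 0 < qf h' n) → ∀ n, qf h n = qf h' n

/-! ## One cell -/

/-- **Eq** (two sets of `h` forms of one cell with close sums have equal sums of square roots).
`η = 1/(128 L⁴)`.
PROOF. Fix `n ∈ T` and `i0 ∈ ι` (if `ι` is empty then `S = S' = ∅`, both sums are `0`). Put `u0 = dt (a i0) n`,
`v0 = dt (a' i0) n`, `s = √(v0/u0)` and `lin i = (dt (a i) n · s + dt (a' i) n / s)/2`. By `GcStmt` applied to
`α = a i - a i0`, `α' = a' i - a' i0` (`η := H`) and `LnrStmt` (with `w = dt b n · dt b' n`,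
`|w| ≤ (4 L·L/K)² = 16L⁴/K²`; `u0 ≤ 4·KL·L`), `|m i n - lin i| ≤ E`, `E = 2048 L¹¹H²/K + 16L⁵/K³ ≤ 1/(8h) + 1/(8h) = 1/(4h)`
for every `i`. So `|∑_S m - ∑_S lin| ≤ h E ≤ 1/4`, the same for `S'`. By `GcStmt` applied to
`α = ∑_S a i - ∑_S' a i`, `α' = ∑_S a' i - ∑_S' a' i` (gauge condition by linearity of `dt`) with `η = 1/(128L⁴)`:
`|∑_S lin - ∑_S' lin| ≤ (4Lη·2L² + 28L²η·2L²)/2 ≤ 32 L⁴ η = 1/4` (`s ≤ 2L²`, `1/s ≤ 2L²` as in `LnrStmt`). So the
integers `∑_S m`, `∑_S' m` differ by at most `3/4 < 1`: equal. -/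
def EqStmt : Prop :=
  ∀ (h : ℕ) (K L H : ℝ) (T : Finset (Fin 4 → ℤ)) (n1 : Fin 4 → ℤ) (c : Fin 4), 1 ≤ h → 1 ≤ K → 1 ≤ L → 0 ≤ H →
    (∀ n ∈ T, ∀ l, |(n l : ℝ)| ≤ L) → n1 ∈ T → n1 c ≠ 0 →
    2 ^ 14 * h * L ^ 11 * H ^ 2 ≤ K → 128 * h * L ^ 5 ≤ K ^ 3 →
    ∀ (ι : Type) (B : Finset ι) (Q : ι → MvPolynomial (Fin 4) ℚ) (m : ι → (Fin 4 → ℤ) → ℕ)
      (a a' b b' : ι → Fin 4 → ℝ),
      (∀ i ∈ B, Adm K L T (Q i) (m i) (a i) (a' i) (b i) (b' i)) → (∀ i ∈ B, dt (a i) n1 = dt (a' i) n1) →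
      (∀ i ∈ B, ∀ j ∈ B, ∀ l, |a i l - a j l| ≤ H) →
      (∀ i ∈ B, ∀ j ∈ B, ∀ k : Fin 3, |a' i (c.succAbove k) - a' j (c.succAbove k)| ≤ H) →
      ∀ S ⊆ B, ∀ S' ⊆ B, S.card = h → S'.card = h →
        (∀ l, |∑ i ∈ S, a i l - ∑ i ∈ S', a i l| ≤ 1 / (128 * L ^ 4)) →
        (∀ k : Fin 3, |∑ i ∈ S, a' i (c.succAbove k) - ∑ i ∈ S', a' i (c.succAbove k)| ≤ 1 / (128 * L ^ 4)) →
        ∀ n ∈ T, ∑ i ∈ S, m i n = ∑ i ∈ S', m i n

/-- **Dis** (equal sums of square roots at points in general position: equal sets).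
The hypothesis `NrmStmt` is part of the statement (do not import its module).
PROOF. Suppose `S ≠ S'`. `E = (S \ S') ∪ (S' \ S)` is not empty and has at most `2h` elements; `ε i = 1` on `S \ S'` and
`-1` otherwise. Then `∑_{i ∈ E} ε_i m_i(n) = ∑_S m - ∑_S' m = 0` for `n ∈ T` (the common part cancels), and
`m_i(n)² = Q_i(n)`. `NrmStmt` gives `Ψ ≠ 0` homogeneous of degree `2^|E| ≤ 4^h` vanishing at all points of `T`:
contradiction with `GP (4^h) T`. -/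
def DisStmt : Prop :=
  NrmStmt → ∀ (h : ℕ) (T : Finset (Fin 4 → ℤ)), GP (4 ^ h) T →
    ∀ (ι : Type) (B : Finset ι) (Q : ι → MvPolynomial (Fin 4) ℚ) (m : ι → (Fin 4 → ℤ) → ℕ),
      (∀ i ∈ B, (Q i).IsHomogeneous 2) → (∀ i ∈ B, Irreducible (Q i)) →
      (∀ i ∈ B, ∀ j ∈ B, i ≠ j → ¬ Associated (Q i) (Q j)) →
      (∀ i ∈ B, ∀ n ∈ T, eval (fun l => (n l : ℚ)) (Q i) = (m i n : ℚ) ^ 2) →
      ∀ S ⊆ B, ∀ S' ⊆ B, S.card = h → S'.card = h → (∀ n ∈ T, ∑ i ∈ S, m i n = ∑ i ∈ S', m i n) → S = S'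

/-- **Cel** (the number of forms in one cell of side `H`).
PROOF. If `B` is empty: `choose 0 h = 0` (`h ≥ 1`). Otherwise fix `i0 ∈ B`. Apply `FloStmt` with `k = 4 + 3`,
`s = B.powersetCard h`, `f S = Fin.append (fun l => ∑_{i∈S} (a i l - a i0 l)) (fun k => ∑_{i∈S} (a' i (c.succAbove k) - a' i0 (c.succAbove k)))`,
`R = h H`, `η = 1/(128L⁴)`, `N = 1`: if all elements of `t ⊆ s` have coordinates within `η`, then for `S, S' ∈ t` the sums
`∑_S a i l - ∑_S' a i l` are the differences of coordinates (`|S| = |S'| = h`, the terms `h a i0 l` cancel), so `EqStmt`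
and `DisStmt` give `S = S'`: `t.card ≤ 1`. Result: `choose |B| h ≤ (2hH·128L⁴ + 2)^7`. -/
def CelStmt : Prop :=
  EqStmt → DisStmt → NrmStmt → FloStmt →
  ∀ (h : ℕ) (K L H : ℝ) (T : Finset (Fin 4 → ℤ)) (n1 : Fin 4 → ℤ) (c : Fin 4), 1 ≤ h → 1 ≤ K → 1 ≤ L → 0 ≤ H →
    (∀ n ∈ T, ∀ l, |(n l : ℝ)| ≤ L) → n1 ∈ T → n1 c ≠ 0 → GP (4 ^ h) T →
    2 ^ 14 * h * L ^ 11 * H ^ 2 ≤ K → 128 * h * L ^ 5 ≤ K ^ 3 →
    ∀ (ι : Type) (B : Finset ι) (Q : ι → MvPolynomial (Fin 4) ℚ) (m : ι → (Fin 4 → ℤ) → ℕ)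
      (a a' b b' : ι → Fin 4 → ℝ),
      (∀ i ∈ B, Adm K L T (Q i) (m i) (a i) (a' i) (b i) (b' i)) → (∀ i ∈ B, dt (a i) n1 = dt (a' i) n1) →
      (∀ i ∈ B, ∀ j ∈ B, i ≠ j → ¬ Associated (Q i) (Q j)) →
      (∀ i ∈ B, ∀ j ∈ B, ∀ l, |a i l - a j l| ≤ H) →
      (∀ i ∈ B, ∀ j ∈ B, ∀ k : Fin 3, |a' i (c.succAbove k) - a' j (c.succAbove k)| ≤ H) →
      (B.card.choose h : ℝ) ≤ (256 * h * L ^ 4 * H + 2) ^ 7

/-! ## The count -/

/-- **Ct** (the number of forms; final statement for forms).  `4 ^ h = 2 ^ (2h)` is the degree of the norm polynomial.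
For `h = 14` the exponent is `3.75`, for `h = 8` it is `3.9375`. The constants depend only on `h`. -/
def CtStmt : Prop :=
  ∀ h : ℕ, 1 ≤ h → ∃ C A : ℕ, ∀ (K L : ℝ) (T : Finset (Fin 4 → ℤ)), 1 ≤ L → C * L ^ A ≤ K →
    (∀ n ∈ T, ∀ l, |(n l : ℝ)| ≤ L) → GP (4 ^ h) T →
    ∀ (ι : Type) (B : Finset ι) (Q : ι → MvPolynomial (Fin 4) ℚ) (m : ι → (Fin 4 → ℤ) → ℕ)
      (a a' b b' : ι → Fin 4 → ℝ),
      (∀ i ∈ B, Adm K L T (Q i) (m i) (a i) (a' i) (b i) (b' i)) →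
      (∀ i ∈ B, ∀ j ∈ B, i ≠ j → ¬ Associated (Q i) (Q j)) →
      (B.card : ℝ) ≤ C * L ^ A * K ^ ((7 : ℝ) / 2 + 7 / (2 * h))

/-- **Cnt** (assembly of `CtStmt`).
PROOF. `A = 147`, `C` large in terms of `h` (at least `128·32·h` and the constant below). `T` is not empty (`GP` with
`d = 0`, `F = 1`), let `n1 ∈ T`. If `B` is empty: clear. Otherwise `dt (a i) n1 ≥ K/L > 0` gives `c` with `n1 c ≠ 0`. By
`GauStmt` (choice, for `i ∈ B`) replace `a, a'` by gauged data with `M = 2L³` in place of `L` (the bounds `|n l| ≤ L ≤ M`).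
Put `H = √(K/(2^14 h M^11)) > 0`, so `2^14 h M^11 H² = K`; `128 h M⁵ ≤ K ≤ K³` by `C L^A ≤ K`. Apply `FloStmt` with
`k = 4 + 3`, `s = B`, `f i = Fin.append (a i) (fun k => a' i (c.succAbove k))`, `R = K M`, `η = H`,
`N = h ((X)^(1/h) + 1)`, `X = (256 h M⁴ H + 2)^7`, the hypothesis for a subset `t` being `CelStmt` for `t` followed by
`ChsStmt`. Result: `|B| ≤ (2KM/H + 2)^7 · h (X^(1/h) + 1)`.
Numbers: `H = √K/(128 √h M^(11/2))`. `256 h M⁴ H = 2√h √K M^(-3/2) ≤ 2h√K`, so `X ≤ (4h√K)^7` (`K ≥ 1`) and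
`X^(1/h) + 1 ≤ (4h)^7 K^(7/(2h)) + 1 ≤ (4h)^8 K^(7/(2h))`. `KM/H = 128 √h M^(13/2) √K ≤ 128 h M⁷ √K`, so
`(2KM/H+2)^7 ≤ (258 h M⁷√K)^7 = (258h)^7 M^49 K^(7/2)`, `M^49 = 2^49 L^147`. Product:
`|B| ≤ (258h)^7 2^49 h (4h)^8 · L^147 · K^(7/2 + 7/(2h))`.
(To avoid real powers of `M`: it is enough to know `H ≤ √K` and `K ≤ H · 128 h M⁶·√K`, both from `2^14 h M^11 H² = K`;
e.g. `(128 h M⁶ H)² ≥ 2^14 h M^11 H² = K`.) -/
def CntStmt : Prop :=
  GauStmt → CelStmt → EqStmt → DisStmt → NrmStmt → FloStmt → ChsStmt → CtStmt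

/-! ## Quadruples of integral matrices -/

/-- The data of one quadruple `h` of integral matrices for a pair of cells: `g (h l) g'` has long diagonal and short
antidiagonal entries. -/
structure AdmM (K L : ℝ) (T : Finset (Fin 4 → ℤ)) (h : Fin 4 → Matrix (Fin 2) (Fin 2) ℤ)
    (g g' : Matrix (Fin 2) (Fin 2) ℝ) : Prop where
  dg : g.det = 1
  dg' : g'.det = 1
  b00 : ∀ l, |(g * (h l).map (Int.cast : ℤ → ℝ) * g') 0 0| ≤ K * L
  b11 : ∀ l, |(g * (h l).map (Int.cast : ℤ → ℝ) * g') 1 1| ≤ K * L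
  b01 : ∀ l, |(g * (h l).map (Int.cast : ℤ → ℝ) * g') 0 1| ≤ L / K
  b10 : ∀ l, |(g * (h l).map (Int.cast : ℤ → ℝ) * g') 1 0| ≤ L / K
  l00 : ∀ n ∈ T, K / L ≤ (g * (∑ l, n l • h l).map (Int.cast : ℤ → ℝ) * g') 0 0
  l11 : ∀ n ∈ T, K / L ≤ (g * (∑ l, n l • h l).map (Int.cast : ℤ → ℝ) * g') 1 1
  sq : ∀ n ∈ T, IsSquare (qf h n)

/-- **M2** (the number of determinant forms; final statement for matrices).  `F` is a finite set of quadruples of the
same index `I ≥ 1` with pairwise different determinant forms. -/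
def M2Stmt : Prop :=
  ∀ h0 : ℕ, 1 ≤ h0 → ∃ C A : ℕ, ∀ (K L : ℝ) (T : Finset (Fin 4 → ℤ)) (I : ℕ), 1 ≤ L → C * L ^ A ≤ K → 1 ≤ I →
    (∀ n ∈ T, ∀ l, |(n l : ℝ)| ≤ L) → GP (4 ^ h0) T →
    ∀ F : Finset (Fin 4 → Matrix (Fin 2) (Fin 2) ℤ),
      (∀ h ∈ F, |ix h| = I) → (∀ h ∈ F, ∃ g g', AdmM K L T h g g') →
      (∀ h ∈ F, ∀ h' ∈ F, (∀ n, qf h n = qf h' n) → h = h') →
      (F.card : ℝ) ≤ C * L ^ A * K ^ ((7 : ℝ) / 2 + 7 / (2 * h0))

/-- **Mat** (`M2Stmt` from `CtStmt`).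
PROOF. The same `C, A` (increase `C` to be `≥ 4`, `A ≥ 3`). Apply `CtStmt` to `ι = Fin 4 → Matrix (Fin 2) (Fin 2) ℤ`, `B = F`,
`Q h = qfP h`, `a h l = (g h_l g')_{00}`, `a' = 11`, `b = 01`, `b' = 10`, `m h n = √(qf h n)` (natural number with
`m² = qf h n`, from `IsSquare`). `Adm`: `hom`, `irr`, `sq` from `IrrStmt`; `dec`:
`det (g r g') = det r` for `r = ∑ n_l h_l`, and `(g r g')_{00} = ∑ n_l (g h_l g')_{00} = dt a n` (linearity; `map` of a sum and of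
`n l • h l`). Not associated: by `AssStmt`, if `qfP h`, `qfP h'` are associated then `qf h = qf h'` (indices `± I`; common
positive value at `n1 ∈ T`: `qf h n1` is a square and `≠ 0`, because
`qf h n1 = dt a n1 · dt a' n1 - dt b n1 · dt b' n1 ≥ K²/L² - 16 L⁴/K² > 0` for `K ≥ 4L³`), so `h = h'`. -/
def MatStmt : Prop :=
  IrrStmt → AssStmt → CtStmt → M2Stmt

/-! ## Selection of a bounded subset -/

/-- **Sel** (general position is decided on a subset of bounded size).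
PROOF. For every degree `d ≤ D` the values of the forms of degree `d` at the points of `S`: the vectors of monomials
`(∏ n_l^{t_l})_t`, `t` in the finite set of exponents of degree `d`, span `ℚ^N` (`N` = number of exponents), because a
form vanishing on `S` is `0`; choose `N` points of `S` whose vectors are a basis (`Interp.exists_base`, `eval_form` in
`Pool/Agent/Lib/HS/Interp.lean`; or by induction on the dimension of the space of forms of degree `d` vanishing on the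
chosen points: if it is not `0` a further point of `S` lowers the dimension). `T` is the union over `d ≤ D` of the
chosen sets: at most `(D+1)·(D+1)^4` points (`N ≤ (D+1)^4`). -/
def SelStmt : Prop :=
  ∀ (D : ℕ) (S : Finset (Fin 4 → ℤ)), GP D S → ∃ T ⊆ S, T.card ≤ (D + 1) ^ 5 ∧ GP D T

end Pool.Agent.HS.Ct
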