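import Pool.Agent.Lib.HS.Ct.Spec

/-!
# PROJECT H* (MP_a54f13_nt), part Ct: common interface of the two counts

`M2eStmt ε`: the number of determinant forms of quadruples of integral matrices is at most `C L^A K^ε`.
It follows from `M2Stmt` (`ε = 15/4`) and from helper72's count `CountStmt` (every `ε > 0`).
-/

set_option autoImplicit false

namespace Pool.Agent.HS.Ct

open MvPolynomial

/-- The interface: `D` = degree of general position. -/
def M2eStmt (ε : ℝ) : Prop :=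
  ∃ D C A : ℕ, ∀ (K L : ℝ) (T : Finset (Fin 4 → ℤ)) (I : ℕ), 1 ≤ L → C * L ^ A ≤ K → 1 ≤ I →
    (∀ n ∈ T, ∀ l, |(n l : ℝ)| ≤ L) → GP D T →
    ∀ F : Finset (Fin 4 → Matrix (Fin 2) (Fin 2) ℤ),
      (∀ h ∈ F, |ix h| = I) → (∀ h ∈ F, ∃ g g', AdmM K L T h g g') →
      (∀ h ∈ F, ∀ h' ∈ F, (∀ n, qf h n = qf h' n) → h = h') →
      (F.card : ℝ) ≤ C * L ^ A * K ^ ε

/-- **M2a** (reserve): from the `B_h` count.  PROOF. `h0 = 14`, `D = 4 ^ 14`, `7/2 + 7/28 = 15/4`. -/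
def M2aStmt : Prop := M2Stmt → M2eStmt (15 / 4)

/-- the quadratic form with a coefficient array -/
noncomputable def qa (a : Fin 4 → Fin 4 → ℤ) : MvPolynomial (Fin 4) ℚ := ∑ i, ∑ j, C (a i j : ℚ) * X i * X j

/-- the values of the quadratic form -/
def qv (a : Fin 4 → Fin 4 → ℤ) (n : Fin 4 → ℤ) : ℤ := ∑ i, ∑ j, a i j * n i * n j

/-- helper72's final statement for four variables (patch lemma), `s` = order of the Taylor expansion. -/
def CountStmt : Prop :=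
  ∀ s : ℕ, 1 ≤ s → ∃ e C : ℕ, ∀ (K N : ℝ) (N0 : Finset (Fin 4 → ℤ)), 1 ≤ K → 1 ≤ N →
    (∀ n ∈ N0, ∀ i, |(n i : ℝ)| ≤ N) →
    (∀ f : MvPolynomial (Fin 4) ℚ, f.IsHomogeneous e → f ≠ 0 → ∃ n ∈ N0, eval (fun l => (n l : ℚ)) f ≠ 0) →
    ∀ A : Finset (Fin 4 → Fin 4 → ℤ), (∀ a ∈ A, ∀ i j, |(a i j : ℝ)| ≤ K ^ 2 * N) →
      (∀ a ∈ A, ∀ n ∈ N0, IsSquare (qv a n) ∧ K ^ 2 / N ≤ (qv a n : ℝ)) →
      (∀ a ∈ A, Irreducible (qa a)) → (∀ a ∈ A, ∀ b ∈ A, a ≠ b → ¬ Associated (qa a) (qa b)) →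
      (A.card : ℝ) ≤ C * N ^ C * K ^ ((32 : ℝ) / s)

/-- **M2b** (main line): `M2eStmt ε` for all `ε > 0` from helper72's count.
PROOF. Choose `s` with `32/s ≤ ε`, `e, C₁` from `CountStmt`; `D = e`, `A = 3 (C₁ + 1)`, `C` large. Array of `h`:
`arr h i j = h_i 00 · h_j 11 - h_i 01 · h_j 10`, so that `qa (arr h) = qfP h` (multiply out) and `qv (arr h) n = qf h n`
(`det (∑ n_l h_l)`); but the entries `arr h i j` themselves need not be small; use the symmetrised (upper triangular) array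
`a i i = det h_i`, `a i j = B(h_i, h_j)` for `i < j`, `a i j = 0` for `i > j`, where
`B(x, y) = x00 y11 + x11 y00 - x01 y10 - x10 y01` is invariant: `B(g x g', g y g') = B(x, y)` for `det g = det g' = 1`
(polarise `det (g x g') = det x`). By `AdmM`: `|B| ≤ 2(KL)² + 2(L/K)² ≤ 4K²L²`, `|det h_i| ≤ 2K²L²`. Take `N = 4L³ ≥ 1`,
`N0 = T`: `|n i| ≤ L ≤ N`, `|a i j| ≤ 4K²L² ≤ K²N`; for `n ∈ T`:
`qf h n = (g r g')00 (g r g')11 - (g r g')01 (g r g')10 ≥ K²/L² - 16L⁴/K² ≥ K²/(4L³)` (`r = ∑ n_l h_l`; the antidiagonal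
entries of `g r g'` are at most `4L·L/K`; `K ≥ C L^A` gives `16L⁴/K² ≤ K²/(2L²)`). `GP D T` with `D = e` gives the
hypothesis for forms of degree `e`. `A := F.image arr`; the map `h ↦ arr h` is injective on `F` because `qf h` is determined
by `arr h`; irreducible by `IrrStmt` (`ix h ≠ 0` from `|ix h| = I ≥ 1`), not associated for different arrays:
by `AssStmt` associated forms (common positive value at a point of `T`; `T` is not empty because of `GP` with degree `0`,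
`F = 1`) have `qf h = qf h'`, so `h = h'`. Then `#F = #A ≤ C₁ (4L³)^C₁ K^(32/s) ≤ C L^A K^ε` (`K ≥ 1`). -/
def M2bStmt : Prop := IrrStmt → AssStmt → CountStmt → ∀ ε : ℝ, 0 < ε → M2eStmt ε

end Pool.Agent.HS.Ct
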